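import Pool.Agent.U908.LC.Det

/-!
# Curvature tensors of causal type
-/

set_option autoImplicit false

namespace Pool.Agent.U908.LC

open Pool.Agent.W666.GB Pool.Agent.W669.HD Pool.Agent.Y519.HB Pool.Agent.N565.LZ
open Filter Topology

section defs

variable {V : Type} [NormedAddCommGroup V] [InnerProductSpace ℝ V]

/-- symmetric bilinear forms -/
structure SymBil (h : V → V → ℝ) : Prop where
  add : ∀ x x' y, h (x + x') y = h x y + h x' y
  smul : ∀ (t : ℝ) x y, h (t • x) y = t * h x y
  symm : ∀ x y, h x y = h y x

/-- `S` is the tensor of the Gauss equation of a causal second fundamental form with values in the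
Lorentzian space `ℝ ⊕ ℝᴺ`: `b` and `β_1, …, β_N` are symmetric bilinear forms,
`(b(x,x), β_1(x,x), …, β_N(x,x))` lies in the closed future light cone for all `x`, and
`S(x,y,z,w) = ∑ (β_k(x,z) β_k(y,w) - β_k(x,w) β_k(y,z)) - (b(x,z) b(y,w) - b(x,w) b(y,z))`. -/
def CausalT (N : ℕ) (S : V → V → V → V → ℝ) : Prop :=
  ∃ (b : V → V → ℝ) (β : Fin N → V → V → ℝ), SymBil b ∧ (∀ k, SymBil (β k)) ∧
    (∀ x, 0 ≤ b x x ∧ ∑ k, β k x x ^ 2 ≤ b x x ^ 2) ∧
    ∀ x y z w, S x y z w = (∑ k, (β k x z * β k y w - β k x w * β k y z)) -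
      (b x z * b y w - b x w * b y z)

/-- A sum of any number of tensors of causal type of any codimensions, minus `δ` times the tensor of
constant curvature one. -/
def CausalSum (δ : ℝ) (R : V → V → V → V → ℝ) : Prop :=
  ∃ (r : ℕ) (N : Fin r → ℕ) (S : Fin r → V → V → V → V → ℝ), (∀ i, CausalT (N i) (S i)) ∧
    ∀ x y z w, R x y z w = (∑ i, S i x y z w) - δ * unitT x y z w

end defs

section basic

variable {V : Type} [NormedAddCommGroup V] [InnerProductSpace ℝ V]

/-- a symmetric bilinear form as a linear map -/
noncomputable def SymBil.lin {b : V → V → ℝ} (h : SymBil b) : V →ₗ[ℝ] V →ₗ[ℝ] ℝ :=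
  LinearMap.mk₂ ℝ b h.add (fun t x y => h.smul t x y)
    (fun x y y' => by rw [h.symm, h.add, h.symm y, h.symm y'])
    (fun t x y => by rw [h.symm, h.smul, h.symm y, smul_eq_mul])

theorem SymBil.lin_apply {b : V → V → ℝ} (h : SymBil b) (x y : V) : h.lin x y = b x y := rfl

theorem SymBil.expand {b : V → V → ℝ} (h : SymBil b) {J : Type} [Fintype J] (e : J → V)
    (x : J → ℝ) : ∑ i, ∑ j, x i * b (e i) (e j) * x j = b (∑ i, x i • e i) (∑ i, x i • e i) := by
  rw [← h.lin_apply]
  simp only [map_sum, LinearMap.sum_apply, map_smul, LinearMap.smul_apply, smul_eq_mul,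
    h.lin_apply, Finset.mul_sum]
  rw [Finset.sum_comm]
  exact Finset.sum_congr rfl fun i _ => Finset.sum_congr rfl fun j _ => by ring

theorem SymBil.comp {b : V → V → ℝ} (h : SymBil b) (E : Submodule ℝ V) :
    SymBil (fun x y : E => b x y) where
  add x x' y := h.add _ _ _
  smul t x y := h.smul t _ _
  symm x y := h.symm _ _

theorem CausalT.restrict {N : ℕ} {S : V → V → V → V → ℝ} (h : CausalT N S) (E : Submodule ℝ V) :
    CausalT N (fun x y z w : E => S x y z w) := by
  obtain ⟨b, β, hb, hβ, hc, hS⟩ := h
  exact ⟨fun x y => b x y, fun k x y => β k x y, hb.comp E, fun k => (hβ k).comp E,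
    fun x => hc x, fun x y z w => hS x y z w⟩

theorem CausalT.curv {N : ℕ} {S : V → V → V → V → ℝ} (h : CausalT N S) : AlgCurv S := by
  obtain ⟨b, β, hb, hβ, -, hS⟩ := h
  have hb' : ∀ x y, b x y = b y x := hb.symm
  refine ⟨fun x x' y z w => ?_, fun t x y z w => ?_, fun x y z w => ?_, fun x y z w => ?_,
    fun x y z w => ?_⟩
  · rw [hS, hS, hS, hb.add, hb.add]
    have : ∑ k, (β k (x + x') z * β k y w - β k (x + x') w * β k y z) =
        ∑ k, (β k x z * β k y w - β k x w * β k y z) +
          ∑ k, (β k x' z * β k y w - β k x' w * β k y z) := by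
      rw [← Finset.sum_add_distrib]
      refine Finset.sum_congr rfl fun k _ => ?_
      rw [(hβ k).add, (hβ k).add]
      ring
    rw [this]
    ring
  · rw [hS, hS, hb.smul, hb.smul]
    have : ∑ k, (β k (t • x) z * β k y w - β k (t • x) w * β k y z) =
        t * ∑ k, (β k x z * β k y w - β k x w * β k y z) := by
      rw [Finset.mul_sum]
      refine Finset.sum_congr rfl fun k _ => ?_
      rw [(hβ k).smul, (hβ k).smul]
      ring
    rw [this]
    ring
  · rw [hS, hS]
    have : ∑ k, (β k y z * β k x w - β k y w * β k x z) =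
        -∑ k, (β k x z * β k y w - β k x w * β k y z) := by
      rw [← Finset.sum_neg_distrib]
      refine Finset.sum_congr rfl fun k _ => ?_
      ring
    rw [this]
    ring
  · rw [hS, hS]
    have : ∑ k, (β k z x * β k w y - β k z y * β k w x) =
        ∑ k, (β k x z * β k y w - β k x w * β k y z) := by
      refine Finset.sum_congr rfl fun k _ => ?_
      rw [(hβ k).symm z x, (hβ k).symm w y, (hβ k).symm z y, (hβ k).symm w x]
      ring
    rw [this, hb.symm z x, hb.symm w y, hb.symm z y, hb.symm w x]
    ring
  · rw [hS, hS, hS]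
    have : ∑ k, (β k x z * β k y w - β k x w * β k y z) +
        ∑ k, (β k y x * β k z w - β k y w * β k z x) +
        ∑ k, (β k z y * β k x w - β k z w * β k x y) = 0 := by
      rw [← Finset.sum_add_distrib, ← Finset.sum_add_distrib]
      refine Finset.sum_eq_zero fun k _ => ?_
      rw [(hβ k).symm y x, (hβ k).symm z x, (hβ k).symm z y]
      ring
    rw [hb.symm y x, hb.symm z x, hb.symm z y]
    linarith

end basic

section sign

variable {V : Type} [NormedAddCommGroup V] [InnerProductSpace ℝ V]

/-- **The sign of the Gauss–Bonnet–Chern integrand of a sum of tensors of causal type.** -/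
theorem causal_sum_sign {m : ℕ} (e : OrthonormalBasis (Fin m × Bool) ℝ V) {r : ℕ} {N : Fin r → ℕ}
    {S : Fin r → V → V → V → V → ℝ} (h : ∀ i, CausalT (N i) (S i)) :
    0 ≤ (-1 : ℝ) ^ m * gbc e (fun x y z w => ∑ i, S i x y z w) := by
  choose b β hb hβ hc hS using h
  have hpos : ∀ ε : ℝ, 0 < ε →
      0 ≤ (-1 : ℝ) ^ m * gbc e (fun x y z w => (∑ i, S i x y z w) - ε * unitT x y z w) := by
    intro ε hε
    have hπ := Real.pi_pos
    set B : Option (Fin r) × Option ((i : Fin r) × Fin (N i)) →
        Fin m × Bool → Fin m × Bool → ℝ := fun s i j =>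
      s.1.elim (s.2.elim (Real.sqrt ε * inner ℝ (e i) (e j)) (fun _ => 0))
        (fun a => s.2.elim (b a (e i) (e j))
          (fun t => if t.1 = a then β t.1 t.2 (e i) (e j) else 0)) with hB
    have hε2 : Real.sqrt ε * Real.sqrt ε = ε := Real.mul_self_sqrt hε.le
    have hq1 : ∀ x : Fin m × Bool → ℝ, qd (B (none, none)) x = Real.sqrt ε * ∑ i, x i ^ 2 := by
      intro x
      unfold qd
      simp only [hB, Option.elim_none]
      rw [Finset.mul_sum]
      refine Finset.sum_congr rfl fun i _ => ?_
      rw [Finset.sum_eq_single i]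
      · rw [real_inner_self_eq_norm_sq, e.norm_eq_one]
        ring
      · intro j _ hj
        rw [e.orthonormal.2 (Ne.symm hj)]
        ring
      · intro h
        exact absurd (Finset.mem_univ _) h
    have hq2 : ∀ (t : (i : Fin r) × Fin (N i)) (x : Fin m × Bool → ℝ),
        qd (B (none, some t)) x = 0 := by
      intro t x
      unfold qd
      simp [hB]
    have hq3 : ∀ (a : Fin r) (x : Fin m × Bool → ℝ),
        qd (B (some a, none)) x = b a (∑ i, x i • e i) (∑ i, x i • e i) := by
      intro a x
      rw [← (hb a).expand (fun i => e i) x]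
      rfl
    have hq4 : ∀ (a : Fin r) (x : Fin m × Bool → ℝ),
        ∑ t, qd (B (some a, some t)) x ^ 2 =
          ∑ k, β a k (∑ i, x i • e i) (∑ i, x i • e i) ^ 2 := by
      intro a x
      rw [Fintype.sum_sigma, Finset.sum_eq_single a]
      · refine Finset.sum_congr rfl fun k _ => ?_
        rw [← (hβ a k).expand (fun i => e i) x]
        unfold qd
        simp [hB]
      · intro a' _ ha'
        refine Finset.sum_eq_zero fun k _ => ?_
        unfold qd
        simp [hB, ha']
      · intro h
        exact absurd (Finset.mem_univ _) h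
    have key := Yf_nonneg B (fun s i j => by
      obtain ⟨s1, s2⟩ := s
      rcases s1 with _ | a
      · rcases s2 with _ | t
        · simp only [hB, Option.elim_none]
          rw [real_inner_comm]
        · rfl
      · rcases s2 with _ | t
        · exact (hb a).symm _ _
        · simp only [hB, Option.elim_some]
          rw [(hβ t.1 t.2).symm]) (fun i x => by
      rcases i with _ | a
      · rw [hq1]
        simp only [hq2]
        have : 0 ≤ ∑ i, x i ^ 2 := Finset.sum_nonneg fun _ _ => sq_nonneg _
        refine ⟨by positivity, ?_⟩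
        simp
        positivity
      · rw [hq3, hq4]
        exact hc a _) (fun x hx => by
      rw [Fintype.sum_option, hq1]
      have h1 : 0 < ∑ i, x i ^ 2 := by
        obtain ⟨i, hi⟩ : ∃ i, x i ≠ 0 := by
          by_contra hcon
          push Not at hcon
          exact hx (funext hcon)
        exact Finset.sum_pos' (fun _ _ => sq_nonneg _) ⟨i, Finset.mem_univ i, by positivity⟩
      have h2 : 0 ≤ ∑ a, qd (B (some a, none)) x := Finset.sum_nonneg fun a _ => by
        rw [hq3]
        exact (hc a _).1
      have h3 : 0 < Real.sqrt ε := Real.sqrt_pos.2 hε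
      have h4 := mul_pos h3 h1
      linarith)
    have hcomp : ∀ i j k l : Fin m × Bool,
        (∑ a, S a (e i) (e j) (e k) (e l)) - ε * unitT (e i) (e j) (e k) (e l) =
        (∑ s, -er s.2 * (B s i k * B s j l)) - ∑ s, -er s.2 * (B s i l * B s j k) := by
      intro i j k l
      have h1 : ∀ i j k l : Fin m × Bool, ∑ s, -er s.2 * (B s i k * B s j l) =
          -(ε * (inner ℝ (e i) (e k) * inner ℝ (e j) (e l))) +
          ∑ a, ((∑ t, β a t (e i) (e k) * β a t (e j) (e l)) -
            b a (e i) (e k) * b a (e j) (e l)) := by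
        intro i j k l
        rw [Fintype.sum_prod_type, Fintype.sum_option]
        congr 1
        · rw [Fintype.sum_option]
          simp only [hB, er, Option.elim_none, Option.elim_some, mul_zero, Finset.sum_const_zero,
            add_zero]
          linear_combination (-(inner ℝ (e i) (e k) * inner ℝ (e j) (e l))) * hε2
        · refine Finset.sum_congr rfl fun a _ => ?_
          rw [Fintype.sum_option, Fintype.sum_sigma, Finset.sum_eq_single a]
          · simp only [hB, er, Option.elim_none, Option.elim_some, if_true, neg_neg, one_mul]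
            ring
          · intro a' _ ha'
            refine Finset.sum_eq_zero fun k _ => ?_
            simp [hB, ha']
          · intro h
            exact absurd (Finset.mem_univ _) h
      rw [h1 i j k l, h1 i j l k]
      simp only [hS, unitT]
      simp only [Finset.sum_sub_distrib]
      ring
    have h3 := lift_sum (B := Fin m) (fun a b' c' d => ∑ s, -er s.2 * (B s a b' * B s c' d))
      (fun i j k l => (∑ a, S a (e i) (e j) (e k) (e l)) - ε * unitT (e i) (e j) (e k) (e l)) hcomp
    have h4 : gbc e (fun x y z w => (∑ i, S i x y z w) - ε * unitT x y z w) =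
        1 / ((8 * Real.pi) ^ m * m.factorial) * (2 ^ m *
          Yf (fun a b' c' d => ∑ s, -er s.2 * (B s a b' * B s c' d))) := by
      rw [Fintype.card_fin] at h3
      rw [← h3]
      rfl
    have h5 : Yf (fun a b' c' d => ∑ s, -er s.2 * (B s a b' * B s c' d)) =
        (-1) ^ m * Yf (fun a b' c' d => ∑ s, er s.2 * (B s a b' * B s c' d)) := by
      rw [Pool.Agent.Y489.SM.Yf_sum (fun s => -er s.2) B,
        Pool.Agent.Y489.SM.Yf_sum (fun s => er s.2) B, Finset.mul_sum]
      refine Finset.sum_congr rfl fun α _ => ?_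
      have : ∏ x : Fin m, -er (α x).2 = (-1) ^ m * ∏ x, er (α x).2 := by
        rw [Finset.prod_neg, Finset.card_univ, Fintype.card_fin]
      rw [this]
      ring
    rw [h4, h5]
    have h6 : (-1 : ℝ) ^ m * (-1) ^ m = 1 := by
      rw [← mul_pow]
      norm_num
    have h7 : (-1 : ℝ) ^ m * (1 / ((8 * Real.pi) ^ m * m.factorial) * (2 ^ m *
        ((-1) ^ m * Yf (fun a b' c' d => ∑ s, er s.2 * (B s a b' * B s c' d))))) =
        1 / ((8 * Real.pi) ^ m * m.factorial) * (2 ^ m *
        Yf (fun a b' c' d => ∑ s, er s.2 * (B s a b' * B s c' d))) := by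
      linear_combination (1 / ((8 * Real.pi) ^ m * m.factorial) * (2 ^ m *
        Yf (fun a b' c' d => ∑ s, er s.2 * (B s a b' * B s c' d)))) * h6
    rw [h7]
    positivity
  have hcont : Continuous fun ε : ℝ =>
      (-1 : ℝ) ^ m * gbc e (fun x y z w => (∑ i, S i x y z w) - ε * unitT x y z w) := by
    unfold gbc
    fun_prop
  have hlim := (hcont.tendsto 0).mono_left (nhdsWithin_le_nhds (s := Set.Ioi 0))
  simp only [zero_mul, sub_zero] at hlim
  refine ge_of_tendsto hlim ?_
  filter_upwards [self_mem_nhdsWithin] with ε hε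
  exact hpos ε hε

end sign

end Pool.Agent.U908.LC
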