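import Pool.Agent.U908.LC.Time

/-!
# Lorentz reflections and affine substitutions
-/

set_option autoImplicit false

namespace Pool.Agent.U908.LC

open MvPolynomial Filter Topology

section degree

variable {σ σ' : Type*}

theorem totalDegree_aeval_le (g : σ → MvPolynomial σ' ℂ) (hg : ∀ s, (g s).totalDegree ≤ 1)
    (f : MvPolynomial σ ℂ) (d : ℕ) (h : f.totalDegree ≤ d) : (aeval g f).totalDegree ≤ d := by
  rw [aeval_def, eval₂]
  refine (totalDegree_finsetSum _ _).trans (Finset.sup_le fun m hm => ?_)
  refine (totalDegree_mul _ _).trans ?_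
  have h1 : ∀ c : ℂ, ((algebraMap ℂ (MvPolynomial σ' ℂ)) c).totalDegree = 0 := fun c =>
    totalDegree_C _
  rw [h1, zero_add]
  refine (totalDegree_finsetProd _ _).trans ?_
  have h2 : ∑ i ∈ m.support, (g i ^ m i).totalDegree ≤ ∑ i ∈ m.support, m i := by
    refine Finset.sum_le_sum fun i _ => ?_
    refine (totalDegree_pow _ _).trans ?_
    exact (Nat.mul_le_mul_left _ (hg i)).trans (by rw [mul_one])
  refine h2.trans (le_trans ?_ h)
  exact le_totalDegree hm

theorem eval_aeval (g : σ → MvPolynomial σ' ℂ) (f : MvPolynomial σ ℂ) (z : σ' → ℂ) :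
    eval z (aeval g f) = eval (fun s => eval z (g s)) f := by
  have h := comp_aeval_apply (R := ℂ) g (aeval (R := ℂ) z) f
  rw [aeval_eq_eval, aeval_eq_eval] at h
  exact h

end degree

section

variable {K : Type*} [Fintype K]

/-- the Lorentzian product -/
def bf (x y : Option K → ℝ) : ℝ := x none * y none - ∑ k, x (some k) * y (some k)

/-- the sign vector -/
def er : Option K → ℝ := fun o => o.elim 1 (fun _ => -1)

theorem bf_eq (x y : Option K → ℝ) : bf x y = ∑ o, er o * (x o * y o) := by
  rw [Fintype.sum_option]
  simp only [er, Option.elim_none, Option.elim_some, one_mul, neg_one_mul, Finset.sum_neg_distrib]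
  rfl

theorem qf_eq_bf (x : Option K → ℝ) : qf x = bf x x := by
  unfold qf bf
  simp only [sq]

theorem bf_pos {x y : Option K → ℝ} (hx : Fut x) (hy : Fut y) : 0 < bf x y := by
  obtain ⟨hx1, hx2⟩ := hx
  obtain ⟨hy1, hy2⟩ := hy
  have h := Finset.sum_mul_sq_le_sq_mul_sq Finset.univ (fun k => x (some k)) (fun k => y (some k))
  have h0 : 0 ≤ ∑ k, x (some k) ^ 2 := Finset.sum_nonneg fun _ _ => sq_nonneg _
  have h0' : 0 ≤ ∑ k, y (some k) ^ 2 := Finset.sum_nonneg fun _ _ => sq_nonneg _
  have h1 : (∑ k, x (some k) * y (some k)) ^ 2 < (x none * y none) ^ 2 := by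
    rw [mul_pow]
    refine h.trans_lt ?_
    exact mul_lt_mul'' hx2 hy2 h0 h0'
  have h2 := abs_lt_of_sq_lt_sq' h1 (by positivity)
  unfold bf
  linarith [h2.2]

/-- the unit time vector (real) -/
def tr : Option K → ℝ := fun o => o.elim 1 (fun _ => 0)

/-- the Lorentz reflection which exchanges the unit time vector and `n` -/
noncomputable def refl (n : Option K → ℝ) (x : Option K → ℝ) : Option K → ℝ := fun o =>
  x o - 2 * bf (fun s => tr s - n s) x / qf (fun s => tr s - n s) * (tr o - n o)

/-- its matrix -/
noncomputable def rmat [DecidableEq K] (n : Option K → ℝ) (s t : Option K) : ℝ :=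
  (if s = t then 1 else 0) - 2 * (er t * (tr t - n t)) / qf (fun s => tr s - n s) * (tr s - n s)

theorem refl_eq [DecidableEq K] (n x : Option K → ℝ) (s : Option K) :
    refl n x s = ∑ t, rmat n s t * x t := by
  unfold refl rmat
  simp only [sub_mul, ite_mul, one_mul, zero_mul, Finset.sum_sub_distrib, Finset.sum_ite_eq,
    Finset.mem_univ, if_true]
  congr 1
  rw [bf_eq, Finset.mul_sum, Finset.sum_div, Finset.sum_mul]
  refine Finset.sum_congr rfl fun t _ => ?_
  ring

omit [Fintype K] in
theorem er_sq (o : Option K) : er o * er o = 1 := by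
  cases o <;> simp [er]

section unit

variable {n : Option K → ℝ}

theorem qf_w (hn : qf n = 1) : qf (fun s => tr s - n s) = 2 * (1 - n none) := by
  unfold qf at hn ⊢
  simp only [tr, Option.elim_none, Option.elim_some, zero_sub, neg_sq]
  linarith

theorem w_eq_zero (hn : qf n = 1) (h : qf (fun s => tr s - n s) = 0) (o : Option K) :
    tr o - n o = 0 := by
  have h1 : n none = 1 := by
    have := qf_w hn
    linarith
  rcases o with _ | k
  · simp [tr, h1]
  · unfold qf at hn
    rw [h1] at hn
    have h2 : ∑ k, n (some k) ^ 2 = 0 := by linarith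
    have h3 := (Finset.sum_eq_zero_iff_of_nonneg (fun k _ => sq_nonneg (n (some k)))).1 h2 k
      (Finset.mem_univ _)
    have h4 : n (some k) = 0 := by simpa using h3
    simp [tr, h4]

theorem refl_time (hn : qf n = 1) (o : Option K) : refl n tr o = n o := by
  unfold refl
  by_cases h : qf (fun s => tr s - n s) = 0
  · have := w_eq_zero hn h o
    rw [this]
    linarith
  · have h1 := qf_w hn
    have h2 : bf (fun s => tr s - n s) tr = 1 - n none := by
      unfold bf
      simp [tr]
    rw [h2]
    have h3 : 2 * (1 - n none) / qf (fun s => tr s - n s) = 1 := by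
      rw [← h1]
      exact div_self h
    rw [h3]
    ring

theorem refl_none (hn : qf n = 1) (x : Option K → ℝ) : refl n x none = bf n x := by
  unfold refl
  by_cases h : qf (fun s => tr s - n s) = 0
  · have h0 := w_eq_zero hn h
    rw [h0 none, mul_zero, sub_zero]
    unfold bf
    have h1 := h0 none
    simp only [tr, Option.elim_none] at h1
    have h2 : ∀ k, n (some k) = 0 := by
      intro k
      have := h0 (some k)
      simp only [tr, Option.elim_some] at this
      linarith
    have h3 : n none = 1 := by linarith
    simp [h2, h3]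
  · have h1 := qf_w hn
    have h2 : bf (fun s => tr s - n s) x = x none - bf n x := by
      unfold bf
      simp only [tr, Option.elim_none, Option.elim_some, sub_mul, one_mul, zero_mul,
        Finset.sum_sub_distrib, Finset.sum_const_zero]
      ring
    have h4 : 2 * bf (fun s => tr s - n s) x / qf (fun s => tr s - n s) *
        ((tr : Option K → ℝ) none - n none) = bf (fun s => tr s - n s) x := by
      change 2 * bf (fun s => tr s - n s) x / qf (fun s => tr s - n s) * (1 - n none) = _
      rw [h1] at h ⊢
      have h6 : (1 - n none) ≠ 0 := fun h7 => h (by rw [h7, mul_zero])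
      field_simp
    rw [h4, h2]
    ring

theorem qf_refl (hn : qf n = 1) (x : Option K → ℝ) : qf (refl n x) = qf x := by
  by_cases h : qf (fun s => tr s - n s) = 0
  · have h0 := w_eq_zero hn h
    have : refl n x = x := by
      funext o
      unfold refl
      rw [h0 o, mul_zero, sub_zero]
    rw [this]
  · set w : Option K → ℝ := fun s => tr s - n s with hw
    set t := 2 * bf w x / qf w with ht
    have h1 : qf (refl n x) = qf x - 2 * t * bf w x + t ^ 2 * qf w := by
      have h2 : ∀ o, refl n x o = x o - t * w o := fun o => rfl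
      rw [qf_eq_bf, qf_eq_bf, qf_eq_bf, bf_eq, bf_eq, bf_eq, bf_eq, Finset.mul_sum, Finset.mul_sum,
        ← Finset.sum_sub_distrib, ← Finset.sum_add_distrib]
      refine Finset.sum_congr rfl fun o _ => ?_
      rw [h2]
      ring
    rw [h1, ht]
    field_simp
    ring

theorem fut_refl (hn : qf n = 1) (hf : Fut n) {x : Option K → ℝ} (hx : Fut x) :
    Fut (refl n x) := by
  have h1 := qf_refl hn x
  have h2 := hx.qf_pos
  rw [← h1] at h2
  refine ⟨?_, ?_⟩
  · rw [refl_none hn]
    exact bf_pos hf hx
  · unfold qf at h2
    linarith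

theorem rmat_mul [DecidableEq K] (hn : qf n = 1) (s s' : Option K) :
    ∑ t, er t * (rmat n s t * rmat n s' t) = if s = s' then er s else 0 := by
  set w : Option K → ℝ := fun s => tr s - n s with hw
  by_cases h : qf w = 0
  · have h0 := w_eq_zero hn h
    have h1 : ∀ s t, rmat n s t = if s = t then 1 else 0 := by
      intro s t
      unfold rmat
      rw [h0 s, mul_zero, sub_zero]
    simp only [h1]
    by_cases hs : s = s'
    · subst hs
      simp
    · rw [if_neg hs]
      refine Finset.sum_eq_zero fun t _ => ?_
      by_cases ht : s = t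
      · subst ht
        rw [if_neg (Ne.symm hs), mul_zero, mul_zero]
      · rw [if_neg ht, zero_mul, mul_zero]
  · have h1 : ∀ t, er t * (rmat n s t * rmat n s' t) =
        (if s = t then (if s' = t then er t else 0) else 0) -
        (if s = t then 2 * w t / qf w * w s' else 0) -
        (if s' = t then 2 * w t / qf w * w s else 0) +
        4 * (w s * w s') / (qf w ^ 2) * (er t * (w t * w t)) := by
      intro t
      have e := er_sq t
      have hr : ∀ s, rmat n s t = (if s = t then 1 else 0) - 2 * (er t * w t) / qf w * w s :=
        fun s => rfl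
      rw [hr, hr]
      have e3 : er t * (2 * (er t * w t) / qf w) = 2 * w t / qf w := by
        have : er t * (2 * (er t * w t) / qf w) = (er t * er t) * (2 * w t / qf w) := by ring
        rw [this, e, one_mul]
      have e4 : er t * ((2 * (er t * w t) / qf w * w s) * (2 * (er t * w t) / qf w * w s')) =
          4 * (w s * w s') / (qf w ^ 2) * (er t * (w t * w t)) := by
        have : er t * ((2 * (er t * w t) / qf w * w s) * (2 * (er t * w t) / qf w * w s')) =
            (er t * er t) * (4 * (w s * w s') / (qf w ^ 2) * (er t * (w t * w t))) := by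
          field_simp
          ring
        rw [this, e, one_mul]
      split_ifs with h1 h2 h2
      · linear_combination (-w s' - w s) * e3 + e4
      · linear_combination (-w s') * e3 + e4
      · linear_combination (-w s) * e3 + e4
      · linear_combination e4
    simp only [h1]
    rw [Finset.sum_add_distrib, Finset.sum_sub_distrib, Finset.sum_sub_distrib, ← Finset.mul_sum,
      ← bf_eq, ← qf_eq_bf]
    simp only [Finset.sum_ite_eq, Finset.mem_univ, if_true]
    have h5 : 4 * (w s * w s') / qf w ^ 2 * qf w = 4 * (w s * w s') / qf w := by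
      field_simp
    rw [h5]
    have h6 : (if s' = s then er s else 0) = if s = s' then er s else 0 := by
      by_cases hs : s = s'
      · subst hs; rfl
      · rw [if_neg hs, if_neg (Ne.symm hs)]
    rw [h6]
    ring

end unit

end

end Pool.Agent.U908.LC
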