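import Pool.Agent.U908.LC.Pen

/-!
# Pencils of symmetric matrices
-/

set_option autoImplicit false

namespace Pool.Agent.U908.LC

open MvPolynomial Pool.Agent.Y489.SM Pool.Agent.W666.GB

section det

variable {J : Type} [Fintype J] [DecidableEq J]

theorem det_ne_zero_of_im_pos (A P : J → J → ℝ) (hA : ∀ i j, A i j = A j i)
    (hP : ∀ x : J → ℝ, x ≠ 0 → 0 < ∑ i, ∑ j, x i * P i j * x j) :
    Matrix.det (Matrix.of fun i j => (A i j : ℂ) + Complex.I * (P i j : ℂ)) ≠ 0 := by
  intro h0
  obtain ⟨v, hv, hMv⟩ := Matrix.exists_mulVec_eq_zero_iff.2 h0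
  set x : J → ℝ := fun i => (v i).re with hx
  set y : J → ℝ := fun i => (v i).im with hy
  have h1 : ∑ i, (starRingEnd ℂ) (v i) *
      (∑ j, ((A i j : ℂ) + Complex.I * (P i j : ℂ)) * v j) = 0 := by
    refine Finset.sum_eq_zero fun i _ => ?_
    have h2 := congrFun hMv i
    simp only [Matrix.mulVec, dotProduct, Matrix.of_apply, Pi.zero_apply] at h2
    rw [h2, mul_zero]
  have h2 := congrArg Complex.im h1
  rw [Complex.zero_im, Complex.im_sum] at h2
  have h3 : ∀ i, ((starRingEnd ℂ) (v i) *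
      (∑ j, ((A i j : ℂ) + Complex.I * (P i j : ℂ)) * v j)).im =
      ∑ j, (x i * P i j * x j + y i * P i j * y j + (A i j * (x i * y j) - A i j * (y i * x j))) := by
    intro i
    rw [Finset.mul_sum, Complex.im_sum]
    refine Finset.sum_congr rfl fun j _ => ?_
    simp only [Complex.mul_im, Complex.mul_re, Complex.conj_re, Complex.conj_im, Complex.add_re,
      Complex.add_im, Complex.ofReal_re, Complex.ofReal_im, Complex.I_re, Complex.I_im, hx, hy]
    ring
  rw [Finset.sum_congr rfl fun i _ => h3 i] at h2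
  simp only [Finset.sum_add_distrib, Finset.sum_sub_distrib] at h2
  have h4 : ∑ i, ∑ j, A i j * (y i * x j) = ∑ i, ∑ j, A i j * (x i * y j) := by
    rw [Finset.sum_comm]
    refine Finset.sum_congr rfl fun i _ => Finset.sum_congr rfl fun j _ => ?_
    rw [hA j i]
    ring
  rw [h4, sub_self, add_zero] at h2
  have hxy : x ≠ 0 ∨ y ≠ 0 := by
    by_contra hcon
    push Not at hcon
    apply hv
    funext i
    have hx0 := congrFun hcon.1 i
    have hy0 := congrFun hcon.2 i
    simp only [hx, hy, Pi.zero_apply] at hx0 hy0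
    exact Complex.ext hx0 hy0
  have hge : ∀ z : J → ℝ, 0 ≤ ∑ i, ∑ j, z i * P i j * z j := by
    intro z
    by_cases hz : z = 0
    · subst hz
      simp
    · exact (hP z hz).le
  rcases hxy with h | h
  · linarith [hP x h, hge y]
  · linarith [hP y h, hge x]

theorem det_pos_of_pos (P : J → J → ℝ) (hs : ∀ i j, P i j = P j i)
    (hP : ∀ x : J → ℝ, x ≠ 0 → 0 < ∑ i, ∑ j, x i * P i j * x j) :
    0 < Matrix.det (Matrix.of P) := by
  have h : (Matrix.of P).PosDef := by
    refine Matrix.PosDef.of_dotProduct_mulVec_pos ?_ ?_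
    · ext i j
      simp [hs i j]
    · intro x hx
      have h1 := hP x hx
      have h2 : star x ⬝ᵥ ((Matrix.of P).mulVec x) = ∑ i, ∑ j, x i * P i j * x j := by
        simp only [dotProduct, Matrix.mulVec, Matrix.of_apply, Pi.star_apply, star_trivial,
          Finset.mul_sum]
        exact Finset.sum_congr rfl fun i _ => Finset.sum_congr rfl fun j _ => by ring
      rw [h2]
      exact h1
  exact h.det_pos

end det

section pencil

variable {S : Type} [Fintype S] [DecidableEq S] {m : ℕ}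

/-- the determinant of the pencil -/
noncomputable def pen (B : S → Fin m × Bool → Fin m × Bool → ℝ) : MvPolynomial S ℝ :=
  Matrix.det (Matrix.of fun i j => ∑ s, X s * C (B s i j))

omit [DecidableEq S] in
theorem pen_PF (B : S → Fin m × Bool → Fin m × Bool → ℝ) :
    PF (fun β : Fin m × Bool → S => MD (fun j => B (β j))) =
      C (((2 * m).factorial : ℕ) : ℝ) * pen B := by
  have hcard : Fintype.card (Fin m × Bool) = 2 * m := by
    rw [Fintype.card_prod, Fintype.card_fin, Fintype.card_bool, mul_comm]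
  have h0 := Pool.Agent.N565.LZ.sum_sign_det (fun i j : Fin m × Bool =>
    ∑ s, (X s * C (B s i j) : MvPolynomial S ℝ))
  unfold pen
  rw [hcard] at h0
  rw [map_natCast, ← h0]
  have h3 : ∀ σ τ : Equiv.Perm (Fin m × Bool), ((Equiv.Perm.sign σ : ℤ) : MvPolynomial S ℝ) *
      ((Equiv.Perm.sign τ : ℤ) : MvPolynomial S ℝ) *
        ∏ j, ∑ s, (X s * C (B s (σ j) (τ j)) : MvPolynomial S ℝ) =
      ∑ β : Fin m × Bool → S, C (sn σ * sn τ * ∏ j, B (β j) (σ j) (τ j)) * ∏ j, X (β j) := by
    intro σ τ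
    rw [Fintype.prod_sum, Finset.mul_sum]
    refine Finset.sum_congr rfl fun β _ => ?_
    rw [Finset.prod_mul_distrib]
    have h4 : (C (sn σ * sn τ * ∏ j, B (β j) (σ j) (τ j)) : MvPolynomial S ℝ) =
        ((Equiv.Perm.sign σ : ℤ) : MvPolynomial S ℝ) *
          ((Equiv.Perm.sign τ : ℤ) : MvPolynomial S ℝ) * ∏ j, C (B (β j) (σ j) (τ j)) := by
      simp only [sn, C_mul, map_prod]
      simp
    rw [h4]
    ring
  simp only [h3]
  rw [Finset.sum_congr rfl fun σ _ => Finset.sum_comm, Finset.sum_comm]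
  unfold PF
  refine Finset.sum_congr rfl fun β _ => ?_
  simp only [← Finset.sum_mul]
  congr 1
  unfold MD
  simp only [map_sum]

theorem lap_pow_pen (c : S → ℝ) (B : S → Fin m × Bool → Fin m × Bool → ℝ) :
    ((lap c : Module.End ℝ (MvPolynomial S ℝ)) ^ m) (pen B) =
      C (Yf (fun a b d f => ∑ s, c s * (B s a b * B s d f))) := by
  have h1 := lap_pow_PF c m (fun β : Fin m × Bool → S => MD (fun j => B (β j)))
    (fun π β => MD_perm (fun j => B (β j)) π)
  rw [pen_PF, ← smul_eq_C_mul, map_smul, ← Yf_sum, C_mul, ← smul_eq_C_mul] at h1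
  have h2 : (((2 * m).factorial : ℕ) : ℝ) ≠ 0 := by exact_mod_cast (Nat.factorial_pos _).ne'
  exact smul_right_injective _ h2 h1

omit [DecidableEq S] in
theorem eval_pen (B : S → Fin m × Bool → Fin m × Bool → ℝ) (z : S → ℝ) :
    eval z (pen B) = Matrix.det (Matrix.of fun i j => ∑ s, z s * B s i j) := by
  unfold pen
  rw [RingHom.map_det]
  congr 1
  ext i j
  simp

omit [DecidableEq S] in
theorem eval_map_pen (B : S → Fin m × Bool → Fin m × Bool → ℝ) (z : S → ℂ) :
    eval z (map (algebraMap ℝ ℂ) (pen B)) =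
      Matrix.det (Matrix.of fun i j => ∑ s, z s * (B s i j : ℂ)) := by
  unfold pen
  rw [RingHom.map_det, RingHom.map_det]
  congr 1
  ext i j
  simp

omit [DecidableEq S] in
theorem pen_homogeneous (B : S → Fin m × Bool → Fin m × Bool → ℝ) :
    (pen B).IsHomogeneous (2 * m) := by
  unfold pen
  rw [Matrix.det_apply']
  refine IsHomogeneous.sum _ _ _ fun σ _ => ?_
  have h1 : (∏ i, (Matrix.of fun i j => ∑ s, (X s * C (B s i j) : MvPolynomial S ℝ))
      (σ i) i).IsHomogeneous (∑ _i : Fin m × Bool, 1) := by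
    refine IsHomogeneous.prod _ _ _ fun i _ => ?_
    simp only [Matrix.of_apply]
    refine IsHomogeneous.sum _ _ _ fun s _ => ?_
    rw [mul_comm]
    exact (isHomogeneous_X _ _).C_mul _
  have h2 : ∑ _i : Fin m × Bool, 1 = 2 * m := by
    rw [Finset.sum_const, Finset.card_univ, Fintype.card_prod, Fintype.card_fin,
      Fintype.card_bool, smul_eq_mul, mul_one, mul_comm]
  rw [h2] at h1
  have h3 : ((Equiv.Perm.sign σ : ℤ) : MvPolynomial S ℝ) = C ((Equiv.Perm.sign σ : ℤ) : ℝ) := by
    simp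
  rw [h3]
  exact h1.C_mul _

end pencil

section main

variable {I K : Type} [Fintype I] [DecidableEq I] [Fintype K] [DecidableEq K] {m : ℕ}

/-- the quadratic form of a matrix -/
def qd (B : Fin m × Bool → Fin m × Bool → ℝ) (x : Fin m × Bool → ℝ) : ℝ :=
  ∑ i, ∑ j, x i * B i j * x j

omit [DecidableEq I] [DecidableEq K] in
theorem qd_sum (B : I × Option K → Fin m × Bool → Fin m × Bool → ℝ) (y : I × Option K → ℝ)
    (x : Fin m × Bool → ℝ) :
    ∑ i, ∑ j, x i * (∑ s, y s * B s i j) * x j = ∑ s, y s * qd (B s) x := by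
  unfold qd
  simp only [Finset.mul_sum, Finset.sum_mul]
  rw [Finset.sum_congr rfl fun i _ => Finset.sum_comm, Finset.sum_comm]
  refine Finset.sum_congr rfl fun s _ => Finset.sum_congr rfl fun i _ =>
    Finset.sum_congr rfl fun j _ => ?_
  ring

omit [DecidableEq I] [DecidableEq K] in
/-- positivity in the tube -/
theorem pencil_pos (B : I × Option K → Fin m × Bool → Fin m × Bool → ℝ)
    (hc : ∀ i x, 0 ≤ qd (B (i, none)) x ∧
      ∑ k, qd (B (i, some k)) x ^ 2 ≤ qd (B (i, none)) x ^ 2)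
    (hpos : ∀ x, x ≠ 0 → 0 < ∑ i, qd (B (i, none)) x) (y : I × Option K → ℝ)
    (hy : ∀ i, Fut fun o => y (i, o)) (x : Fin m × Bool → ℝ) (hx : x ≠ 0) :
    0 < ∑ s, y s * qd (B s) x := by
  rw [Fintype.sum_prod_type]
  have h1 : ∀ i, 0 ≤ ∑ o, y (i, o) * qd (B (i, o)) x ∧
      (0 < qd (B (i, none)) x → 0 < ∑ o, y (i, o) * qd (B (i, o)) x) := by
    intro i
    rw [Fintype.sum_option]
    obtain ⟨hq, hq2⟩ := hc i x
    obtain ⟨hy1, hy2⟩ := hy i
    set b := qd (B (i, none)) x with hb
    set Q := ∑ k, qd (B (i, some k)) x ^ 2 with hQ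
    set Y := ∑ k, y (i, some k) ^ 2 with hY
    have hcs := Finset.sum_mul_sq_le_sq_mul_sq Finset.univ (fun k => y (i, some k))
      (fun k => qd (B (i, some k)) x)
    have hY0 : 0 ≤ Y := Finset.sum_nonneg fun _ _ => sq_nonneg _
    have hQ0 : 0 ≤ Q := Finset.sum_nonneg fun _ _ => sq_nonneg _
    have h3 : Y * Q ≤ Y * b ^ 2 := mul_le_mul_of_nonneg_left hq2 hY0
    have h4 : Y * b ^ 2 ≤ y (i, none) ^ 2 * b ^ 2 :=
      mul_le_mul_of_nonneg_right hy2.le (sq_nonneg _)
    refine ⟨?_, fun hbp => ?_⟩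
    · have h5 : (∑ k, y (i, some k) * qd (B (i, some k)) x) ^ 2 ≤ (y (i, none) * b) ^ 2 := by
        rw [mul_pow]
        linarith
      have h6 := abs_le_of_sq_le_sq' h5 (mul_nonneg hy1.le hq)
      linarith [h6.1]
    · have h4' : Y * b ^ 2 < y (i, none) ^ 2 * b ^ 2 :=
        mul_lt_mul_of_pos_right hy2 (by positivity)
      have h5 : (∑ k, y (i, some k) * qd (B (i, some k)) x) ^ 2 < (y (i, none) * b) ^ 2 := by
        rw [mul_pow]
        linarith
      have h6 := abs_lt_of_sq_lt_sq' h5 (mul_nonneg hy1.le hq)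
      linarith [h6.1]
  obtain ⟨i, -, hi⟩ : ∃ i ∈ Finset.univ, 0 < qd (B (i, none)) x := by
    by_contra hcon
    push Not at hcon
    have := Finset.sum_nonpos hcon
    linarith [hpos x hx]
  exact Finset.sum_pos' (fun i _ => (h1 i).1) ⟨i, Finset.mem_univ i, (h1 i).2 hi⟩

/-- **The sign of the full contraction.** -/
theorem Yf_nonneg (B : I × Option K → Fin m × Bool → Fin m × Bool → ℝ)
    (hs : ∀ s i j, B s i j = B s j i)
    (hc : ∀ i x, 0 ≤ qd (B (i, none)) x ∧
      ∑ k, qd (B (i, some k)) x ^ 2 ≤ qd (B (i, none)) x ^ 2)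
    (hpos : ∀ x, x ≠ 0 → 0 < ∑ i, qd (B (i, none)) x) :
    0 ≤ Yf (fun a b d f => ∑ s : I × Option K, er s.2 * (B s a b * B s d f)) := by
  have h1 := lap_pow_nonneg (m := m) (pen_homogeneous B) ?_ ?_
  · rw [lap_pow_pen, eval_C] at h1
    exact h1
  · intro z hz
    rw [eval_map_pen]
    have h2 := det_ne_zero_of_im_pos (fun i j => ∑ s, (z s).re * B s i j)
      (fun i j => ∑ s, (z s).im * B s i j)
      (fun i j => Finset.sum_congr rfl fun s _ => by rw [hs]) (fun x hx => by
        rw [qd_sum B (fun s => (z s).im)]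
        exact pencil_pos B hc hpos (fun s => (z s).im) hz x hx)
    convert h2 using 3
    ext i j
    simp only [Complex.ofReal_sum, Complex.ofReal_mul, Finset.mul_sum,
      ← Finset.sum_add_distrib]
    refine Finset.sum_congr rfl fun s _ => ?_
    conv_lhs => rw [← Complex.re_add_im (z s)]
    ring
  · rw [eval_pen]
    refine det_pos_of_pos _ (fun i j => Finset.sum_congr rfl fun s _ => by rw [hs]) fun x hx => ?_
    rw [qd_sum B (fun s => tr s.2)]
    refine pencil_pos B hc hpos (fun s => tr s.2) (fun i => ?_) x hx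
    refine ⟨?_, ?_⟩ <;> simp [tr]

end main

end Pool.Agent.U908.LC
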