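import Pool.Agent.U908.LC.Stab

/-!
# There is no extremal zero
-/

set_option autoImplicit false

namespace Pool.Agent.U908.LC

open MvPolynomial Filter Topology

section

variable {K : Type*} [Fintype K]

/-- coefficients of the wave operator -/
def eta : Option K → ℂ := fun o => o.elim 1 (fun _ => -1)

omit [Fintype K] in
@[simp] theorem eta_none : (eta : Option K → ℂ) none = 1 := rfl
omit [Fintype K] in
@[simp] theorem eta_some (k : K) : (eta : Option K → ℂ) (some k) = -1 := rfl

/-- The zeros of the flow, normalised by the smallest time `τ₀` at which there is a zero. -/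
def Ext (d J : ℕ) (τ₀ : ℝ) (K : Type*) [Fintype K] : Prop :=
  ∀ g : MvPolynomial (Option K) ℂ, Stab g → g.totalDegree ≤ d → ∀ τ : ℝ, 0 < τ →
    ∀ z : Option K → ℂ, Fut (fun o => (z o).im) → eval z (flow J eta (τ : ℂ) g) = 0 →
      qf (fun o => (z o).im) ≤ τ / τ₀

theorem fut_axis {y : Option K → ℝ} {c : ℝ} (h0 : y none = 1 + c) (hk : ∀ k, y (some k) = 0)
    (hc : 0 < 1 + c) : Fut y ∧ qf y = (1 + c) ^ 2 := by
  unfold Fut qf
  simp only [hk, h0]
  refine ⟨⟨hc, ?_⟩, ?_⟩
  · simp
    positivity
  · simp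

/-- An extremal zero of higher multiplicity yields a simple one. -/
theorem exists_simple {d J : ℕ} {τ : ℂ} (k : ℕ) : ∀ f : MvPolynomial (Option K) ℂ, Stab f →
    f.totalDegree ≤ d → (∀ j ≤ k, eval ze ((pderiv none)^[j] (flow J eta τ f)) = 0) →
    eval ze ((pderiv none)^[k + 1] (flow J eta τ f)) ≠ 0 →
    ∃ g : MvPolynomial (Option K) ℂ, Stab g ∧ g.totalDegree ≤ d ∧
      eval ze (flow J eta τ g) = 0 ∧ eval ze (pderiv none (flow J eta τ g)) ≠ 0 := by
  induction k with
  | zero =>
    intro f hf hd h0 h1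
    exact ⟨f, hf, hd, by simpa using h0 0 le_rfl, by simpa using h1⟩
  | succ k ih =>
    intro f hf hd h0 h1
    have hfl : flow J eta τ (f + pderiv none f) =
        flow J eta τ f + pderiv none (flow J eta τ f) := by
      rw [map_add, flow_pderiv]
    have hit : ∀ j, (pderiv none)^[j] (flow J eta τ (f + pderiv none f)) =
        (pderiv none)^[j] (flow J eta τ f) + (pderiv none)^[j + 1] (flow J eta τ f) := by
      intro j
      rw [hfl]
      have : ∀ (j : ℕ) (a b : MvPolynomial (Option K) ℂ),
          (pderiv none)^[j] (a + b) = (pderiv none)^[j] a + (pderiv none)^[j] b := by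
        intro j
        induction j with
        | zero => intro a b; rfl
        | succ j ih => intro a b; simp only [Function.iterate_succ, Function.comp_apply, map_add, ih]
      rw [this, Function.iterate_succ, Function.comp_apply]
    refine ih (f + pderiv none f) hf.add_pderiv ?_ ?_ ?_
    · exact (totalDegree_add _ _).trans (max_le hd (totalDegree_pderiv_le _ _ hd _))
    · intro j hj
      rw [hit, map_add, h0 j (by omega), h0 (j + 1) (by omega), add_zero]
    · rw [hit, map_add, h0 (k + 1) le_rfl, zero_add]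
      exact h1

/-- some time derivative does not vanish -/
theorem exists_order {d J : ℕ} {τ₀ : ℝ} (hτ : 0 < τ₀) (hE : Ext d J τ₀ K)
    {f : MvPolynomial (Option K) ℂ} (hf : Stab f) (hd : f.totalDegree ≤ d)
    (hz : eval ze (flow J eta (τ₀ : ℂ) f) = 0) :
    ∃ k, (∀ j ≤ k, eval ze ((pderiv none)^[j] (flow J eta (τ₀ : ℂ) f)) = 0) ∧
      eval ze ((pderiv none)^[k + 1] (flow J eta (τ₀ : ℂ) f)) ≠ 0 := by
  classical
  set G := flow J eta (τ₀ : ℂ) f with hG
  have hline : ∀ (j : ℕ) (g : MvPolynomial (Option K) ℂ),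
      (Polynomial.derivative^[j] (lin ze te g)) = lin ze te ((pderiv none)^[j] g) := by
    intro j
    induction j with
    | zero => intro g; rfl
    | succ j ih =>
      intro g
      rw [Function.iterate_succ, Function.comp_apply, Function.iterate_succ, Function.comp_apply,
        ← ih]
      congr 1
      rw [derivative_lin, Fintype.sum_option]
      simp
  have hne : ∃ k, eval ze ((pderiv none)^[k] G) ≠ 0 := by
    by_contra hcon
    push Not at hcon
    have h0 : lin ze te G = 0 := by
      by_contra hne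
      have h1 := Polynomial.eval_iterate_derivative_rootMultiplicity (p := lin ze te G) (t := 0)
      rw [hline, eval_lin] at h1
      simp only [mul_zero, add_zero] at h1
      rw [hcon, eq_comm, smul_eq_zero] at h1
      rcases h1 with h1 | h1
      · exact (Nat.factorial_pos _).ne' h1
      · exact Polynomial.eval_divByMonic_pow_rootMultiplicity_ne_zero 0 hne h1
    have h2 := congrArg (fun p : Polynomial ℂ => p.eval Complex.I) h0
    simp only [eval_lin, Polynomial.eval_zero] at h2
    have h3 := hE f hf hd τ₀ hτ _ ?_ h2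
    · rw [div_self hτ.ne'] at h3
      unfold qf at h3
      simp at h3
      norm_num at h3
    · refine ⟨?_, ?_⟩ <;> simp
  refine ⟨Nat.find hne - 1, fun j hj => ?_, ?_⟩
  · have h1 : Nat.find hne ≠ 0 := by
      intro h0
      have := Nat.find_spec hne
      rw [h0] at this
      exact this hz
    by_contra hcon
    have := Nat.find_min' hne hcon
    omega
  · have h1 : Nat.find hne ≠ 0 := by
      intro h0
      have := Nat.find_spec hne
      rw [h0] at this
      exact this hz
    rw [Nat.sub_add_cancel (Nat.one_le_iff_ne_zero.2 h1)]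
    exact Nat.find_spec hne

section local_analysis

variable {d J : ℕ} {τ₀ : ℝ} {f : MvPolynomial (Option K) ℂ}

/-- first order condition -/
theorem first_order (hτ : 0 < τ₀) (hE : Ext d J τ₀ K) (hf : Stab f) (hd : f.totalDegree ≤ d)
    (hz : eval ze (flow J eta (τ₀ : ℂ) f) = 0)
    (ha : eval ze (pderiv none (flow J eta (τ₀ : ℂ) f)) ≠ 0) (k : K) :
    eval ze (pderiv (some k) (flow J eta (τ₀ : ℂ) f)) = 0 := by
  classical
  set G := flow J eta (τ₀ : ℂ) f with hG
  set a := eval ze (pderiv none G) with ha'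
  by_contra hb
  set b := eval ze (pderiv (some k) G) with hb'
  set β : ℂ := -(Complex.I * a) / b with hβ
  set v : Option K → ℂ := fun o => o.elim Complex.I (fun k' => if k' = k then β else 0) with hv
  have hGd : G.totalDegree ≤ d := totalDegree_flow_le _ _ _ _ _ hd
  have hDv : ∀ lam : ℂ, ∑ s, (v s + lam * te s) * eval ze (pderiv s G) = lam * a := by
    intro lam
    rw [Fintype.sum_option]
    simp only [hv, Option.elim_none, Option.elim_some, te_none, te_some, mul_zero, add_zero,
      ite_mul, zero_mul, Finset.sum_ite_eq', Finset.mem_univ, if_true, mul_one]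
    rw [← ha', ← hb', hβ, div_mul_cancel₀ _ hb]
    ring
  have h0 : (pth ze (fun s => v s + (0 : ℂ) * te s) 0 G).coeff 0 = 0 := by
    rw [coeff_zero_pth]
    exact hz
  have hlim : ∀ lam : ℂ, Tendsto (fun ε : ℝ => (Polynomial.C (1 / (ε : ℂ)) *
      lin (fun s => ze s + v s * ε) (fun s => te s * ε) G).eval lam) (𝓝[>] 0) (𝓝 (lam * a)) := by
    intro lam
    have h1 := tendsto_div_self (R := pth ze (fun s => v s + lam * te s) 0 G) (by
      rw [coeff_zero_pth]; exact hz)
    rw [coeff_one_pth, hDv] at h1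
    refine h1.congr fun ε => ?_
    rw [eval_pth, Polynomial.eval_mul, Polynomial.eval_C, eval_lin, one_div, div_eq_inv_mul]
    congr 3
    funext s
    simp only [Pi.zero_apply, zero_mul, add_zero]
    ring
  have hroot := exists_root_near (l := 𝓝[>] (0 : ℝ)) (n := d)
    (p := fun ε : ℝ => Polynomial.C (1 / (ε : ℂ)) *
      lin (fun s => ze s + v s * ε) (fun s => te s * ε) G) (a := 0) (b := 1 / 2) (r := 1 / 2)
    (c := (1 / 2) * a) (fun ε => (Polynomial.natDegree_C_mul_le _ _).trans
      (natDegree_lin _ _ _ _ hGd)) (by norm_num) (mul_ne_zero (by norm_num) ha)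
    (by simpa using hlim 0) (hlim (1 / 2))
  have hsmall : ∀ᶠ ε : ℝ in 𝓝[>] (0 : ℝ), ε * ‖β‖ ^ 2 < 1 := by
    have h2 : Tendsto (fun ε : ℝ => ε * ‖β‖ ^ 2) (𝓝[>] 0) (𝓝 (0 * ‖β‖ ^ 2)) :=
      ((continuous_id.mul continuous_const).tendsto 0).mono_left nhdsWithin_le_nhds
    rw [zero_mul] at h2
    exact h2.eventually_lt_const one_pos
  obtain ⟨ε, ⟨⟨s, hs1, hs2⟩, hε2⟩, hε⟩ := ((hroot.and hsmall).and self_mem_nhdsWithin).exists
  have hε0 : (0 : ℝ) < ε := hε
  have hεc : (ε : ℂ) ≠ 0 := by exact_mod_cast hε0.ne'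
  rw [Polynomial.eval_mul, Polynomial.eval_C, eval_lin] at hs1
  have hs3 := (mul_eq_zero.1 hs1).resolve_left (one_div_ne_zero hεc)
  rw [sub_zero] at hs2
  have him : |s.im| ≤ ‖s‖ := Complex.abs_im_le_norm s
  have him2 := abs_le.1 him
  have hβim : β.im ^ 2 ≤ ‖β‖ ^ 2 := by
    rw [← sq_abs]
    exact pow_le_pow_left₀ (abs_nonneg _) (Complex.abs_im_le_norm β) 2
  have hy0 : ((fun o => (ze o + v o * (ε : ℂ) + te o * (ε : ℂ) * s : ℂ).im) (none : Option K)) =
      1 + ε + ε * s.im := by
    simp [hv]
  have hyk : ∑ k', ((fun o => (ze o + v o * (ε : ℂ) + te o * (ε : ℂ) * s : ℂ).im)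
      (some k' : Option K)) ^ 2 = (ε * β.im) ^ 2 := by
    rw [Finset.sum_eq_single k]
    · simp [hv]
      ring
    · intro k' _ hk'
      simp [hv, hk']
    · intro h
      exact absurd (Finset.mem_univ _) h
  have hbig : 1 < (1 + ε + ε * s.im) ^ 2 - (ε * β.im) ^ 2 := by
    have e1 : 1 + ε / 2 ≤ 1 + ε + ε * s.im := by nlinarith
    have e2 : (1 + ε / 2) ^ 2 ≤ (1 + ε + ε * s.im) ^ 2 := pow_le_pow_left₀ (by positivity) e1 2
    have e3 : (ε * β.im) ^ 2 ≤ ε * (ε * ‖β‖ ^ 2) := by
      have : (ε * β.im) ^ 2 = ε ^ 2 * β.im ^ 2 := by ring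
      rw [this]
      nlinarith [mul_le_mul_of_nonneg_left hβim (sq_nonneg ε)]
    nlinarith
  have hfut : Fut (fun o : Option K => (ze o + v o * (ε : ℂ) + te o * (ε : ℂ) * s : ℂ).im) := by
    refine ⟨?_, ?_⟩
    · rw [hy0]
      nlinarith
    · rw [hyk, hy0]
      linarith
  have hle := hE f hf hd τ₀ hτ _ hfut hs3
  rw [div_self hτ.ne'] at hle
  unfold qf at hle
  rw [hyk, hy0] at hle
  linarith

/-- second order condition in the spatial directions -/
theorem second_order (hτ : 0 < τ₀) (hE : Ext d J τ₀ K) (hf : Stab f) (hd : f.totalDegree ≤ d)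
    (hz : eval ze (flow J eta (τ₀ : ℂ) f) = 0)
    (ha : eval ze (pderiv none (flow J eta (τ₀ : ℂ) f)) ≠ 0) (k : K) :
    0 ≤ (eval ze (pderiv (some k) (pderiv (some k) (flow J eta (τ₀ : ℂ) f))) /
      eval ze (pderiv none (flow J eta (τ₀ : ℂ) f))).im := by
  classical
  have hfirst := first_order hτ hE hf hd hz ha k
  set G := flow J eta (τ₀ : ℂ) f with hG
  set a := eval ze (pderiv none G) with ha'
  set b := eval ze (pderiv (some k) (pderiv (some k) G)) with hb'
  by_contra hcon
  push Not at hcon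
  set v : Option K → ℂ := fun o => o.elim 0 (fun k' => if k' = k then 1 else 0) with hv
  have hGd : G.totalDegree ≤ d := totalDegree_flow_le _ _ _ _ _ hd
  have hsum1 : ∀ F : Option K → ℂ, ∑ s, v s * F s = F (some k) := by
    intro F
    rw [Fintype.sum_option]
    simp [hv]
  have hsum2 : ∀ F : Option K → ℂ, ∑ s, te s * F s = F none := by
    intro F
    rw [Fintype.sum_option]
    simp
  have hlim : ∀ lam : ℂ, Tendsto (fun ε : ℝ => (Polynomial.C (1 / (ε : ℂ) ^ 2) *
      lin (fun s => ze s + v s * ε) (fun s => te s * ε ^ 2) G).eval lam) (𝓝[>] 0)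
      (𝓝 (b / 2 + lam * a)) := by
    intro lam
    have h1 := tendsto_div_sq (R := pth ze v (fun s => lam * te s) G) (by
      rw [coeff_zero_pth]; exact hz) (by
      rw [coeff_one_pth, hsum1]; exact hfirst)
    rw [coeff_two_pth] at h1
    simp only [hsum1, mul_assoc, ← Finset.mul_sum, hsum2] at h1
    rw [← ha', ← hb'] at h1
    refine h1.congr fun ε => ?_
    rw [eval_pth, Polynomial.eval_mul, Polynomial.eval_C, eval_lin, one_div, div_eq_inv_mul]
    congr 3
    funext s
    ring
  set l0 : ℂ := -(b / a) / 2 with hl0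
  have hl0im : 0 < l0.im := by
    rw [hl0]
    have : (-(b / a) / 2).im = -(b / a).im / 2 := by
      rw [show (2 : ℂ) = ((2 : ℝ) : ℂ) by norm_num, Complex.div_ofReal_im, Complex.neg_im]
    rw [this]
    linarith
  set r : ℝ := l0.im / 2 with hr
  have hr0 : 0 < r := by positivity
  have hroot := exists_root_near (l := 𝓝[>] (0 : ℝ)) (n := d)
    (p := fun ε : ℝ => Polynomial.C (1 / (ε : ℂ) ^ 2) *
      lin (fun s => ze s + v s * ε) (fun s => te s * ε ^ 2) G) (a := l0) (b := l0 + r) (r := r)
    (c := r * a) (fun ε => (Polynomial.natDegree_C_mul_le _ _).trans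
      (natDegree_lin _ _ _ _ hGd)) (by simp [abs_of_pos hr0])
      (mul_ne_zero (by exact_mod_cast hr0.ne') ha)
    (by
      have := hlim l0
      have e : b / 2 + l0 * a = 0 := by
        rw [hl0]
        field_simp
        ring
      rwa [e] at this)
    (by
      have := hlim (l0 + r)
      have e : b / 2 + (l0 + r) * a = r * a := by
        rw [hl0]
        field_simp
        ring
      rwa [e] at this)
  obtain ⟨ε, ⟨s, hs1, hs2⟩, hε⟩ := (hroot.and self_mem_nhdsWithin).exists
  have hε0 : (0 : ℝ) < ε := hε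
  have hεc : (ε : ℂ) ≠ 0 := by exact_mod_cast hε0.ne'
  rw [Polynomial.eval_mul, Polynomial.eval_C, eval_lin] at hs1
  have hs3 := (mul_eq_zero.1 hs1).resolve_left (one_div_ne_zero (pow_ne_zero 2 hεc))
  have him : |(s - l0).im| ≤ ‖s - l0‖ := Complex.abs_im_le_norm _
  have him2 := abs_le.1 him
  rw [Complex.sub_im] at him2
  have hsim : 0 < s.im := by
    rw [hr] at hs2
    linarith [him2.1]
  have hvim : ∀ o, (v o * (ε : ℂ)).im = 0 := by
    intro o
    rcases o with _ | k'
    · simp [hv]
    · by_cases hk' : k' = k <;> simp [hv, hk']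
  have hy0 : ((fun o => (ze o + v o * (ε : ℂ) + te o * (ε : ℂ) ^ 2 * s : ℂ).im)
      (none : Option K)) = 1 + ε ^ 2 * s.im := by
    beta_reduce
    rw [Complex.add_im, Complex.add_im, hvim]
    simp [← Complex.ofReal_pow]
  have hyk : ∀ k' : K, ((fun o => (ze o + v o * (ε : ℂ) + te o * (ε : ℂ) ^ 2 * s : ℂ).im)
      (some k' : Option K)) = 0 := by
    intro k'
    beta_reduce
    rw [Complex.add_im, Complex.add_im, hvim]
    simp
  have hpos : 0 < ε ^ 2 * s.im := by positivity
  obtain ⟨hfut, hqf⟩ := fut_axis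
    (y := fun o : Option K => (ze o + v o * (ε : ℂ) + te o * (ε : ℂ) ^ 2 * s : ℂ).im) hy0 hyk
    (by linarith)
  have hle := hE f hf hd τ₀ hτ _ hfut hs3
  rw [div_self hτ.ne', hqf] at hle
  nlinarith

/-- second order condition in the time direction -/
theorem time_order (hτ : 0 < τ₀) (hE : Ext d J τ₀ K) (hf : Stab f) (hd : f.totalDegree ≤ d)
    (hz : eval ze (flow J eta (τ₀ : ℂ) f) = 0)
    (ha : eval ze (pderiv none (flow J eta (τ₀ : ℂ) f)) ≠ 0) :
    (eval ze (pderiv none (pderiv none (flow J eta (τ₀ : ℂ) f))) /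
      eval ze (pderiv none (flow J eta (τ₀ : ℂ) f))).im ≤ 0 := by
  classical
  set G := flow J eta (τ₀ : ℂ) f with hG
  have hline : ∀ g : MvPolynomial (Option K) ℂ,
      Polynomial.derivative (lin ze te g) = lin ze te (pderiv none g) := by
    intro g
    rw [derivative_lin, Fintype.sum_option]
    simp
  have he : ∀ g : MvPolynomial (Option K) ℂ, (lin ze te g).eval 0 = eval ze g := by
    intro g
    rw [eval_lin]
    simp
  have h := im_second_nonpos (p := lin ze te G) (by rw [he]; exact hz) (by rw [hline, he]; exact ha)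
    (fun s hs => by
      by_contra hcon
      push Not at hcon
      rw [eval_lin] at hs
      have hy0 : ((fun o => (ze o + te o * s : ℂ).im) (none : Option K)) = 1 + s.im := by simp
      have hyk : ∀ k' : K, ((fun o => (ze o + te o * s : ℂ).im) (some k' : Option K)) = 0 := by
        intro k'; simp
      obtain ⟨hfut, hqf⟩ := fut_axis (y := fun o : Option K => (ze o + te o * s : ℂ).im) hy0 hyk
        (by linarith)
      have hle := hE f hf hd τ₀ hτ _ hfut hs
      rw [div_self hτ.ne', hqf] at hle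
      nlinarith)
  rwa [hline, hline, he, he] at h

end local_analysis

end

end Pool.Agent.U908.LC
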