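import Pool.Agent.U908.LC.Sec

/-!
# The bounds for sums of tensors of causal type
-/

set_option autoImplicit false

namespace Pool.Agent.U908.LC

open Pool.Agent.W666.GB Pool.Agent.W669.HD Pool.Agent.Y519.HB
open Pool.Agent.N565.LZ (SecForm gaussT)

section classes

variable {V : Type} [NormedAddCommGroup V] [InnerProductSpace ℝ V]

theorem CausalSum.hopf [FiniteDimensional ℝ V] {δ : ℝ} {R : V → V → V → V → ℝ}
    (h : CausalSum δ R) : HopfBlocks δ R := by
  obtain ⟨r, N, S, hS, hR⟩ := h
  refine ⟨1, fun _ => ⊤, fun _ => fun x y z w => ∑ i, S i x y z w, 0, fun k => k.elim0,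
    fun k => k.elim0, fun _ => 0, fun _ => 0, ⟨?_, ciSup_const⟩,
    fun _ => sum_curv fun i => (hS i).curv, ?_, ?_, fun k => k.elim0, fun k => k.elim0, ?_⟩
  · intro i j hij
    exact absurd (Subsingleton.elim i j) hij
  · intro _ x hx y z w
    rw [Submodule.top_orthogonal_eq_bot, Submodule.mem_bot] at hx
    rw [hx]
    have h1 := (sum_curv fun i => (hS i).curv).smul 0 0 y z w
    rwa [zero_smul, zero_mul] at h1
  · intro _ k E _ e
    exact causal_sum_sign e fun i => (hS i).restrict E
  · intro a b c d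
    rw [hR]
    simp

/-- **The pointwise bound.** -/
theorem causal_sum_bound {m : ℕ} (e : OrthonormalBasis (Fin m × Bool) ℝ V) {δ : ℝ} (hδ : 0 ≤ δ)
    {R : V → V → V → V → ℝ} (h : CausalSum δ R) : roundGB m δ ≤ (-1) ^ m * gbc e R := by
  have hfin : FiniteDimensional ℝ V := Module.Finite.of_basis e.toBasis
  exact cls_bound e hδ (Or.inl h.hopf)

/-- Integrated form. -/
theorem field_causal_sum {m : ℕ} {M : Type} [MeasurableSpace M] (μ : MeasureTheory.Measure M)
    (K : CurvField m M) (h : ∀ p, CausalSum 0 (K.R p)) :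
    0 ≤ (-1) ^ m * ∫ p, K.gb p ∂μ :=
  field_cls μ K fun p => by
    have hfin : FiniteDimensional ℝ (K.V p) := Module.Finite.of_basis (K.e p).toBasis
    exact Or.inl (h p).hopf

/-- Integrated form with a constant curvature part. -/
theorem field_causal_sumδ {m : ℕ} {M : Type} [MeasurableSpace M] (μ : MeasureTheory.Measure M)
    [MeasureTheory.IsFiniteMeasure μ] (K : CurvField m M) (hi : MeasureTheory.Integrable K.gb μ)
    {δ : ℝ} (hδ : 0 ≤ δ) (h : ∀ p, CausalSum δ (K.R p)) :
    roundGB m δ * μ.real Set.univ ≤ (-1) ^ m * ∫ p, K.gb p ∂μ :=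
  field_clsδ μ K hi hδ fun p => by
    have hfin : FiniteDimensional ℝ (K.V p) := Module.Finite.of_basis (K.e p).toBasis
    exact Or.inl (h p).hopf

/-- **Submanifolds of any codimension of spaces of constant curvature `-c`.** -/
theorem space_form_any {W : Type} [NormedAddCommGroup W] [InnerProductSpace ℝ W]
    [FiniteDimensional ℝ W] {β : V → V → W} (hs : SecForm β) {c δ : ℝ} (hc : δ ≤ c)
    (hβ : ∀ x, ‖β x x‖ ^ 2 ≤ (c - δ) * ‖x‖ ^ 4) : CausalSum δ (gaussT c β) := by
  set f := stdOrthonormalBasis ℝ W with hf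
  have hpar : ∀ u v : W, ∑ k, inner ℝ (f k) u * inner ℝ (f k) v = inner ℝ u v := by
    intro u v
    rw [← f.sum_inner_mul_inner u v]
    refine Finset.sum_congr rfl fun k _ => ?_
    rw [real_inner_comm u (f k)]
  refine ⟨1, fun _ => Module.finrank ℝ W, fun _ => gaussT (c - δ) β, fun _ => ?_, ?_⟩
  · refine ⟨fun x y => Real.sqrt (c - δ) * inner ℝ x y, fun k x y => inner ℝ (f k) (β x y),
      ⟨?_, ?_, ?_⟩, fun k => ⟨?_, ?_, ?_⟩, ?_, ?_⟩
    · intro x x' y; rw [inner_add_left]; ring
    · intro t x y; rw [inner_smul_left, conj_trivial]; ring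
    · intro x y; rw [real_inner_comm]
    · intro x x' y; beta_reduce; rw [hs.add, inner_add_right]
    · intro t x y; beta_reduce; rw [hs.smul, inner_smul_right]
    · intro x y; beta_reduce; rw [hs.symm]
    · intro x
      beta_reduce
      refine ⟨by rw [real_inner_self_eq_norm_sq]; positivity, ?_⟩
      have h1 : ∑ k, inner ℝ (f k) (β x x) ^ 2 = ‖β x x‖ ^ 2 := by
        rw [← real_inner_self_eq_norm_sq, ← hpar (β x x) (β x x)]
        exact Finset.sum_congr rfl fun k _ => sq _
      rw [h1, mul_pow, Real.sq_sqrt (by linarith), real_inner_self_eq_norm_sq, ← pow_mul]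
      exact hβ x
    · intro x y z w
      beta_reduce
      rw [Finset.sum_sub_distrib, hpar, hpar]
      unfold gaussT unitT
      have h2 : Real.sqrt (c - δ) * Real.sqrt (c - δ) = c - δ := Real.mul_self_sqrt (by linarith)
      linear_combination (inner ℝ x z * inner ℝ y w - inner ℝ x w * inner ℝ y z) * h2
  · intro a b c' d
    simp only [Finset.univ_unique, Finset.sum_singleton, gaussT]
    ring

/-- **Curvature operators of the second kind with at most one positive eigenvalue.** -/
theorem second_sum {ι : Type} [Fintype ι] {e : OrthonormalBasis ι ℝ V} {R : V → V → V → V → ℝ}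
    (hR : AlgCurv R) {δ : ℝ} (h : SecondNonpos e fun x y z w => R x y z w + δ * unitT x y z w) :
    CausalSum δ R := by
  obtain ⟨N, hN⟩ := second_causal (add_curv hR (unit_curv δ)) h
  exact ⟨1, fun _ => N, fun _ => _, fun _ => hN, fun x y z w => by simp [addT]⟩

/-- The admitted summands: tensors of causal type of any codimension, and curvature tensors whose
curvature operator of the second kind is nonpositive on some hyperplane of the space of symmetric
tensors. -/
def Summand (S : V → V → V → V → ℝ) : Prop :=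
  (∃ N, CausalT N S) ∨
    (AlgCurv S ∧ ∃ (n : ℕ) (e : OrthonormalBasis (Fin n) ℝ V), SecondNonpos e S)

/-- Sums of any number of admitted summands, minus `δ` times the tensor of constant curvature
one. -/
def SumClass (δ : ℝ) (R : V → V → V → V → ℝ) : Prop :=
  ∃ (r : ℕ) (S : Fin r → V → V → V → V → ℝ), (∀ i, Summand (S i)) ∧
    ∀ x y z w, R x y z w = (∑ i, S i x y z w) - δ * unitT x y z w

theorem Summand.causal {S : V → V → V → V → ℝ} (h : Summand S) : ∃ N, CausalT N S := by
  rcases h with h | ⟨h, n, e, he⟩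
  · exact h
  · exact second_causal h he

theorem SumClass.causal {δ : ℝ} {R : V → V → V → V → ℝ} (h : SumClass δ R) : CausalSum δ R := by
  obtain ⟨r, S, hS, hR⟩ := h
  choose N hN using fun i => (hS i).causal
  exact ⟨r, N, S, hN, hR⟩

theorem CausalSum.cls {δ : ℝ} {R : V → V → V → V → ℝ} (h : CausalSum δ R) : SumClass δ R := by
  obtain ⟨r, N, S, hS, hR⟩ := h
  exact ⟨r, S, fun i => Or.inl ⟨N i, hS i⟩, hR⟩

end classes

end Pool.Agent.U908.LC
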