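import Mathlib

/-!
# Roots of polynomials in one complex variable
-/

set_option autoImplicit false

namespace Pool.Agent.U908.LC

open Polynomial Filter Topology

/-- If all roots are at distance at least `r` from `a`, the values on the disc of radius `r` around
`a` are bounded by the value at `a`. -/
theorem eval_le_of_roots {n : ℕ} {p : ℂ[X]} (hn : p.natDegree ≤ n) {a b : ℂ} {r : ℝ}
    (hab : ‖b - a‖ ≤ r) (h : ∀ s : ℂ, p.eval s = 0 → r ≤ ‖s - a‖) :
    ‖p.eval b‖ ≤ 2 ^ n * ‖p.eval a‖ := by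
  have hs := IsAlgClosed.splits p
  by_cases hp : p = 0
  · simp [hp]
  have hroot : ∀ s ∈ p.roots, r ≤ ‖s - a‖ := fun s hs' => h s (mem_roots'.1 hs').2
  have key : ∀ m : Multiset ℂ, (∀ s ∈ m, r ≤ ‖s - a‖) →
      ‖(m.map fun s => b - s).prod‖ ≤ 2 ^ (Multiset.card m) * ‖(m.map fun s => a - s).prod‖ := by
    intro m
    induction m using Multiset.induction_on with
    | empty => simp
    | cons s m ih =>
      intro hm
      have h1 := ih fun t ht => hm t (Multiset.mem_cons_of_mem ht)
      have h2 := hm s (Multiset.mem_cons_self s m)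
      simp only [Multiset.map_cons, Multiset.prod_cons, norm_mul, Multiset.card_cons, pow_succ]
      have h3 : ‖b - s‖ ≤ 2 * ‖a - s‖ := by
        calc ‖b - s‖ = ‖(b - a) + (a - s)‖ := by ring_nf
          _ ≤ ‖b - a‖ + ‖a - s‖ := norm_add_le _ _
          _ ≤ ‖a - s‖ + ‖a - s‖ := by
            have : ‖a - s‖ = ‖s - a‖ := norm_sub_rev _ _
            linarith
          _ = 2 * ‖a - s‖ := by ring
      calc ‖b - s‖ * ‖(m.map fun s => b - s).prod‖ ≤
          (2 * ‖a - s‖) * (2 ^ (Multiset.card m) * ‖(m.map fun s => a - s).prod‖) :=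
            mul_le_mul h3 h1 (norm_nonneg _) (by positivity)
        _ = 2 ^ (Multiset.card m) * 2 * (‖a - s‖ * ‖(m.map fun s => a - s).prod‖) := by ring
  have h1 := key p.roots hroot
  rw [hs.eval_eq_prod_roots, hs.eval_eq_prod_roots, norm_mul, norm_mul]
  have h2 : Multiset.card p.roots ≤ n := (card_roots' p).trans hn
  have h3 : (2 : ℝ) ^ (Multiset.card p.roots) ≤ 2 ^ n := pow_le_pow_right₀ (by norm_num) h2
  calc ‖p.leadingCoeff‖ * ‖(p.roots.map fun s => b - s).prod‖ ≤
      ‖p.leadingCoeff‖ * (2 ^ (Multiset.card p.roots) * ‖(p.roots.map fun s => a - s).prod‖) :=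
        mul_le_mul_of_nonneg_left h1 (norm_nonneg _)
    _ ≤ ‖p.leadingCoeff‖ * (2 ^ n * ‖(p.roots.map fun s => a - s).prod‖) := by
        gcongr
    _ = 2 ^ n * (‖p.leadingCoeff‖ * ‖(p.roots.map fun s => a - s).prod‖) := by ring

/-- **Roots near a limit root.** -/
theorem exists_root_near {α : Type*} {l : Filter α} {n : ℕ} {p : α → ℂ[X]}
    (hn : ∀ t, (p t).natDegree ≤ n) {a b c : ℂ} {r : ℝ} (hab : ‖b - a‖ ≤ r) (hc : c ≠ 0)
    (h0 : Tendsto (fun t => (p t).eval a) l (𝓝 0)) (h1 : Tendsto (fun t => (p t).eval b) l (𝓝 c)) :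
    ∀ᶠ t in l, ∃ s : ℂ, (p t).eval s = 0 ∧ ‖s - a‖ < r := by
  have hc' : 0 < ‖c‖ := norm_pos_iff.2 hc
  have e1 : ∀ᶠ t in l, 2 ^ n * ‖(p t).eval a‖ < ‖c‖ / 2 := by
    have : Tendsto (fun t => 2 ^ n * ‖(p t).eval a‖) l (𝓝 (2 ^ n * ‖(0 : ℂ)‖)) :=
      (h0.norm).const_mul _
    rw [norm_zero, mul_zero] at this
    exact this.eventually_lt_const (by positivity)
  have e2 : ∀ᶠ t in l, ‖c‖ / 2 < ‖(p t).eval b‖ :=
    (h1.norm).eventually_const_lt (by linarith)
  filter_upwards [e1, e2] with t h3 h4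
  by_contra hcon
  push Not at hcon
  have := eval_le_of_roots (hn t) hab fun s hs => hcon s hs
  linarith

/-- the imaginary part of the logarithmic derivative -/
theorem im_logDeriv_nonpos {q : ℂ[X]} {w : ℂ} (hw : q.eval w ≠ 0)
    (h : ∀ s : ℂ, q.eval s = 0 → s.im ≤ w.im) : (q.derivative.eval w / q.eval w).im ≤ 0 := by
  rw [(IsAlgClosed.splits q).eval_derivative_div_eval_of_ne_zero hw]
  have key : ∀ m : Multiset ℂ, (∀ s ∈ m, s.im ≤ w.im) →
      ((m.map fun s => 1 / (w - s)).sum).im ≤ 0 := by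
    intro m
    induction m using Multiset.induction_on with
    | empty => simp
    | cons s m ih =>
      intro hm
      have h1 := ih fun t ht => hm t (Multiset.mem_cons_of_mem ht)
      have h2 := hm s (Multiset.mem_cons_self s m)
      simp only [Multiset.map_cons, Multiset.sum_cons, Complex.add_im]
      have h3 : (1 / (w - s)).im ≤ 0 := by
        rw [one_div, Complex.inv_im, Complex.sub_im]
        have : 0 ≤ Complex.normSq (w - s) := Complex.normSq_nonneg _
        exact div_nonpos_of_nonpos_of_nonneg (by linarith) this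
      linarith
  exact key q.roots fun s hs => h s (mem_roots'.1 hs).2

/-- Gauss–Lucas for `q + q'`. -/
theorem eval_add_derivative_ne_zero {q : ℂ[X]} {w : ℂ} (hw : q.eval w ≠ 0)
    (h : ∀ s : ℂ, q.eval s = 0 → s.im < w.im) : q.eval w + q.derivative.eval w ≠ 0 := by
  have hq := (IsAlgClosed.splits q).eval_derivative_div_eval_of_ne_zero hw
  intro hcon
  have h1 : q.derivative.eval w / q.eval w = -1 := by
    rw [div_eq_iff hw]
    linear_combination hcon
  rw [h1] at hq
  have key : ∀ m : Multiset ℂ, (∀ s ∈ m, s.im < w.im) → m ≠ 0 →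
      ((m.map fun s => 1 / (w - s)).sum).im < 0 := by
    intro m
    induction m using Multiset.induction_on with
    | empty => intro _ h; exact absurd rfl h
    | cons s m ih =>
      intro hm _
      have h2 := hm s (Multiset.mem_cons_self s m)
      simp only [Multiset.map_cons, Multiset.sum_cons, Complex.add_im]
      have h4 : w - s ≠ 0 := by
        intro h5
        have := congrArg Complex.im h5
        rw [Complex.sub_im, Complex.zero_im] at this
        linarith
      have h3 : (1 / (w - s)).im < 0 := by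
        rw [one_div, Complex.inv_im, Complex.sub_im]
        have : 0 < Complex.normSq (w - s) := Complex.normSq_pos.2 h4
        exact div_neg_of_neg_of_pos (by linarith) this
      by_cases hm0 : m = 0
      · subst hm0
        simpa using h3
      · have h1 := ih (fun t ht => hm t (Multiset.mem_cons_of_mem ht)) hm0
        linarith
  by_cases h0 : q.roots = 0
  · rw [h0] at hq
    simp at hq
  · have := key q.roots (fun s hs => h s (mem_roots'.1 hs).2) h0
    rw [← hq] at this
    simp at this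

/-- a simple root `0` with all other roots in the lower half-plane -/
theorem im_second_nonpos {p : ℂ[X]} (h0 : p.eval 0 = 0) (h1 : p.derivative.eval 0 ≠ 0)
    (h : ∀ s : ℂ, p.eval s = 0 → s.im ≤ 0) :
    (p.derivative.derivative.eval 0 / p.derivative.eval 0).im ≤ 0 := by
  obtain ⟨q, hq⟩ : X ∣ p := by
    rw [X_dvd_iff, coeff_zero_eq_eval_zero]
    exact h0
  have d1 : p.derivative.eval 0 = q.eval 0 := by
    rw [hq]
    simp
  have d2 : p.derivative.derivative.eval 0 = 2 * q.derivative.eval 0 := by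
    rw [hq]
    simp
    ring
  rw [d1] at h1
  have h2 := im_logDeriv_nonpos (q := q) (w := 0) h1 (fun s hs => by
    have : p.eval s = 0 := by rw [hq, eval_mul, hs, mul_zero]
    simpa using h s this)
  rw [d1, d2, mul_div_assoc]
  simp only [Complex.mul_im, Complex.re_ofNat, Complex.im_ofNat, zero_mul, add_zero]
  linarith

/-- first order behaviour at a zero -/
theorem tendsto_div_self {R : ℂ[X]} (h0 : R.coeff 0 = 0) :
    Tendsto (fun ε : ℝ => R.eval (ε : ℂ) / (ε : ℂ)) (𝓝[>] 0) (𝓝 (R.coeff 1)) := by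
  obtain ⟨S, hS⟩ : X ∣ R := X_dvd_iff.2 h0
  have h1 : R.coeff 1 = S.eval 0 := by
    rw [hS, ← coeff_zero_eq_eval_zero]
    simp
  rw [h1]
  have h2 : Tendsto (fun ε : ℝ => S.eval (ε : ℂ)) (𝓝[>] 0) (𝓝 (S.eval 0)) := by
    have : Continuous fun ε : ℝ => S.eval (ε : ℂ) := S.continuous.comp Complex.continuous_ofReal
    have h3 := this.tendsto 0
    rw [Complex.ofReal_zero] at h3
    exact h3.mono_left nhdsWithin_le_nhds
  refine h2.congr' ?_
  filter_upwards [self_mem_nhdsWithin] with ε hε
  have : (ε : ℂ) ≠ 0 := by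
    have : (0 : ℝ) < ε := hε
    exact_mod_cast this.ne'
  rw [hS, eval_mul, eval_X]
  field_simp

/-- second order behaviour at a double zero -/
theorem tendsto_div_sq {R : ℂ[X]} (h0 : R.coeff 0 = 0) (h1 : R.coeff 1 = 0) :
    Tendsto (fun ε : ℝ => R.eval (ε : ℂ) / (ε : ℂ) ^ 2) (𝓝[>] 0) (𝓝 (R.coeff 2)) := by
  obtain ⟨S, hS⟩ : X ∣ R := X_dvd_iff.2 h0
  have h2 : S.coeff 0 = 0 := by
    rw [hS] at h1
    simpa using h1
  have h3 : R.coeff 2 = S.coeff 1 := by
    rw [hS]
    simp
  rw [h3]
  refine (tendsto_div_self h2).congr' ?_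
  filter_upwards [self_mem_nhdsWithin] with ε hε
  have : (ε : ℂ) ≠ 0 := by
    have : (0 : ℝ) < ε := hε
    exact_mod_cast this.ne'
  rw [hS, eval_mul, eval_X]
  field_simp

end Pool.Agent.U908.LC
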