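import Pool.Agent.U908.LC.Lap
import Pool.Agent.U908.LC.Roots

/-!
# The flow `exp (- τ L)` of an operator `L = ∑ c_s ∂_s²` on polynomials
-/

set_option autoImplicit false

namespace Pool.Agent.U908.LC

open MvPolynomial

section

variable {σ : Type*} [Fintype σ]

/-- the flow (truncated exponential series) -/
noncomputable def flow (J : ℕ) (c : σ → ℂ) (τ : ℂ) : MvPolynomial σ ℂ →ₗ[ℂ] MvPolynomial σ ℂ :=
  ∑ j ∈ Finset.range J, ((-τ) ^ j / (j.factorial : ℂ)) •
    ((lap c : Module.End ℂ (MvPolynomial σ ℂ)) ^ j)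

theorem flow_apply (J : ℕ) (c : σ → ℂ) (τ : ℂ) (f : MvPolynomial σ ℂ) :
    flow J c τ f = ∑ j ∈ Finset.range J, ((-τ) ^ j / (j.factorial : ℂ)) •
      ((lap c : Module.End ℂ (MvPolynomial σ ℂ)) ^ j) f := by
  simp [flow, LinearMap.sum_apply]

theorem flow_pderiv (J : ℕ) (c : σ → ℂ) (τ : ℂ) (t : σ) (f : MvPolynomial σ ℂ) :
    flow J c τ (pderiv t f) = pderiv t (flow J c τ f) := by
  rw [flow_apply, flow_apply, map_sum]
  refine Finset.sum_congr rfl fun j _ => ?_
  rw [lap_pow_pderiv, Derivation.map_smul]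

theorem flow_zero {J : ℕ} (hJ : 0 < J) (c : σ → ℂ) (f : MvPolynomial σ ℂ) : flow J c 0 f = f := by
  rw [flow_apply, Finset.sum_eq_single 0]
  · simp
  · intro j _ hj
    rw [neg_zero, zero_pow hj, zero_div, zero_smul]
  · intro h
    exact absurd (Finset.mem_range.2 hJ) h

theorem flow_aeval {σ' : Type*} [Fintype σ'] [DecidableEq σ] (J : ℕ) (c : σ → ℂ) (c' : σ' → ℂ)
    (g : σ → MvPolynomial σ' ℂ) (A : σ → σ' → ℂ) (κ : ℂ)
    (hg : ∀ s t, pderiv t (g s) = C (A s t))
    (hA : ∀ s s', ∑ t, c' t * (A s t * A s' t) = if s = s' then κ * c s else 0) (τ : ℂ)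
    (f : MvPolynomial σ ℂ) : flow J c' τ (aeval g f) = aeval g (flow J c (κ * τ) f) := by
  rw [flow_apply, flow_apply, map_sum]
  refine Finset.sum_congr rfl fun j _ => ?_
  rw [lap_pow_aeval c c' g A κ hg hA, smul_smul, map_smul]
  congr 1
  rw [neg_mul_eq_mul_neg, mul_pow]
  ring

theorem totalDegree_flow_le (J : ℕ) (c : σ → ℂ) (τ : ℂ) (f : MvPolynomial σ ℂ) (d : ℕ)
    (h : f.totalDegree ≤ d) : (flow J c τ f).totalDegree ≤ d := by
  rw [flow_apply]
  refine (totalDegree_finsetSum _ _).trans (Finset.sup_le fun j _ => ?_)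
  refine (totalDegree_smul_le _ _).trans ?_
  exact totalDegree_lap_pow_le c f d h j

theorem lap_flow (J : ℕ) (c : σ → ℂ) (τ : ℂ) (f : MvPolynomial σ ℂ) :
    lap c (flow J c τ f) = ∑ j ∈ Finset.range J, ((-τ) ^ j / (j.factorial : ℂ)) •
      ((lap c : Module.End ℂ (MvPolynomial σ ℂ)) ^ (j + 1)) f := by
  rw [flow_apply, map_sum]
  refine Finset.sum_congr rfl fun j _ => ?_
  rw [map_smul, pow_succ', Module.End.mul_apply]

theorem totalDegree_lap_pow (c : σ → ℂ) (f : MvPolynomial σ ℂ) (d : ℕ) (h : f.totalDegree ≤ d)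
    (j : ℕ) (hj : j ≤ d) :
    (((lap c : Module.End ℂ (MvPolynomial σ ℂ)) ^ j) f).totalDegree ≤ d - j := by
  induction j with
  | zero => simpa using h
  | succ j ih =>
    rw [pow_succ', Module.End.mul_apply]
    refine totalDegree_lap c _ _ ((ih (by omega)).trans ?_)
    omega

theorem lap_pow_lap_pow_eq_zero (c c' : σ → ℂ) (f : MvPolynomial σ ℂ) (d : ℕ)
    (h : f.totalDegree ≤ d) (j k : ℕ) (hjk : d < j + k) :
    ((lap c : Module.End ℂ (MvPolynomial σ ℂ)) ^ j)
      (((lap c' : Module.End ℂ (MvPolynomial σ ℂ)) ^ k) f) = 0 := by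
  by_cases hk : k ≤ d
  · exact lap_pow_eq_zero c (d - k) _ (totalDegree_lap_pow c' f d h k hk) j (by omega)
  · rw [lap_pow_eq_zero c' d f h k (by omega), map_zero]

/-- the flow of a sum of two operators -/
theorem flow_add (J : ℕ) (c c' : σ → ℂ) (τ : ℂ) (f : MvPolynomial σ ℂ) (d : ℕ)
    (h : f.totalDegree ≤ d) (hJ : d < J) :
    flow J (fun s => c s + c' s) τ f = flow J c τ (flow J c' τ f) := by
  have h1 : ∀ n, ((lap (fun s => c s + c' s) : Module.End ℂ (MvPolynomial σ ℂ)) ^ n) f =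
      ∑ x ∈ Finset.HasAntidiagonal.antidiagonal n, ((n.choose x.1 : ℕ) : ℂ) •
        ((lap c : Module.End ℂ (MvPolynomial σ ℂ)) ^ x.1)
          (((lap c' : Module.End ℂ (MvPolynomial σ ℂ)) ^ x.2) f) := by
    intro n
    rw [lap_add, (lap_commute c c').add_pow', LinearMap.sum_apply]
    refine Finset.sum_congr rfl fun x _ => ?_
    rw [LinearMap.smul_apply, Module.End.mul_apply, Nat.cast_smul_eq_nsmul]
  have h2 : flow J (fun s => c s + c' s) τ f =
      ∑ x ∈ (Finset.range J ×ˢ Finset.range J).filter (fun x => x.1 + x.2 < J),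
        ((-τ) ^ x.1 / (x.1.factorial : ℂ) * ((-τ) ^ x.2 / (x.2.factorial : ℂ))) •
        ((lap c : Module.End ℂ (MvPolynomial σ ℂ)) ^ x.1)
          (((lap c' : Module.End ℂ (MvPolynomial σ ℂ)) ^ x.2) f) := by
    rw [flow_apply]
    simp only [h1, Finset.smul_sum]
    rw [Finset.sum_sigma']
    refine Finset.sum_nbij' (fun y => y.2) (fun x => ⟨x.1 + x.2, x⟩) ?_ ?_ ?_ ?_ ?_
    · rintro ⟨n, x⟩ hx
      simp only [Finset.mem_sigma, Finset.mem_range, Finset.HasAntidiagonal.mem_antidiagonal,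
        Finset.mem_filter, Finset.mem_product] at hx ⊢
      omega
    · rintro x hx
      simp only [Finset.mem_sigma, Finset.mem_range, Finset.HasAntidiagonal.mem_antidiagonal,
        Finset.mem_filter, Finset.mem_product] at hx ⊢
      exact ⟨hx.2, trivial⟩
    · rintro ⟨n, x⟩ hx
      simp only [Finset.mem_sigma, Finset.mem_range, Finset.HasAntidiagonal.mem_antidiagonal] at hx
      obtain ⟨_, rfl⟩ := hx
      rfl
    · rintro x _
      rfl
    · rintro ⟨n, x⟩ hx
      simp only [Finset.mem_sigma, Finset.mem_range, Finset.HasAntidiagonal.mem_antidiagonal] at hx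
      obtain ⟨_, rfl⟩ := hx
      rw [smul_smul]
      congr 1
      have e1 : ((x.1 + x.2).factorial : ℂ) ≠ 0 := by exact_mod_cast (Nat.factorial_pos _).ne'
      have e2 : (x.1.factorial : ℂ) ≠ 0 := by exact_mod_cast (Nat.factorial_pos _).ne'
      have e3 : (x.2.factorial : ℂ) ≠ 0 := by exact_mod_cast (Nat.factorial_pos _).ne'
      have e4 : (((x.1 + x.2).choose x.1 : ℕ) : ℂ) * (x.1.factorial * x.2.factorial) =
          ((x.1 + x.2).factorial : ℂ) := by
        have := Nat.add_choose_mul_factorial_mul_factorial x.2 x.1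
        rw [add_comm x.1 x.2, ← this]
        push_cast
        ring
      rw [pow_add, div_mul_eq_mul_div, div_mul_div_comm, div_eq_div_iff e1 (mul_ne_zero e2 e3)]
      linear_combination ((-τ) ^ x.1 * (-τ) ^ x.2) * e4
  have h3 : flow J c τ (flow J c' τ f) = ∑ x ∈ Finset.range J ×ˢ Finset.range J,
        ((-τ) ^ x.1 / (x.1.factorial : ℂ) * ((-τ) ^ x.2 / (x.2.factorial : ℂ))) •
        ((lap c : Module.End ℂ (MvPolynomial σ ℂ)) ^ x.1)
          (((lap c' : Module.End ℂ (MvPolynomial σ ℂ)) ^ x.2) f) := by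
    rw [flow_apply J c τ, Finset.sum_product]
    refine Finset.sum_congr rfl fun j _ => ?_
    rw [flow_apply, map_sum, Finset.smul_sum]
    refine Finset.sum_congr rfl fun k _ => ?_
    rw [map_smul, smul_smul]
  rw [h2, h3]
  refine Finset.sum_subset (Finset.filter_subset _ _) fun x hx hx' => ?_
  rw [Finset.mem_filter, not_and, not_lt] at hx'
  rw [lap_pow_lap_pow_eq_zero c c' f d h _ _ (lt_of_lt_of_le hJ (hx' hx)), smul_zero]

end

end Pool.Agent.U908.LC
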