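import Mathlib

/-!
# Constant coefficient operators of order two on polynomials
-/

set_option autoImplicit false

namespace Pool.Agent.U908.LC

open MvPolynomial

section general

variable {σ : Type*} [Fintype σ] {R : Type*} [CommRing R]

/-- chain rule for a derivation of an algebra and an algebra homomorphism from a polynomial ring -/
theorem derivation_aeval {A : Type*} [CommRing A] [Algebra R A] (D : Derivation R A A)
    (g : σ → A) (f : MvPolynomial σ R) :
    D (aeval g f) = ∑ s, D (g s) * aeval g (pderiv s f) := by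
  classical
  induction f using MvPolynomial.induction_on with
  | C a => simp
  | add p q hp hq => simp only [map_add, hp, hq, mul_add, Finset.sum_add_distrib]
  | mul_X p t hp =>
    simp only [map_mul, aeval_X, Derivation.leibniz, smul_eq_mul, hp, pderiv_X, map_add]
    simp only [mul_add, Finset.sum_add_distrib]
    congr 1
    · rw [Finset.sum_eq_single t]
      · simp
        ring
      · intro b _ hb
        rw [Pi.single_eq_of_ne' hb]
        simp
      · intro h
        exact absurd (Finset.mem_univ _) h
    · rw [Finset.mul_sum]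
      exact Finset.sum_congr rfl fun s _ => by ring

/-- the operator `∑ c_s ∂_s²` -/
noncomputable def lap (c : σ → R) : MvPolynomial σ R →ₗ[R] MvPolynomial σ R :=
  ∑ s, c s • ((pderiv s : Derivation R _ _).toLinearMap ∘ₗ (pderiv s : Derivation R _ _).toLinearMap)

theorem lap_apply (c : σ → R) (f : MvPolynomial σ R) :
    lap c f = ∑ s, c s • pderiv s (pderiv s f) := by
  simp [lap]

theorem lap_add (c c' : σ → R) : lap (fun s => c s + c' s) = lap c + lap c' := by
  refine LinearMap.ext fun f => ?_
  simp only [LinearMap.add_apply, lap_apply, add_smul, Finset.sum_add_distrib]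

omit [Fintype σ] in
theorem pderiv_comm (s t : σ) (f : MvPolynomial σ R) :
    pderiv s (pderiv t f) = pderiv t (pderiv s f) := by
  classical
  have h : ⁅(pderiv s : Derivation R (MvPolynomial σ R) (MvPolynomial σ R)),
      (pderiv t : Derivation R (MvPolynomial σ R) (MvPolynomial σ R))⁆ = 0 := by
    refine derivation_ext fun i => ?_
    rw [Derivation.commutator_apply, pderiv_X, pderiv_X, Derivation.zero_apply]
    by_cases h1 : i = t
    · subst h1
      by_cases h2 : i = s
      · subst h2; simp
      · simp [h2]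
    · by_cases h2 : i = s
      · subst h2; simp [h1]
      · simp [h1, h2]
  have h1 := congrArg (fun D : Derivation R (MvPolynomial σ R) (MvPolynomial σ R) => D f) h
  simp only [Derivation.commutator_apply, Derivation.zero_apply] at h1
  exact sub_eq_zero.1 h1

theorem lap_pderiv (c : σ → R) (t : σ) (f : MvPolynomial σ R) :
    lap c (pderiv t f) = pderiv t (lap c f) := by
  rw [lap_apply, lap_apply, map_sum]
  refine Finset.sum_congr rfl fun s _ => ?_
  rw [Derivation.map_smul, pderiv_comm s t f, pderiv_comm s t (pderiv s f)]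

theorem lap_lap (c c' : σ → R) (f : MvPolynomial σ R) :
    lap c (lap c' f) = lap c' (lap c f) := by
  rw [lap_apply c' f, map_sum, lap_apply c' (lap c f)]
  refine Finset.sum_congr rfl fun s _ => ?_
  rw [map_smul, lap_pderiv, lap_pderiv]

theorem lap_commute (c c' : σ → R) : Commute (lap c : Module.End R (MvPolynomial σ R)) (lap c') := by
  refine LinearMap.ext fun f => ?_
  exact lap_lap c c' f

theorem lap_pow_pderiv (c : σ → R) (t : σ) (j : ℕ) (f : MvPolynomial σ R) :
    ((lap c : Module.End R (MvPolynomial σ R)) ^ j) (pderiv t f) =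
      pderiv t (((lap c : Module.End R (MvPolynomial σ R)) ^ j) f) := by
  induction j with
  | zero => simp
  | succ j ih => rw [pow_succ', Module.End.mul_apply, Module.End.mul_apply, ih, lap_pderiv]

omit [Fintype σ] in
/-- degrees -/
theorem totalDegree_le_iff (f : MvPolynomial σ R) (d : ℕ) :
    f.totalDegree ≤ d ↔ ∀ m : σ →₀ ℕ, d < (m.sum fun _ e => e) → coeff m f = 0 := by
  rw [totalDegree, Finset.sup_le_iff]
  constructor
  · intro h m hm
    by_contra hcon
    exact absurd (h m (mem_support_iff.2 hcon)) (not_le.2 hm)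
  · intro h m hm
    by_contra hcon
    exact (mem_support_iff.1 hm) (h m (not_le.1 hcon))

omit [Fintype σ] in
theorem totalDegree_pderiv (f : MvPolynomial σ R) (d : ℕ) (h : f.totalDegree ≤ d + 1) (t : σ) :
    (pderiv t f).totalDegree ≤ d := by
  rw [totalDegree_le_iff] at h ⊢
  intro m hm
  rw [coeff_pderiv, h, zero_mul]
  rw [Finsupp.sum_add_index' (fun _ => rfl) (fun _ _ _ => rfl), Finsupp.sum_single_index rfl]
  omega

omit [Fintype σ] in
theorem totalDegree_pderiv_le (f : MvPolynomial σ R) (d : ℕ) (h : f.totalDegree ≤ d) (t : σ) :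
    (pderiv t f).totalDegree ≤ d :=
  totalDegree_pderiv f d (h.trans (Nat.le_succ _)) t

theorem totalDegree_lap_le (c : σ → R) (f : MvPolynomial σ R) (d : ℕ) (h : f.totalDegree ≤ d) :
    (lap c f).totalDegree ≤ d := by
  rw [lap_apply]
  refine (totalDegree_finsetSum _ _).trans (Finset.sup_le fun s _ => ?_)
  refine (totalDegree_smul_le _ _).trans ?_
  exact totalDegree_pderiv_le _ _ (totalDegree_pderiv_le _ _ h s) s

theorem totalDegree_lap (c : σ → R) (f : MvPolynomial σ R) (d : ℕ) (h : f.totalDegree ≤ d + 1) :
    (lap c f).totalDegree ≤ d := by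
  rw [lap_apply]
  refine (totalDegree_finsetSum _ _).trans (Finset.sup_le fun s _ => ?_)
  refine (totalDegree_smul_le _ _).trans ?_
  exact totalDegree_pderiv_le _ _ (totalDegree_pderiv _ _ h s) s

theorem lap_of_totalDegree_zero (c : σ → R) (f : MvPolynomial σ R) (h : f.totalDegree ≤ 0) :
    lap c f = 0 := by
  rw [Nat.le_zero] at h
  rw [totalDegree_eq_zero_iff_eq_C.1 h, lap_apply]
  simp

theorem lap_pow_eq_zero (c : σ → R) (d : ℕ) : ∀ f : MvPolynomial σ R, f.totalDegree ≤ d →
    ∀ j, d < j → ((lap c : Module.End R (MvPolynomial σ R)) ^ j) f = 0 := by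
  induction d with
  | zero =>
    intro f hf j hj
    obtain ⟨k, rfl⟩ : ∃ k, j = k + 1 := ⟨j - 1, by omega⟩
    rw [pow_succ, Module.End.mul_apply, lap_of_totalDegree_zero c f hf, map_zero]
  | succ d ih =>
    intro f hf j hj
    obtain ⟨k, rfl⟩ : ∃ k, j = k + 1 := ⟨j - 1, by omega⟩
    rw [pow_succ, Module.End.mul_apply]
    exact ih _ (totalDegree_lap c f d hf) k (by omega)

theorem totalDegree_lap_pow_le (c : σ → R) (f : MvPolynomial σ R) (d : ℕ) (h : f.totalDegree ≤ d)
    (j : ℕ) : (((lap c : Module.End R (MvPolynomial σ R)) ^ j) f).totalDegree ≤ d := by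
  induction j with
  | zero => simpa using h
  | succ j ih =>
    rw [pow_succ', Module.End.mul_apply]
    exact totalDegree_lap_le c _ _ ih

/-- **Covariance** under affine substitutions. -/
theorem lap_aeval {σ' : Type*} [Fintype σ'] [DecidableEq σ] (c : σ → R) (c' : σ' → R)
    (g : σ → MvPolynomial σ' R) (A : σ → σ' → R) (κ : R)
    (hg : ∀ s t, pderiv t (g s) = C (A s t))
    (hA : ∀ s s', ∑ t, c' t * (A s t * A s' t) = if s = s' then κ * c s else 0)
    (f : MvPolynomial σ R) : lap c' (aeval g f) = κ • aeval g (lap c f) := by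
  have h1 : ∀ (t : σ') (f : MvPolynomial σ R),
      pderiv t (aeval g f) = ∑ s, A s t • aeval g (pderiv s f) := by
    intro t f
    rw [derivation_aeval]
    refine Finset.sum_congr rfl fun s _ => ?_
    rw [hg, ← smul_eq_C_mul]
  rw [lap_apply, lap_apply]
  have h2 : ∀ t : σ', c' t • pderiv t (pderiv t (aeval g f)) =
      ∑ s, ∑ s', (c' t * (A s t * A s' t)) • aeval g (pderiv s' (pderiv s f)) := by
    intro t
    rw [h1, map_sum, Finset.smul_sum]
    refine Finset.sum_congr rfl fun s _ => ?_
    rw [Derivation.map_smul, h1, Finset.smul_sum, Finset.smul_sum]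
    refine Finset.sum_congr rfl fun s' _ => ?_
    rw [smul_smul, smul_smul]
    congr 1
    ring
  simp only [h2]
  rw [Finset.sum_comm]
  have h3 : ∀ s : σ, ∑ t, ∑ s', (c' t * (A s t * A s' t)) • aeval g (pderiv s' (pderiv s f)) =
      (κ * c s) • aeval g (pderiv s (pderiv s f)) := by
    intro s
    rw [Finset.sum_comm]
    simp only [← Finset.sum_smul, hA]
    rw [Finset.sum_eq_single s]
    · rw [if_pos rfl]
    · intro s' _ hs'
      rw [if_neg (Ne.symm hs'), zero_smul]
    · intro h
      exact absurd (Finset.mem_univ _) h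
  simp only [h3, map_sum, Finset.smul_sum, map_smul, smul_smul]

theorem lap_pow_aeval {σ' : Type*} [Fintype σ'] [DecidableEq σ] (c : σ → R) (c' : σ' → R)
    (g : σ → MvPolynomial σ' R) (A : σ → σ' → R) (κ : R)
    (hg : ∀ s t, pderiv t (g s) = C (A s t))
    (hA : ∀ s s', ∑ t, c' t * (A s t * A s' t) = if s = s' then κ * c s else 0) (j : ℕ)
    (f : MvPolynomial σ R) : ((lap c' : Module.End R (MvPolynomial σ' R)) ^ j) (aeval g f) =
      κ ^ j • aeval g (((lap c : Module.End R (MvPolynomial σ R)) ^ j) f) := by
  induction j with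
  | zero => simp
  | succ j ih =>
    rw [pow_succ' (lap c'), pow_succ' (lap c), Module.End.mul_apply, ih, map_smul,
      lap_aeval c c' g A κ hg hA, smul_smul, Module.End.mul_apply, pow_succ]

end general

section map

variable {σ : Type*} [Fintype σ] {R S : Type*} [CommRing R] [CommRing S]

theorem lap_map (φ : R →+* S) (c : σ → R) (f : MvPolynomial σ R) :
    lap (fun s => φ (c s)) (map φ f) = map φ (lap c f) := by
  rw [lap_apply, lap_apply, map_sum]
  refine Finset.sum_congr rfl fun s _ => ?_
  rw [smul_eq_C_mul, smul_eq_C_mul, map_mul, map_C, pderiv_map, pderiv_map]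

theorem lap_pow_map (φ : R →+* S) (c : σ → R) (j : ℕ) (f : MvPolynomial σ R) :
    ((lap (fun s => φ (c s)) : Module.End S (MvPolynomial σ S)) ^ j) (map φ f) =
      map φ (((lap c : Module.End R (MvPolynomial σ R)) ^ j) f) := by
  induction j with
  | zero => simp
  | succ j ih => rw [pow_succ', Module.End.mul_apply, ih, lap_map, pow_succ', Module.End.mul_apply]

end map

end Pool.Agent.U908.LC
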