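import Pool.Agent.U908.LC.Cone

/-!
# The wave flow preserves polynomials without zeros in the tube over the light cone
-/

set_option autoImplicit false

namespace Pool.Agent.U908.LC

open MvPolynomial Filter Topology

section

variable {K : Type*} [Fintype K]

/-- the affine substitution `w ↦ x + ρ L w`, `L` the Lorentz reflection which maps the time vector
to `n` -/
noncomputable def aff [DecidableEq K] (x : Option K → ℝ) (ρ : ℝ) (n : Option K → ℝ)
    (s : Option K) : MvPolynomial (Option K) ℂ :=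
  C (x s : ℂ) + ∑ t, C ((ρ * rmat n s t : ℝ) : ℂ) * X t

theorem pderiv_aff [DecidableEq K] (x : Option K → ℝ) (ρ : ℝ) (n : Option K → ℝ)
    (s t : Option K) : pderiv t (aff x ρ n s) = C ((ρ * rmat n s t : ℝ) : ℂ) := by
  unfold aff
  rw [map_add, pderiv_C, zero_add, map_sum, Finset.sum_eq_single t]
  · rw [pderiv_C_mul, pderiv_X_self, mul_one]
  · intro b _ hb
    rw [pderiv_C_mul, pderiv_X_of_ne hb, mul_zero]
  · intro h
    exact absurd (Finset.mem_univ _) h

theorem totalDegree_aff [DecidableEq K] (x : Option K → ℝ) (ρ : ℝ) (n : Option K → ℝ)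
    (s : Option K) : (aff x ρ n s).totalDegree ≤ 1 := by
  unfold aff
  refine (totalDegree_add _ _).trans (max_le ?_ ?_)
  · rw [totalDegree_C]
    exact Nat.zero_le _
  · refine (totalDegree_finsetSum _ _).trans (Finset.sup_le fun t _ => ?_)
    refine (totalDegree_mul _ _).trans ?_
    rw [totalDegree_C, totalDegree_X]

theorem eval_aff [DecidableEq K] (x : Option K → ℝ) (ρ : ℝ) (n : Option K → ℝ)
    (z : Option K → ℂ) (s : Option K) : eval z (aff x ρ n s) =
      (x s : ℂ) + ∑ t, ((ρ * rmat n s t : ℝ) : ℂ) * z t := by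
  simp [aff]

/-- the substituted polynomial -/
theorem stab_aff [DecidableEq K] {f : MvPolynomial (Option K) ℂ} (hf : Stab f)
    (x : Option K → ℝ) {ρ : ℝ} (hρ : 0 < ρ) {n : Option K → ℝ} (hn : qf n = 1) (hn' : Fut n) :
    Stab (aeval (aff x ρ n) f) := by
  intro z hz
  rw [eval_aeval]
  refine hf _ ?_
  have h1 : (fun o => (eval z (aff x ρ n o)).im) = fun o => ρ * refl n (fun t => (z t).im) o := by
    funext o
    rw [eval_aff, Complex.add_im, Complex.ofReal_im, zero_add, Complex.im_sum, refl_eq,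
      Finset.mul_sum]
    refine Finset.sum_congr rfl fun t _ => ?_
    rw [Complex.im_ofReal_mul, mul_assoc]
  rw [h1]
  obtain ⟨h2, h3⟩ := fut_refl hn hn' hz
  refine ⟨mul_pos hρ h2, ?_⟩
  simp only [mul_pow, ← Finset.mul_sum]
  exact mul_lt_mul_of_pos_left h3 (by positivity)

omit [Fintype K] in
theorem eta_eq (o : Option K) : (eta : Option K → ℂ) o = ((er o : ℝ) : ℂ) := by
  cases o <;> simp [er]

theorem flow_aff [DecidableEq K] (J : ℕ) (f : MvPolynomial (Option K) ℂ)
    (x : Option K → ℝ) (ρ : ℝ) {n : Option K → ℝ} (hn : qf n = 1) (τ : ℂ) :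
    flow J eta τ (aeval (aff x ρ n) f) =
      aeval (aff x ρ n) (flow J eta ((ρ : ℂ) ^ 2 * τ) f) := by
  refine flow_aeval J eta eta (aff x ρ n) (fun s t => ((ρ * rmat n s t : ℝ) : ℂ)) ((ρ : ℂ) ^ 2)
    (fun s t => pderiv_aff x ρ n s t) (fun s s' => ?_) τ f
  have h := rmat_mul hn s s'
  have h1 : ∑ t, (eta : Option K → ℂ) t * (((ρ * rmat n s t : ℝ) : ℂ) *
      ((ρ * rmat n s' t : ℝ) : ℂ)) =
      (ρ : ℂ) ^ 2 * ((∑ t, er t * (rmat n s t * rmat n s' t) : ℝ) : ℂ) := by
    rw [Complex.ofReal_sum, Finset.mul_sum]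
    refine Finset.sum_congr rfl fun t _ => ?_
    rw [eta_eq]
    push_cast
    ring
  rw [h1, h]
  split_ifs
  · rw [eta_eq]
  · simp

/-- the coordinates -/
theorem exists_coord (d : ℕ) (K : Type*) [Fintype K] :
    ∃ (n : ℕ) (B : Fin n → MvPolynomial (Option K) ℂ), (∀ i, (B i).totalDegree ≤ d) ∧
      LinearIndependent ℂ B ∧
      ∀ f : MvPolynomial (Option K) ℂ, f.totalDegree ≤ d → ∃ c : Fin n → ℂ, f = ∑ i, c i • B i := by
  set W := restrictTotalDegree (Option K) ℂ d with hW
  set b := Module.finBasis ℂ W with hb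
  refine ⟨Module.finrank ℂ W, fun i => (b i : MvPolynomial (Option K) ℂ), fun i => ?_, ?_, ?_⟩
  · exact (mem_restrictTotalDegree _ _ _).1 (b i).2
  · exact b.linearIndependent.map' W.subtype (Submodule.ker_subtype W)
  · intro f hf
    have hfW : f ∈ W := (mem_restrictTotalDegree _ _ _).2 hf
    refine ⟨b.repr ⟨f, hfW⟩, ?_⟩
    have h := congrArg (fun x : W => (x : MvPolynomial (Option K) ℂ)) (b.sum_repr ⟨f, hfW⟩)
    simp only [Submodule.coe_sum, Submodule.coe_smul] at h
    exact h.symm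

/-- **No zero at the base point.** -/
theorem flow_base_ne_zero {d J : ℕ} (hJ : d ≤ J) {f : MvPolynomial (Option K) ℂ} (hf : Stab f)
    (hd : f.totalDegree ≤ d) {τ : ℝ} (hτ : 0 < τ) :
    eval ze (flow (J + 1) eta (τ : ℂ) f) ≠ 0 := by
  classical
  intro hzero
  set T : Set ℝ := {t | 0 < t ∧ ∃ g : MvPolynomial (Option K) ℂ, Stab g ∧ g.totalDegree ≤ d ∧
    eval ze (flow (J + 1) eta (t : ℂ) g) = 0} with hT
  have hTne : T.Nonempty := ⟨τ, hτ, f, hf, hd, hzero⟩
  have hTbdd : BddBelow T := ⟨0, fun t ht => ht.1.le⟩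
  set τ₀ := sInf T with hτ₀
  obtain ⟨u, -, hu, huT⟩ := exists_seq_tendsto_sInf hTne hTbdd
  choose hupos g hg hgd hgz using huT
  obtain ⟨n, B, hB, hBi, hBs⟩ := exists_coord d K
  choose c hc using fun k => hBs (g k) (hgd k)
  have hzebase : Fut (fun o : Option K => (ze o).im) := by
    refine ⟨?_, ?_⟩ <;> simp
  have hcne : ∀ k, c k ≠ 0 := by
    intro k h0
    have h1 : g k = 0 := by
      rw [hc k, h0]
      simp
    exact hg k ze hzebase (by rw [h1, map_zero])
  set F : (Fin n → ℂ) → MvPolynomial (Option K) ℂ := fun c => ∑ i, c i • B i with hF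
  have hFd : ∀ c, (F c).totalDegree ≤ d := fun c =>
    (totalDegree_finsetSum _ _).trans (Finset.sup_le fun i _ =>
      (totalDegree_smul_le _ _).trans (hB i))
  set e : ℕ → Fin n → ℂ := fun k => ((‖c k‖⁻¹ : ℝ) : ℂ) • c k with he
  have hes : ∀ k, e k ∈ Metric.sphere (0 : Fin n → ℂ) 1 := by
    intro k
    rw [mem_sphere_zero_iff_norm, he, norm_smul, Complex.norm_real, norm_inv, norm_norm,
      inv_mul_cancel₀ (norm_ne_zero_iff.2 (hcne k))]
  have hFe : ∀ k, F (e k) = ((‖c k‖⁻¹ : ℝ) : ℂ) • g k := by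
    intro k
    rw [hc k, Finset.smul_sum]
    refine Finset.sum_congr rfl fun i _ => ?_
    rw [he, smul_smul]
    rfl
  have hsc : ∀ k, ((‖c k‖⁻¹ : ℝ) : ℂ) ≠ 0 := by
    intro k
    exact_mod_cast inv_ne_zero (norm_ne_zero_iff.2 (hcne k))
  have hFst : ∀ k, Stab (F (e k)) := by
    intro k z hz
    rw [hFe, smul_eval]
    exact mul_ne_zero (hsc k) (hg k z hz)
  have hFz : ∀ k, eval ze (flow (J + 1) eta (u k : ℂ) (F (e k))) = 0 := by
    intro k
    rw [hFe, map_smul, smul_eval, hgz k, mul_zero]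
  obtain ⟨a, ha, φ, hφ, hlim⟩ := (isCompact_sphere (0 : Fin n → ℂ) 1).tendsto_subseq hes
  have hane : F a ≠ 0 := by
    intro h0
    have h1 : a = 0 := by
      have := Fintype.linearIndependent_iff.1 hBi a h0
      funext i
      exact this i
    rw [h1] at ha
    simp at ha
  have hev : ∀ z, Tendsto (fun k => eval z (F (e (φ k)))) atTop (𝓝 (eval z (F a))) := by
    intro z
    have hcont : Continuous fun c : Fin n → ℂ => eval z (F c) := by
      simp only [hF, map_sum, smul_eval]
      fun_prop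
    exact (hcont.tendsto a).comp hlim
  have hstab : Stab (F a) := stab_of_tendsto (fun k => hFst (φ k)) (fun k => hFd _) hane hev
  have hflz : eval ze (flow (J + 1) eta (τ₀ : ℂ) (F a)) = 0 := by
    have hcont : Continuous fun p : ℝ × (Fin n → ℂ) =>
        eval ze (flow (J + 1) eta (p.1 : ℂ) (F p.2)) := by
      simp only [flow_apply, hF, map_sum, map_smul, smul_eval]
      fun_prop
    have h1 : Tendsto (fun k => (u (φ k), e (φ k))) atTop (𝓝 (τ₀, a)) :=
      (hu.comp hφ.tendsto_atTop).prodMk_nhds hlim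
    have h2 := (hcont.tendsto (τ₀, a)).comp h1
    have h3 : (fun p : ℝ × (Fin n → ℂ) => eval ze (flow (J + 1) eta (p.1 : ℂ) (F p.2))) ∘
        (fun k => (u (φ k), e (φ k))) = fun _ => 0 := by
      funext k
      exact hFz (φ k)
    rw [h3] at h2
    exact (tendsto_nhds_unique h2 tendsto_const_nhds)
  have hτ₀0 : 0 ≤ τ₀ := le_csInf hTne fun t ht => ht.1.le
  have hτ₀pos : 0 < τ₀ := by
    rcases hτ₀0.eq_or_lt with h | h
    · exfalso
      rw [← h, Complex.ofReal_zero, flow_zero (Nat.succ_pos J)] at hflz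
      exact hstab ze hzebase hflz
    · exact h
  refine no_extremal hJ hτ₀pos ?_ hstab (hFd a) hflz
  intro g hg hgd t ht z hz hz0
  set y : Option K → ℝ := fun o => (z o).im with hy
  have hqp := hz.qf_pos
  set ρ := Real.sqrt (qf y) with hρ
  have hρ0 : 0 < ρ := Real.sqrt_pos.2 hqp
  have hρ2 : ρ ^ 2 = qf y := Real.sq_sqrt hqp.le
  set m : Option K → ℝ := fun o => y o / ρ with hm
  have hqm : qf m = 1 := by
    have h1 : qf m = qf y / ρ ^ 2 := by
      unfold qf
      simp only [hm, div_pow]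
      rw [← Finset.sum_div, sub_div]
    rw [h1, hρ2]
    exact div_self hqp.ne'
  have hfm : Fut m := by
    refine ⟨div_pos hz.1 hρ0, ?_⟩
    have : 0 < qf m := by rw [hqm]; exact one_pos
    unfold qf at this
    linarith
  have hmem : t / qf y ∈ T := by
    refine ⟨div_pos ht hqp, aeval (aff (fun o => (z o).re) ρ m) g,
      stab_aff hg _ hρ0 hqm hfm, totalDegree_aeval_le _ (totalDegree_aff _ _ _) g d hgd, ?_⟩
    rw [flow_aff _ _ _ _ hqm, eval_aeval]
    have h1 : (ρ : ℂ) ^ 2 * ((t / qf y : ℝ) : ℂ) = (t : ℂ) := by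
      rw [← Complex.ofReal_pow, ← Complex.ofReal_mul, hρ2]
      congr 1
      field_simp
    rw [h1]
    have h2 : (fun s => eval ze (aff (fun o => (z o).re) ρ m s)) = z := by
      funext s
      rw [eval_aff]
      have h3 : ∑ t, ((ρ * rmat m s t : ℝ) : ℂ) * ze t = Complex.I * ((ρ * refl m tr s : ℝ) : ℂ) := by
        rw [refl_eq, Finset.mul_sum, Complex.ofReal_sum, Finset.mul_sum]
        refine Finset.sum_congr rfl fun t _ => ?_
        have : (ze t : ℂ) = Complex.I * ((tr t : ℝ) : ℂ) := by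
          cases t <;> simp [tr]
        rw [this]
        push_cast
        ring
      rw [h3, refl_time hqm]
      have h4 : ρ * m s = (z s).im := by
        simp only [hm, hy]
        field_simp
      rw [h4, mul_comm]
      exact Complex.re_add_im (z s)
    rw [h2]
    exact hz0
  have h5 : τ₀ ≤ t / qf y := csInf_le hTbdd hmem
  rw [le_div_iff₀ hqp] at h5
  rw [le_div_iff₀ hτ₀pos]
  linarith

/-- **The wave flow preserves stability.** -/
theorem stab_flow {d J : ℕ} (hJ : d ≤ J) {f : MvPolynomial (Option K) ℂ} (hf : Stab f)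
    (hd : f.totalDegree ≤ d) {τ : ℝ} (hτ : 0 ≤ τ) : Stab (flow (J + 1) eta (τ : ℂ) f) := by
  classical
  rcases hτ.eq_or_lt with h | h
  · rw [← h, Complex.ofReal_zero, flow_zero (Nat.succ_pos J)]
    exact hf
  intro z hz hz0
  set y : Option K → ℝ := fun o => (z o).im with hy
  have hqp := hz.qf_pos
  set ρ := Real.sqrt (qf y) with hρ
  have hρ0 : 0 < ρ := Real.sqrt_pos.2 hqp
  have hρ2 : ρ ^ 2 = qf y := Real.sq_sqrt hqp.le
  set m : Option K → ℝ := fun o => y o / ρ with hm
  have hqm : qf m = 1 := by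
    have h1 : qf m = qf y / ρ ^ 2 := by
      unfold qf
      simp only [hm, div_pow]
      rw [← Finset.sum_div, sub_div]
    rw [h1, hρ2]
    exact div_self hqp.ne'
  have hfm : Fut m := by
    refine ⟨div_pos hz.1 hρ0, ?_⟩
    have : 0 < qf m := by rw [hqm]; exact one_pos
    unfold qf at this
    linarith
  refine flow_base_ne_zero hJ (stab_aff hf (fun o => (z o).re) hρ0 hqm hfm)
    (totalDegree_aeval_le _ (totalDegree_aff _ _ _) f d hd) (div_pos h hqp) ?_
  rw [flow_aff _ _ _ _ hqm, eval_aeval]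
  have h1 : (ρ : ℂ) ^ 2 * ((τ / qf y : ℝ) : ℂ) = (τ : ℂ) := by
    rw [← Complex.ofReal_pow, ← Complex.ofReal_mul, hρ2]
    congr 1
    field_simp
  rw [h1]
  have h2 : (fun s => eval ze (aff (fun o => (z o).re) ρ m s)) = z := by
    funext s
    rw [eval_aff]
    have h3 : ∑ t, ((ρ * rmat m s t : ℝ) : ℂ) * ze t = Complex.I * ((ρ * refl m tr s : ℝ) : ℂ) := by
      rw [refl_eq, Finset.mul_sum, Complex.ofReal_sum, Finset.mul_sum]
      refine Finset.sum_congr rfl fun t _ => ?_
      have : (ze t : ℂ) = Complex.I * ((tr t : ℝ) : ℂ) := by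
        cases t <;> simp [tr]
      rw [this]
      push_cast
      ring
    rw [h3, refl_time hqm]
    have h4 : ρ * m s = (z s).im := by
      simp only [hm, hy]
      field_simp
    rw [h4, mul_comm]
    exact Complex.re_add_im (z s)
  rw [h2]
  exact hz0

end

end Pool.Agent.U908.LC
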