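import Pool.Agent.U908.LC.Main

/-!
# Products of light cones, and the sign of the top power of the wave operator
-/

set_option autoImplicit false

namespace Pool.Agent.U908.LC

open MvPolynomial Filter Topology

section multi

variable {I K : Type} [Fintype I] [DecidableEq I] [Fintype K] [DecidableEq K]

/-- no zeros in the tube over the product of the future light cones -/
def StabP (f : MvPolynomial (I × Option K) ℂ) : Prop :=
  ∀ z : I × Option K → ℂ, (∀ i, Fut fun o => (z (i, o)).im) → eval z f ≠ 0

/-- the coefficients of the wave operator of the block `i` -/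
def ce (i : I) : I × Option K → ℂ := fun s => if s.1 = i then eta s.2 else 0

/-- the substitution which fixes the variables outside of the block `i` -/
noncomputable def res (i : I) (z : I × Option K → ℂ) (s : I × Option K) :
    MvPolynomial (Option K) ℂ := if s.1 = i then X s.2 else C (z s)

omit [Fintype I] in
theorem flow_res [Fintype I] (J : ℕ) (i : I) (z : I × Option K → ℂ) (τ : ℂ)
    (f : MvPolynomial (I × Option K) ℂ) :
    flow J eta τ (aeval (res i z) f) = aeval (res i z) (flow J (ce i) τ f) := by
  have h := flow_aeval J (ce i) eta (res i z)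
    (fun s t => if s.1 = i then (if s.2 = t then 1 else 0) else 0) 1 (fun s t => ?_)
    (fun s s' => ?_) τ f
  · rw [one_mul] at h
    exact h
  · unfold res
    by_cases h1 : s.1 = i
    · rw [if_pos h1, if_pos h1]
      by_cases h2 : s.2 = t
      · rw [if_pos h2, h2, pderiv_X_self, C_1]
      · rw [if_neg h2, pderiv_X_of_ne h2, C_0]
    · rw [if_neg h1, if_neg h1, pderiv_C, C_0]
  · by_cases h1 : s.1 = i
    · by_cases h2 : s'.1 = i
      · simp only [if_pos h1, if_pos h2]
        rw [Finset.sum_eq_single s.2]
        · by_cases h3 : s.2 = s'.2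
          · have h4 : s = s' := Prod.ext (h1.trans h2.symm) h3
            subst h4
            simp [ce, h1]
          · have h4 : s ≠ s' := fun h => h3 (by rw [h])
            rw [if_neg h4, if_neg (Ne.symm h3)]
            simp
        · intro b _ hb
          rw [if_neg (Ne.symm hb)]
          simp
        · intro h
          exact absurd (Finset.mem_univ _) h
      · have h4 : s ≠ s' := fun h => h2 (by rw [← h]; exact h1)
        simp only [if_neg h2, mul_zero, Finset.sum_const_zero, if_neg h4]
    · simp only [if_neg h1, zero_mul, mul_zero, Finset.sum_const_zero]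
      split_ifs with h3
      · rw [one_mul, ce, if_neg h1]
      · rfl

/-- **One block.** -/
theorem stabP_flow {d J : ℕ} (hJ : d ≤ J) (i : I) {f : MvPolynomial (I × Option K) ℂ}
    (hf : StabP f) (hd : f.totalDegree ≤ d) {τ : ℝ} (hτ : 0 ≤ τ) :
    StabP (flow (J + 1) (ce i) (τ : ℂ) f) := by
  intro z hz
  have h1 : Stab (aeval (res i z) f) := by
    intro w hw
    rw [eval_aeval]
    refine hf _ fun j => ?_
    by_cases hj : j = i
    · subst hj
      have : (fun o => (eval w (res j z (j, o))).im) = fun o => (w o).im := by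
        funext o
        simp [res]
      rw [this]
      exact hw
    · have : (fun o => (eval w (res i z (j, o))).im) = fun o => (z (j, o)).im := by
        funext o
        simp [res, hj]
      rw [this]
      exact hz j
  have h2 := stab_flow hJ h1 (totalDegree_aeval_le _ (fun s => by
    unfold res
    split_ifs
    · rw [totalDegree_X]
    · rw [totalDegree_C]; exact Nat.zero_le _) f d hd) hτ
  have h3 := h2 (fun o => z (i, o)) (hz i)
  rw [flow_res, eval_aeval] at h3
  have h4 : (fun s => eval (fun o => z (i, o)) (res i z s)) = z := by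
    funext s
    unfold res
    by_cases h : s.1 = i
    · rw [if_pos h, eval_X, ← h]
    · rw [if_neg h, eval_C]
  rwa [h4] at h3

/-- **Several blocks.** -/
theorem stabP_flow_sum {d J : ℕ} (hJ : d ≤ J) {f : MvPolynomial (I × Option K) ℂ}
    (hf : StabP f) (hd : f.totalDegree ≤ d) {τ : ℝ} (hτ : 0 ≤ τ) (S : Finset I) :
    StabP (flow (J + 1) (fun s => ∑ i ∈ S, ce i s) (τ : ℂ) f) := by
  induction S using Finset.induction_on with
  | empty =>
    have h1 : flow (J + 1) (fun s : I × Option K => ∑ i ∈ (∅ : Finset I), ce i s) (τ : ℂ) f = f := by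
      rw [flow_apply, Finset.sum_eq_single 0]
      · simp
      · intro j _ hj
        have h2 : (lap (fun s : I × Option K => ∑ i ∈ (∅ : Finset I), (ce i s : ℂ)) :
            Module.End ℂ (MvPolynomial (I × Option K) ℂ)) = 0 := by
          refine LinearMap.ext fun g => ?_
          rw [lap_apply]
          simp
        rw [h2, zero_pow hj, LinearMap.zero_apply, smul_zero]
      · intro h
        exact absurd (Finset.mem_range.2 (Nat.succ_pos J)) h
    rw [h1]
    exact hf
  | insert i S hi ih =>
    have h1 : (fun s : I × Option K => ∑ j ∈ insert i S, (ce j s : ℂ)) =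
        fun s => ce i s + ∑ j ∈ S, ce j s := by
      funext s
      rw [Finset.sum_insert hi]
    rw [h1, flow_add (J + 1) (ce i) (fun s => ∑ j ∈ S, ce j s) (τ : ℂ) f d hd (by omega)]
    exact stabP_flow hJ i ih (totalDegree_flow_le _ _ _ _ _ hd) hτ

theorem stabP_flow_all {d J : ℕ} (hJ : d ≤ J) {f : MvPolynomial (I × Option K) ℂ}
    (hf : StabP f) (hd : f.totalDegree ≤ d) {τ : ℝ} (hτ : 0 ≤ τ) :
    StabP (flow (J + 1) (fun s => eta s.2) (τ : ℂ) f) := by
  have h := stabP_flow_sum hJ hf hd hτ Finset.univ
  have h1 : (fun s : I × Option K => ∑ i ∈ (Finset.univ : Finset I), (ce i s : ℂ)) =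
      fun s => eta s.2 := by
    funext s
    simp [ce]
  rwa [h1] at h

end multi

section sign

variable {σ : Type} [Fintype σ]

theorem eval_mul_of_homogeneous {R : Type} [CommRing R] {f : MvPolynomial σ R} {n : ℕ}
    (h : f.IsHomogeneous n) (a : R) (x : σ → R) : eval (fun s => a * x s) f = a ^ n * eval x f := by
  rw [eval_eq', eval_eq', Finset.mul_sum]
  refine Finset.sum_congr rfl fun m hm => ?_
  have h1 : m.degree = n := by
    by_contra hne
    exact (mem_support_iff.1 hm) (h.coeff_eq_zero hne)
  have h2 : ∑ i, m i = n := by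
    rw [← h1, Finsupp.degree_eq_sum]
  simp only [mul_pow, Finset.prod_mul_distrib]
  rw [Finset.prod_pow_eq_pow_sum, h2]
  ring

theorem homogeneous_lap {R : Type} [CommRing R] (c : σ → R) {f : MvPolynomial σ R} {n : ℕ}
    (h : f.IsHomogeneous n) : (lap c f).IsHomogeneous (n - 2) := by
  rw [lap_apply]
  refine IsHomogeneous.sum _ _ _ fun s _ => ?_
  rw [smul_eq_C_mul]
  have := (h.pderiv (i := s)).pderiv (i := s)
  rw [Nat.sub_sub] at this
  exact this.C_mul _

theorem homogeneous_lap_pow {R : Type} [CommRing R] (c : σ → R) {f : MvPolynomial σ R} {m : ℕ}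
    (h : f.IsHomogeneous (2 * m)) (j : ℕ) :
    (((lap c : Module.End R (MvPolynomial σ R)) ^ j) f).IsHomogeneous (2 * (m - j)) := by
  induction j with
  | zero => simpa using h
  | succ j ih =>
    rw [pow_succ', Module.End.mul_apply]
    have := homogeneous_lap c ih
    have h1 : 2 * (m - j) - 2 = 2 * (m - (j + 1)) := by omega
    rwa [h1] at this

theorem lap_pow_eq_zero_of_homogeneous {R : Type} [CommRing R] (c : σ → R) {f : MvPolynomial σ R}
    {m : ℕ} (h : f.IsHomogeneous (2 * m)) (j : ℕ) (hj : m < j) :
    ((lap c : Module.End R (MvPolynomial σ R)) ^ j) f = 0 := by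
  obtain ⟨k, rfl⟩ : ∃ k, j = k + m + 1 := ⟨j - m - 1, by omega⟩
  have h1 := homogeneous_lap_pow c h m
  rw [Nat.sub_self, mul_zero] at h1
  have h2 : lap c (((lap c : Module.End R (MvPolynomial σ R)) ^ m) f) = 0 :=
    lap_of_totalDegree_zero c _ (by
      have := h1.totalDegree_le
      exact this)
  rw [show k + m + 1 = k + (1 + m) by ring, pow_add, Module.End.mul_apply, pow_add, pow_one,
    Module.End.mul_apply, h2, map_zero]

/-- A real polynomial without zeros on the positive half-line and with positive value at `0` has a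
nonnegative coefficient of highest degree. -/
theorem top_nonneg {m : ℕ} (a : ℕ → ℝ) (h0 : 0 < a 0)
    (h : ∀ τ : ℝ, 0 < τ → ∑ j ∈ Finset.range (m + 1), a j * τ ^ j ≠ 0) : 0 ≤ a m := by
  by_contra hcon
  push Not at hcon
  rcases Nat.eq_zero_or_pos m with hm | hm
  · subst hm
    linarith
  set R : ℝ → ℝ := fun τ => ∑ j ∈ Finset.range (m + 1), a j * τ ^ j with hR
  have hcont : Continuous R := by fun_prop
  have hR0 : R 0 = a 0 := by
    simp only [hR]
    rw [Finset.sum_eq_single 0]
    · simp
    · intro j _ hj
      rw [zero_pow hj, mul_zero]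
    · intro h
      exact absurd (Finset.mem_range.2 (Nat.succ_pos m)) h
  set A : ℝ := ∑ j ∈ Finset.range m, |a j| with hA
  have hA0 : 0 ≤ A := Finset.sum_nonneg fun _ _ => abs_nonneg _
  set t : ℝ := A / (-a m) + 1 with ht
  have ht1 : 1 ≤ t := by
    have : 0 ≤ A / (-a m) := div_nonneg hA0 (by linarith)
    linarith
  have hneg : R t < 0 := by
    simp only [hR]
    rw [Finset.sum_range_succ]
    obtain ⟨k, rfl⟩ : ∃ k, m = k + 1 := ⟨m - 1, by omega⟩
    have h1 : ∑ j ∈ Finset.range (k + 1), a j * t ^ j ≤ A * t ^ k := by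
      rw [hA, Finset.sum_mul]
      refine Finset.sum_le_sum fun j hj => ?_
      have h2 : t ^ j ≤ t ^ k := pow_le_pow_right₀ ht1 (by
        have := Finset.mem_range.1 hj
        omega)
      have h3 : 0 ≤ t ^ j := by positivity
      calc a j * t ^ j ≤ |a j| * t ^ j := mul_le_mul_of_nonneg_right (le_abs_self _) h3
        _ ≤ |a j| * t ^ k := mul_le_mul_of_nonneg_left h2 (abs_nonneg _)
    have h4 : 0 < t ^ k := by positivity
    have h5 : A + a (k + 1) * t < 0 := by
      have h6 : a (k + 1) * t = -A + a (k + 1) := by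
        rw [ht]
        have : a (k + 1) ≠ 0 := hcon.ne
        field_simp
      linarith
    have h7 : a (k + 1) * t ^ (k + 1) = (a (k + 1) * t) * t ^ k := by ring
    rw [h7]
    nlinarith
  have hpos : 0 < R 0 := by rw [hR0]; exact h0
  have ht0 : 0 ≤ t := by linarith
  obtain ⟨s, hs, hs0⟩ := intermediate_value_Icc' ht0 hcont.continuousOn ⟨hneg.le, hpos.le⟩
  rcases hs.1.eq_or_lt with h1 | h1
  · rw [← h1] at hs0
    linarith
  · exact h s h1 hs0

end sign

section final

variable {I K : Type} [Fintype I] [DecidableEq I] [Fintype K] [DecidableEq K]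

/-- **The sign of the top power of the wave operator.** -/
theorem lap_pow_nonneg {m : ℕ} {p : MvPolynomial (I × Option K) ℝ} (hp : p.IsHomogeneous (2 * m))
    (hs : StabP (map (algebraMap ℝ ℂ) p)) (h0 : 0 < eval (fun s => tr s.2) p) :
    0 ≤ eval (fun s => tr s.2)
      (((lap fun s : I × Option K => er s.2 : Module.End ℝ (MvPolynomial (I × Option K) ℝ)) ^ m)
        p) := by
  set a : ℕ → ℝ := fun j => eval (fun s => tr s.2)
    (((lap fun s : I × Option K => er s.2 : Module.End ℝ (MvPolynomial (I × Option K) ℝ)) ^ j) p) /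
      (j.factorial : ℝ) with ha
  have hfac : (0 : ℝ) < (m.factorial : ℝ) := by exact_mod_cast Nat.factorial_pos m
  have key : 0 ≤ a m := by
    refine top_nonneg (m := m) a (by simpa [ha] using h0) fun τ hτ hzero => ?_
    have hd : (map (algebraMap ℝ ℂ) p).totalDegree ≤ 2 * m :=
      ((hp.map (algebraMap ℝ ℂ))).totalDegree_le
    have h1 := stabP_flow_all (J := 2 * m) le_rfl hs hd hτ.le
      (fun s => Complex.I * ((tr s.2 : ℝ) : ℂ)) (fun i => by
        refine ⟨?_, ?_⟩ <;> simp [tr])
    apply h1
    rw [flow_apply, map_sum]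
    have h2 : ∀ j, eval (fun s : I × Option K => Complex.I * ((tr s.2 : ℝ) : ℂ))
        (((-(τ : ℂ)) ^ j / (j.factorial : ℂ)) •
          ((lap fun s : I × Option K => (eta s.2 : ℂ) :
            Module.End ℂ (MvPolynomial (I × Option K) ℂ)) ^ j) (map (algebraMap ℝ ℂ) p)) =
        if m < j then 0 else (-1) ^ m * ((a j * τ ^ j : ℝ) : ℂ) := by
      intro j
      have h3 : (fun s : I × Option K => (eta s.2 : ℂ)) =
          fun s => algebraMap ℝ ℂ (er s.2) := by
        funext s
        exact eta_eq s.2
      rw [h3, lap_pow_map]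
      by_cases hj : m < j
      · rw [if_pos hj, lap_pow_eq_zero_of_homogeneous _ hp j hj]
        simp
      · rw [if_neg hj, smul_eval]
        have h4 := (homogeneous_lap_pow (fun s : I × Option K => er s.2) hp j).map (algebraMap ℝ ℂ)
        rw [eval_mul_of_homogeneous h4]
        have h5 : eval (fun s : I × Option K => ((tr s.2 : ℝ) : ℂ)) (map (algebraMap ℝ ℂ)
            (((lap fun s : I × Option K => er s.2 :
              Module.End ℝ (MvPolynomial (I × Option K) ℝ)) ^ j) p)) =
            ((eval (fun s => tr s.2) (((lap fun s : I × Option K => er s.2 :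
              Module.End ℝ (MvPolynomial (I × Option K) ℝ)) ^ j) p) : ℝ) : ℂ) := by
          rw [eval_map]
          have := eval₂_comp_left (algebraMap ℝ ℂ) (RingHom.id ℝ) (fun s : I × Option K => tr s.2)
            (((lap fun s : I × Option K => er s.2 :
              Module.End ℝ (MvPolynomial (I × Option K) ℝ)) ^ j) p)
          rw [RingHom.comp_id] at this
          exact this.symm
        rw [h5]
        simp only [ha]
        have h6 : Complex.I ^ (2 * (m - j)) = (-1) ^ (m - j) := by
          rw [pow_mul, Complex.I_sq]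
        have h7 : (-1 : ℂ) ^ (m - j) * (-1) ^ j = (-1) ^ m := by
          rw [← pow_add]
          congr 1
          omega
        rw [h6, ← h7]
        push_cast
        rw [neg_pow]
        ring
    rw [Finset.sum_congr rfl fun j _ => h2 j]
    have h3 : Finset.range (m + 1) ⊆ Finset.range (2 * m + 1) := Finset.range_mono (by omega)
    rw [← Finset.sum_subset h3 (fun j _ hj => by
      rw [Finset.mem_range, not_lt] at hj
      rw [if_pos (by omega)])]
    rw [Finset.sum_congr rfl (g := fun j => (-1) ^ m * ((a j * τ ^ j : ℝ) : ℂ)) (fun j hj => by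
      rw [Finset.mem_range] at hj
      rw [if_neg (by omega)]), ← Finset.mul_sum, ← Complex.ofReal_sum, hzero]
    simp
  simp only [ha] at key
  have := mul_nonneg key hfac.le
  rwa [div_mul_cancel₀ _ hfac.ne'] at this

end final

end Pool.Agent.U908.LC
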