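import Pool.Agent.U908.LC.Multi
import Pool.Agent.N565.LZ.Fin

/-!
# Determinants of pencils and the full contraction
-/

set_option autoImplicit false

namespace Pool.Agent.U908.LC

open MvPolynomial Pool.Agent.Y489.SM Pool.Agent.W666.GB

section PF

variable {S : Type} [Fintype S] [DecidableEq S] {R : Type} [CommRing R]

omit [Fintype S] [DecidableEq S] in
theorem derivation_prod {A : Type} [CommRing A] [Algebra R A] (D : Derivation R A A) {ι : Type}
    [DecidableEq ι] (s : Finset ι) (f : ι → A) :
    D (∏ i ∈ s, f i) = ∑ i ∈ s, (∏ j ∈ s.erase i, f j) * D (f i) := by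
  induction s using Finset.induction_on with
  | empty => simp
  | insert a s ha ih =>
    rw [Finset.prod_insert ha, D.leibniz, ih, Finset.sum_insert ha, Finset.erase_insert ha,
      smul_eq_mul, smul_eq_mul, Finset.mul_sum, add_comm]
    congr 1
    refine Finset.sum_congr rfl fun i hi => ?_
    have h1 : (insert a s).erase i = insert a (s.erase i) := by
      rw [Finset.erase_insert_of_ne]
      rintro rfl
      exact ha hi
    rw [h1, Finset.prod_insert (fun h => ha (Finset.mem_of_mem_erase h))]
    ring

omit [DecidableEq S] in
theorem sum_oc {A : Type} [AddCommMonoid A] {J : Type} [Fintype J] [DecidableEq J]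
    (f : (Option J → S) → A) : ∑ β : Option J → S, f β = ∑ a : S, ∑ β : J → S, f (oc a β) := by
  rw [← Fintype.sum_prod_type' (f := fun a (β : J → S) => f (oc a β))]
  refine Fintype.sum_equiv (Equiv.piOptionEquivProd (β := fun _ => S)) _ _ fun β => ?_
  conv_lhs => rw [← oc_eta β]
  rfl

/-- the form with coefficients `F` -/
noncomputable def PF {J : Type} [Fintype J] [DecidableEq J] (F : (J → S) → R) :
    MvPolynomial S R := ∑ β : J → S, C (F β) * ∏ j, X (β j)

/-- symmetric functions of tuples -/
def SyR {J : Type} (F : (J → S) → R) : Prop :=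
  ∀ (π : Equiv.Perm J) (β : J → S), F (fun j => β (π j)) = F β

theorem pderiv_PF {J : Type} [Fintype J] [DecidableEq J] (F : (Option J → S) → R) (hF : SyR F)
    (a : S) : pderiv a (PF F) = ((Fintype.card J + 1 : ℕ) : R) • PF (fun β : J → S => F (oc a β)) := by
  have hT : ∀ (j : Option J), ∑ β : Option J → S, C (F β) *
      ((∏ i ∈ Finset.univ.erase j, X (β i)) * (if β j = a then 1 else 0) : MvPolynomial S R) =
      ∑ β : Option J → S, C (F β) *
      ((∏ i ∈ Finset.univ.erase none, X (β i)) * (if β none = a then 1 else 0)) := by
    intro j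
    refine Fintype.sum_equiv (Equiv.arrowCongr (Equiv.swap j none) (Equiv.refl S)) _ _ fun β => ?_
    have h2 : (Equiv.arrowCongr (Equiv.swap j none) (Equiv.refl S)) β =
        fun i => β (Equiv.swap j none i) := by
      funext i
      simp [Equiv.arrowCongr]
    rw [h2, hF]
    beta_reduce
    rw [Equiv.swap_apply_right]
    congr 2
    refine Finset.prod_equiv (Equiv.swap j none) (fun i => ?_) (fun i _ => by simp)
    simp only [Finset.mem_erase, Finset.mem_univ, and_true]
    constructor
    · intro h h'
      apply h
      have := congrArg (Equiv.swap j none) h'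
      rw [Equiv.swap_apply_self, Equiv.swap_apply_right] at this
      exact this
    · rintro h rfl
      exact h (Equiv.swap_apply_left _ _)
  unfold PF
  rw [map_sum]
  have h1 : ∀ β : Option J → S, pderiv a (C (F β) * ∏ j, X (β j)) =
      ∑ j : Option J, C (F β) * ((∏ i ∈ Finset.univ.erase j, X (β i)) *
        (if β j = a then 1 else 0) : MvPolynomial S R) := by
    intro β
    rw [pderiv_C_mul, derivation_prod, Finset.mul_sum]
    refine Finset.sum_congr rfl fun j _ => ?_
    rw [pderiv_X, Pi.single_apply]
  rw [Finset.sum_congr rfl fun β _ => h1 β, Finset.sum_comm, Finset.sum_congr rfl fun j _ => hT j,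
    Finset.sum_const, Finset.card_univ, Fintype.card_option, ← Nat.cast_smul_eq_nsmul R]
  congr 1
  rw [sum_oc, Finset.sum_eq_single a]
  · refine Finset.sum_congr rfl fun γ _ => ?_
    have h3 : (Finset.univ.erase none : Finset (Option J)) =
        Finset.univ.map Function.Embedding.some := by
      ext o
      cases o <;> simp
    rw [h3, Finset.prod_map]
    simp [oc]
  · intro b _ hb
    refine Finset.sum_eq_zero fun γ _ => ?_
    have : oc b γ none = b := rfl
    rw [this, if_neg hb, mul_zero, mul_zero]
  · intro h
    exact absurd (Finset.mem_univ _) h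

omit [Fintype S] [DecidableEq S] [CommRing R] in
theorem SyR.oc {J : Type} {F : (Option J → S) → R} (hF : SyR F) (a : S) :
    SyR (fun β : J → S => F (oc a β)) := by
  intro π β
  beta_reduce
  rw [oc_perm, hF]

theorem lap_PF {J : Type} [Fintype J] [DecidableEq J] (c : S → R)
    (F : (Option (Option J) → S) → R) (hF : SyR F) :
    lap c (PF F) = (((Fintype.card J + 2) * (Fintype.card J + 1) : ℕ) : R) •
      PF (fun β : J → S => ∑ a, c a * F (oc a (oc a β))) := by
  rw [lap_apply]
  have h1 : ∀ a, c a • pderiv a (pderiv a (PF F)) =
      (((Fintype.card J + 2) * (Fintype.card J + 1) : ℕ) : R) •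
        PF (fun β : J → S => c a * F (oc a (oc a β))) := by
    intro a
    rw [pderiv_PF F hF a, Derivation.map_smul, pderiv_PF _ (hF.oc a) a, Fintype.card_option,
      smul_smul, smul_smul]
    have h2 : PF (fun β : J → S => c a * F (oc a (oc a β))) =
        c a • PF (fun β : J → S => F (oc a (oc a β))) := by
      unfold PF
      rw [Finset.smul_sum]
      refine Finset.sum_congr rfl fun β _ => ?_
      rw [C_mul, smul_eq_C_mul]
      ring
    rw [h2, smul_smul]
    congr 1
    push_cast
    ring
  rw [Finset.sum_congr rfl fun a _ => h1 a, ← Finset.smul_sum]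
  congr 1
  unfold PF
  rw [Finset.sum_comm]
  refine Finset.sum_congr rfl fun β _ => ?_
  rw [map_sum, Finset.sum_mul]

omit [DecidableEq S] in
theorem PF_equiv {J J' : Type} [Fintype J] [DecidableEq J] [Fintype J'] [DecidableEq J']
    (e : J' ≃ J) (F : (J → S) → R) :
    PF F = PF (fun β' : J' → S => F (fun j => β' (e.symm j))) := by
  unfold PF
  refine Fintype.sum_equiv (Equiv.arrowCongr e.symm (Equiv.refl S)) _ _ fun β => ?_
  have h1 : (Equiv.arrowCongr e.symm (Equiv.refl S)) β = fun j => β (e j) := rfl
  rw [h1]
  simp only [Equiv.apply_symm_apply]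
  rw [Equiv.prod_comp e (fun j => (X (β j) : MvPolynomial S R))]

/-- **The top power.** -/
theorem lap_pow_PF (c : S → R) (m : ℕ) (F : (Fin m × Bool → S) → R) (hF : SyR F) :
    ((lap c : Module.End R (MvPolynomial S R)) ^ m) (PF F) =
      C (((2 * m).factorial : R) * ∑ α : Fin m → S, (∏ b, c (α b)) * F (fun x => α x.1)) := by
  induction m with
  | zero =>
    rw [pow_zero, Module.End.one_apply]
    unfold PF
    rw [Fintype.sum_unique, Fintype.sum_unique]
    simp
    congr 1
  | succ m ih =>
    rw [PF_equiv (eS m) F, pow_succ, Module.End.mul_apply, lap_PF, map_smul]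
    · rw [ih]
      · rw [smul_eq_C_mul, ← C_mul]
        congr 1
        have h2 : ∑ α : Fin (m + 1) → S, (∏ b, c (α b)) * F (fun x => α x.1) =
            ∑ q : S × (Fin m → S), (∏ b, c ((Fin.cons q.1 q.2 : Fin (m + 1) → S) b)) *
              F (fun x => (Fin.cons q.1 q.2 : Fin (m + 1) → S) x.1) := by
          symm
          refine Fintype.sum_equiv (Fin.consEquiv fun _ => S) _ _ fun q => ?_
          rfl
        have h3 : Fintype.card (Fin m × Bool) = 2 * m := by
          rw [Fintype.card_prod, Fintype.card_fin, Fintype.card_bool, mul_comm]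
        rw [h2, Fintype.sum_prod_type_right, h3]
        have h4 : (((2 * (m + 1)).factorial : ℕ) : R) =
            (((2 * m + 2) * (2 * m + 1) : ℕ) : R) * ((2 * m).factorial : R) := by
          rw [show 2 * (m + 1) = 2 * m + 1 + 1 by ring, Nat.factorial_succ, Nat.factorial_succ]
          push_cast
          ring
        rw [h4, mul_assoc]
        congr 2
        refine Finset.sum_congr rfl fun α _ => ?_
        rw [Finset.mul_sum]
        refine Finset.sum_congr rfl fun a _ => ?_
        rw [Fin.prod_univ_succ]
        simp only [Fin.cons_zero, Fin.cons_succ]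
        have h5 : (fun j => oc a (oc a fun x : Fin m × Bool => α x.1) ((eS m).symm j)) =
            fun x : Fin (m + 1) × Bool => (Fin.cons a α : Fin (m + 1) → S) x.1 := by
          funext x
          obtain ⟨i, b⟩ := x
          refine Fin.cases ?_ (fun i => ?_) i
          · cases b <;> rfl
          · rfl
        rw [h5]
        ring
      · intro π β
        refine Finset.sum_congr rfl fun a _ => ?_
        congr 1
        have h3 := hF ((eS m).symm.trans ((Equiv.optionCongr (Equiv.optionCongr π)).trans (eS m)))
          (fun j => oc a (oc a β) ((eS m).symm j))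
        rw [← h3]
        congr 1
        funext j
        simp only [Equiv.trans_apply, Equiv.symm_apply_apply]
        generalize (eS m).symm j = o
        rcases o with _ | _ | x <;> rfl
    · intro π β
      have h3 := hF ((eS m).symm.trans (π.trans (eS m))) (fun j => β ((eS m).symm j))
      beta_reduce
      rw [← h3]
      congr 1
      funext j
      simp only [Equiv.trans_apply, Equiv.symm_apply_apply]

end PF

end Pool.Agent.U908.LC
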