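import Pool.Agent.U908.LC.Cls

/-!
# The curvature operator of the second kind
-/

set_option autoImplicit false

namespace Pool.Agent.U908.LC

open Pool.Agent.W666.GB Pool.Agent.W669.HD

section second

variable {V : Type} [NormedAddCommGroup V] [InnerProductSpace ℝ V] {ι : Type} [Fintype ι]

/-- The quadratic form of the curvature operator of the second kind,
`∑ R(e_a, e_c, e_d, e_b) h_ab h_cd`, at the symmetric matrix `h`. -/
noncomputable def secondKind (e : OrthonormalBasis ι ℝ V) (R : V → V → V → V → ℝ) (h : ι → ι → ℝ) : ℝ :=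
  ∑ a, ∑ b, ∑ c, ∑ d, h a b * h c d * R (e a) (e c) (e d) (e b)

/-- On the space of symmetric matrices `h` which satisfy one linear condition `∑ h_ab g_ab = 0`, the
quadratic form of the curvature operator of the second kind is nonpositive. -/
def SecondNonpos (e : OrthonormalBasis ι ℝ V) (R : V → V → V → V → ℝ) : Prop :=
  ∃ g : ι → ι → ℝ, ∀ h : ι → ι → ℝ, (∀ a b, h a b = h b a) → ∑ a, ∑ b, h a b * g a b = 0 →
    secondKind e R h ≤ 0

/-- the bilinear form `∑ T(e_a, e_c, e_b, e_d) h_ab k_cd` -/
noncomputable def skb (e : OrthonormalBasis ι ℝ V) (T : V → V → V → V → ℝ) (h k : ι → ι → ℝ) : ℝ :=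
  ∑ a, ∑ b, ∑ c, ∑ d, h a b * k c d * T (e a) (e c) (e b) (e d)

theorem anti' {T : V → V → V → V → ℝ} (hT : AlgCurv T) (x y z w : V) :
    T x y w z = -T x y z w := by
  rw [← hT.pair, hT.anti, hT.pair]

theorem secondKind_eq {e : OrthonormalBasis ι ℝ V} {T : V → V → V → V → ℝ} (hT : AlgCurv T)
    (h : ι → ι → ℝ) : secondKind e T h = -skb e T h h := by
  unfold secondKind skb
  simp only [← Finset.sum_neg_distrib]
  refine Finset.sum_congr rfl fun a _ => Finset.sum_congr rfl fun b _ =>
    Finset.sum_congr rfl fun c _ => Finset.sum_congr rfl fun d _ => ?_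
  rw [anti' hT (e a) (e c) (e b) (e d)]
  ring

/-- the symmetric product of two vectors -/
noncomputable def sp (e : OrthonormalBasis ι ℝ V) (x z : V) (a b : ι) : ℝ :=
  (inner ℝ (e a) x * inner ℝ (e b) z + inner ℝ (e a) z * inner ℝ (e b) x) / 2

theorem sp_symm (e : OrthonormalBasis ι ℝ V) (x z : V) (a b : ι) : sp e x z a b = sp e x z b a := by
  unfold sp
  ring

theorem sp_comm (e : OrthonormalBasis ι ℝ V) (x z : V) : sp e x z = sp e z x := by
  funext a b
  unfold sp
  ring

theorem sp_add (e : OrthonormalBasis ι ℝ V) (x x' z : V) (a b : ι) :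
    sp e (x + x') z a b = sp e x z a b + sp e x' z a b := by
  unfold sp
  rw [inner_add_right, inner_add_right]
  ring

theorem sp_smul (e : OrthonormalBasis ι ℝ V) (t : ℝ) (x z : V) (a b : ι) :
    sp e (t • x) z a b = t * sp e x z a b := by
  unfold sp
  rw [inner_smul_right, inner_smul_right]
  ring

theorem expand1 {T : V → V → V → V → ℝ} (hT : AlgCurv T) (e : OrthonormalBasis ι ℝ V)
    (x y z w : V) : T x y z w = ∑ a, inner ℝ (e a) x * T (e a) y z w := by
  have h0 : T 0 y z w = 0 := by
    have := hT.smul 0 0 y z w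
    rwa [zero_smul, zero_mul] at this
  have h1 : ∀ (s : Finset ι) (f : ι → V), T (∑ a ∈ s, f a) y z w = ∑ a ∈ s, T (f a) y z w := by
    intro s f
    classical
    induction s using Finset.induction_on with
    | empty => simpa using h0
    | insert a s ha ih => rw [Finset.sum_insert ha, Finset.sum_insert ha, hT.add, ih]
  conv_lhs => rw [← e.sum_repr' x]
  rw [h1]
  exact Finset.sum_congr rfl fun a _ => hT.smul _ _ _ _ _

theorem expand2 {T : V → V → V → V → ℝ} (hT : AlgCurv T) (e : OrthonormalBasis ι ℝ V)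
    (x y z w : V) : T x y z w = ∑ a, inner ℝ (e a) y * T x (e a) z w := by
  rw [hT.anti y x, expand1 hT e y x z w, ← Finset.sum_neg_distrib]
  refine Finset.sum_congr rfl fun a _ => ?_
  rw [hT.anti (e a) x]
  ring

theorem expand3 {T : V → V → V → V → ℝ} (hT : AlgCurv T) (e : OrthonormalBasis ι ℝ V)
    (x y z w : V) : T x y z w = ∑ a, inner ℝ (e a) z * T x y (e a) w := by
  rw [← hT.pair, expand1 hT e z w x y]
  refine Finset.sum_congr rfl fun a _ => ?_
  rw [hT.pair]

theorem expand4 {T : V → V → V → V → ℝ} (hT : AlgCurv T) (e : OrthonormalBasis ι ℝ V)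
    (x y z w : V) : T x y z w = ∑ a, inner ℝ (e a) w * T x y z (e a) := by
  rw [← hT.pair, expand2 hT e z w x y]
  refine Finset.sum_congr rfl fun a _ => ?_
  rw [hT.pair]

theorem expand {T : V → V → V → V → ℝ} (hT : AlgCurv T) (e : OrthonormalBasis ι ℝ V)
    (x y z w : V) : ∑ a, ∑ b, ∑ c, ∑ d, inner ℝ (e a) x * inner ℝ (e b) z * (inner ℝ (e c) y *
      inner ℝ (e d) w) * T (e a) (e c) (e b) (e d) = T x y z w := by
  rw [expand1 hT e x y z w]
  refine Finset.sum_congr rfl fun a _ => ?_
  rw [expand3 hT e (e a) y z w, Finset.mul_sum]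
  refine Finset.sum_congr rfl fun b _ => ?_
  rw [expand2 hT e (e a) y (e b) w, Finset.mul_sum, Finset.mul_sum]
  refine Finset.sum_congr rfl fun c _ => ?_
  rw [expand4 hT e (e a) (e c) (e b) w, Finset.mul_sum, Finset.mul_sum, Finset.mul_sum]
  refine Finset.sum_congr rfl fun d _ => ?_
  ring

theorem skb_sp {T : V → V → V → V → ℝ} (hT : AlgCurv T) (e : OrthonormalBasis ι ℝ V)
    (x y z w : V) : skb e T (sp e x z) (sp e y w) = (T x y z w + T x w z y) / 2 := by
  have h1 : skb e T (sp e x z) (sp e y w) = (T x y z w + T x w z y + T z y x w + T z w x y) / 4 := by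
    rw [← expand hT e x y z w, ← expand hT e x w z y, ← expand hT e z y x w,
      ← expand hT e z w x y]
    simp only [← Finset.sum_add_distrib, Finset.sum_div, skb]
    refine Finset.sum_congr rfl fun a _ => Finset.sum_congr rfl fun b _ =>
      Finset.sum_congr rfl fun c _ => Finset.sum_congr rfl fun d _ => ?_
    unfold sp
    ring
  rw [h1, hT.pair z w x y, hT.pair x w z y]
  ring


/-! ### the bilinear form -/

theorem skb_add_left (e : OrthonormalBasis ι ℝ V) (T : V → V → V → V → ℝ) (h h' k : ι → ι → ℝ) :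
    skb e T (fun a b => h a b + h' a b) k = skb e T h k + skb e T h' k := by
  unfold skb
  simp only [← Finset.sum_add_distrib]
  refine Finset.sum_congr rfl fun a _ => Finset.sum_congr rfl fun b _ =>
    Finset.sum_congr rfl fun c _ => Finset.sum_congr rfl fun d _ => ?_
  ring

theorem skb_smul_left (e : OrthonormalBasis ι ℝ V) (T : V → V → V → V → ℝ) (t : ℝ)
    (h k : ι → ι → ℝ) : skb e T (fun a b => t * h a b) k = t * skb e T h k := by
  unfold skb
  simp only [Finset.mul_sum]
  refine Finset.sum_congr rfl fun a _ => Finset.sum_congr rfl fun b _ =>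
    Finset.sum_congr rfl fun c _ => Finset.sum_congr rfl fun d _ => ?_
  ring

theorem skb_comm {T : V → V → V → V → ℝ} (hT : AlgCurv T) (e : OrthonormalBasis ι ℝ V)
    (h k : ι → ι → ℝ) : skb e T h k = skb e T k h := by
  have h1 : skb e T h k = ∑ a, ∑ b, ∑ c, ∑ d, k c d * h a b * T (e c) (e a) (e d) (e b) := by
    unfold skb
    refine Finset.sum_congr rfl fun a _ => Finset.sum_congr rfl fun b _ =>
      Finset.sum_congr rfl fun c _ => Finset.sum_congr rfl fun d _ => ?_
    rw [hT.anti (e c) (e a), anti' hT (e c) (e a)]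
    ring
  rw [h1]
  unfold skb
  have h2 : ∀ F : ι → ι → ι → ι → ℝ, ∑ a, ∑ b, ∑ c, ∑ d, F a b c d =
      ∑ c, ∑ d, ∑ a, ∑ b, F a b c d := by
    intro F
    have h3 : ∀ G : ι × ι → ι × ι → ℝ, ∑ p, ∑ q, G p q = ∑ q, ∑ p, G p q :=
      fun G => Finset.sum_comm
    have h4 := h3 fun p q => F p.1 p.2 q.1 q.2
    simp only [Fintype.sum_prod_type] at h4
    exact h4
  rw [h2]

/-- no two orthogonal negative directions -/
theorem no_two_neg {T : V → V → V → V → ℝ} (hT : AlgCurv T) {e : OrthonormalBasis ι ℝ V}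
    (hS : SecondNonpos e T) {u v : ι → ι → ℝ} (hu : ∀ a b, u a b = u b a)
    (hv : ∀ a b, v a b = v b a) (huv : skb e T u v = 0) (hneg : skb e T u u < 0) :
    0 ≤ skb e T v v := by
  obtain ⟨g, hg⟩ := hS
  have hg' : ∀ h : ι → ι → ℝ, (∀ a b, h a b = h b a) → ∑ a, ∑ b, h a b * g a b = 0 →
      0 ≤ skb e T h h := by
    intro h h1 h2
    have := hg h h1 h2
    rw [secondKind_eq hT] at this
    linarith
  set gu := ∑ a, ∑ b, u a b * g a b with hgu
  set gv := ∑ a, ∑ b, v a b * g a b with hgv
  have hgu0 : gu ≠ 0 := by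
    intro h0
    exact absurd (hg' u hu h0) (not_le.2 hneg)
  have h1 := hg' (fun a b => v a b + (-(gv / gu)) * u a b) (fun a b => by rw [hu, hv]) (by
    have : ∑ a, ∑ b, (v a b + (-(gv / gu)) * u a b) * g a b = gv + (-(gv / gu)) * gu := by
      rw [hgu, hgv, Finset.mul_sum, ← Finset.sum_add_distrib]
      refine Finset.sum_congr rfl fun a _ => ?_
      rw [Finset.mul_sum, ← Finset.sum_add_distrib]
      exact Finset.sum_congr rfl fun b _ => by ring
    rw [this]
    field_simp
    ring)
  rw [skb_add_left, skb_smul_left, skb_comm hT e v, skb_comm hT e u, skb_add_left, skb_add_left,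
    skb_smul_left, skb_smul_left, skb_comm hT e v u, huv] at h1
  nlinarith [mul_nonneg (sq_nonneg (gv / gu)) (neg_nonneg.2 hneg.le)]

theorem sec_nonpos {T : V → V → V → V → ℝ} (hT : AlgCurv T) {e : OrthonormalBasis ι ℝ V}
    (hS : SecondNonpos e T) (x y : V) : T x y x y ≤ 0 := by
  by_contra hpos
  push Not at hpos
  have z1 : ∀ x z w, T x x z w = 0 := fun x z w => by
    have := hT.anti x x z w
    linarith
  have z2 : ∀ x z w, T z w x x = 0 := fun x z w => by
    rw [hT.pair]
    exact z1 _ _ _
  set u : ι → ι → ℝ := fun a b => sp e x x a b + (-1) * sp e y y a b with hu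
  have hus : ∀ a b, u a b = u b a := fun a b => by
    simp only [hu]
    rw [sp_symm e x x a b, sp_symm e y y a b]
  have e1 : ∀ k : ι → ι → ℝ, skb e T u k = skb e T (sp e x x) k + (-1) * skb e T (sp e y y) k := by
    intro k
    rw [hu, skb_add_left, skb_smul_left]
  have huv : skb e T u (sp e x y) = 0 := by
    rw [e1, skb_sp hT, skb_sp hT, z1, z2, z1, z2]
    ring
  have huu : skb e T u u < 0 := by
    rw [e1, skb_comm hT e _ u, skb_comm hT e (sp e y y) u, e1, e1,
      skb_sp hT, skb_sp hT, skb_sp hT, skb_sp hT, z1, z1, hT.anti x y y x, anti' hT x y x y]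
    linarith
  have h2 := no_two_neg hT hS hus (sp_symm e x y) huv huu
  rw [skb_sp hT, z1, anti' hT x y x y] at h2
  linarith


/-- positive semidefinite forms are sums of squares -/
theorem psd_squares {E : Type} [AddCommGroup E] [Module ℝ E] [FiniteDimensional ℝ E]
    (P : E →ₗ[ℝ] E →ₗ[ℝ] ℝ) (hs : ∀ u v, P u v = P v u) (hp : ∀ u, 0 ≤ P u u) :
    ∃ (n : ℕ) (f : Fin n → E →ₗ[ℝ] ℝ), ∀ u v, P u v = ∑ l, f l u * f l v := by
  classical
  set bas := Module.finBasis ℝ E with hbas
  set n := Module.finrank ℝ E with hn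
  set A : Matrix (Fin n) (Fin n) ℝ := fun i j => P (bas i) (bas j) with hA
  have hexp : ∀ u v : E, P u v = ∑ i, ∑ j, bas.repr u i * bas.repr v j * A i j := by
    intro u v
    conv_lhs => rw [← bas.sum_repr u, ← bas.sum_repr v]
    simp only [map_sum, LinearMap.sum_apply, map_smul, LinearMap.smul_apply, smul_eq_mul,
      Finset.mul_sum]
    rw [Finset.sum_comm]
    refine Finset.sum_congr rfl fun i _ => Finset.sum_congr rfl fun j _ => ?_
    rw [hA]
    ring
  have hpsd : A.PosSemidef := by
    refine Matrix.PosSemidef.of_dotProduct_mulVec_nonneg ?_ ?_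
    · ext i j
      exact hs _ _
    · intro x
      have h1 := hp (∑ i, x i • bas i)
      rw [hexp] at h1
      have h2 : ∀ i, bas.repr (∑ i, x i • bas i) i = x i := by
        intro i
        rw [Module.Basis.repr_sum_self]
      simp only [h2] at h1
      simp only [dotProduct, Matrix.mulVec, star_trivial, Finset.mul_sum]
      refine h1.trans (le_of_eq ?_)
      exact Finset.sum_congr rfl fun i _ => Finset.sum_congr rfl fun j _ => by ring
  obtain ⟨N, v, hv⟩ := Matrix.posSemidef_iff_eq_sum_vecMulVec.1 hpsd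
  refine ⟨N, fun l => ∑ i, v l i • bas.coord i, fun u w => ?_⟩
  rw [hexp]
  simp only [LinearMap.sum_apply, LinearMap.smul_apply, Module.Basis.coord_apply, smul_eq_mul]
  have h3 : ∀ i j, A i j = ∑ l, v l i * v l j := by
    intro i j
    rw [hv, Matrix.sum_apply]
    rfl
  have h4 : ∀ l, (∑ i, v l i * bas.repr u i) * (∑ i, v l i * bas.repr w i) =
      ∑ i, ∑ j, bas.repr u i * bas.repr w j * (v l i * v l j) := by
    intro l
    rw [Finset.sum_mul_sum]
    exact Finset.sum_congr rfl fun i _ => Finset.sum_congr rfl fun j _ => by ring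
  simp only [h3, h4, Finset.mul_sum]
  have h5 : ∀ F : Fin n → Fin n → Fin N → ℝ, ∑ i, ∑ j, ∑ l, F i j l = ∑ l, ∑ i, ∑ j, F i j l := by
    intro F
    have h6 : ∀ i, ∑ j, ∑ l, F i j l = ∑ l, ∑ j, F i j l := fun i => Finset.sum_comm
    rw [Finset.sum_congr rfl fun i _ => h6 i]
    exact Finset.sum_comm
  exact h5 _

/-- symmetric part -/
noncomputable def sy (h : ι → ι → ℝ) (a b : ι) : ℝ := (h a b + h b a) / 2

omit [Fintype ι] in
theorem sy_symm (h : ι → ι → ℝ) (a b : ι) : sy h a b = sy h b a := by
  unfold sy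
  ring

omit [Fintype ι] in
theorem sy_add (h k : ι → ι → ℝ) : sy (h + k) = fun a b => sy h a b + sy k a b := by
  funext a b
  simp only [sy, Pi.add_apply]
  ring

omit [Fintype ι] in
theorem sy_smul (t : ℝ) (h : ι → ι → ℝ) : sy (t • h) = fun a b => t * sy h a b := by
  funext a b
  simp only [sy, Pi.smul_apply, smul_eq_mul]
  ring

theorem sy_sp (e : OrthonormalBasis ι ℝ V) (x z : V) : sy (sp e x z) = sp e x z := by
  funext a b
  unfold sy sp
  ring

theorem sec_zero {T : V → V → V → V → ℝ} (hT : AlgCurv T) (h : ∀ x y, T x y x y = 0)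
    (x y z w : V) : T x y z w = 0 := by
  have add1 := hT.add
  have add2 : ∀ x y y' z w, T x (y + y') z w = T x y z w + T x y' z w := by
    intro x y y' z w
    rw [hT.anti, hT.add, hT.anti x y, hT.anti x y']
    ring
  have add3 : ∀ x y z z' w, T x y (z + z') w = T x y z w + T x y z' w := by
    intro x y z z' w
    rw [← hT.pair, hT.add, hT.pair x y z w, hT.pair x y z' w]
  have add4 : ∀ x y z w w', T x y z (w + w') = T x y z w + T x y z w' := by
    intro x y z w w'
    rw [← hT.pair, add2, hT.pair x y z w, hT.pair x y z w']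
  have h1 : ∀ x y z, T x y z y = 0 := by
    intro x y z
    have h2 := h (x + z) y
    rw [add1, add3, add3, h, h, hT.pair x y z y] at h2
    linarith
  have h2 : ∀ x y z w, T x y z w + T x w z y = 0 := by
    intro x y z w
    have h3 := h1 x (y + w) z
    rw [add2, add4, add4, h1, h1] at h3
    linarith
  have h3 := hT.bianchi x y z w
  have h4 := h2 x y z w
  have h5 := h2 y z x w
  have h6 := h2 z x y w
  have h7 := hT.pair x y z w
  have h8 := hT.anti x y z w
  have h9 := anti' hT x y z w
  -- `T y z x w = - T y w x z = T ...`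
  have h10 : T y z x w = T x y z w := by
    have i1 := h2 y z x w
    have i2 := hT.anti w y x z
    have i3 := hT.pair x z w y
    have i4 := h2 x z w y
    have i5 := anti' hT x y z w
    linarith
  have h11 : T z x y w = T x y z w := by
    have i1 := h2 x y z w
    have i2 := hT.pair x w z y
    have i3 := anti' hT z x w y
    have i4 := hT.anti z x w y
    have i5 := hT.anti z x y w
    have i6 := h2 x z y w
    have i7 := anti' hT x w y z
    linarith
  linarith

/-- the symmetrised bilinear form as a linear map -/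
noncomputable def skL (e : OrthonormalBasis ι ℝ V) (T : V → V → V → V → ℝ) (hT : AlgCurv T) :
    (ι → ι → ℝ) →ₗ[ℝ] (ι → ι → ℝ) →ₗ[ℝ] ℝ :=
  LinearMap.mk₂ ℝ (fun h k => skb e T (sy h) (sy k))
    (fun h h' k => by rw [sy_add, skb_add_left])
    (fun t h k => by rw [sy_smul, skb_smul_left, smul_eq_mul])
    (fun h k k' => by
      rw [sy_add, skb_comm hT e (sy h), skb_add_left, skb_comm hT e _ (sy h),
        skb_comm hT e _ (sy h)])
    (fun t h k => by
      rw [sy_smul, skb_comm hT e (sy h), skb_smul_left, skb_comm hT e _ (sy h), smul_eq_mul])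

/-- **A curvature tensor whose operator of the second kind has at most one positive eigenvalue (on
all symmetric tensors) is of causal type.** -/
theorem second_causal {T : V → V → V → V → ℝ} (hT : AlgCurv T) {e : OrthonormalBasis ι ℝ V}
    (hS : SecondNonpos e T) : ∃ N, CausalT N T := by
  have hsec := sec_nonpos hT hS
  by_cases hz : ∀ x y, T x y x y = 0
  · refine ⟨0, fun _ _ => 0, fun k => k.elim0, ⟨fun _ _ _ => by simp, fun _ _ _ => by simp,
      fun _ _ => rfl⟩, fun k => k.elim0, fun x => ⟨le_rfl, by simp⟩, fun x y z w => ?_⟩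
    rw [sec_zero hT hz]
    simp
  push Not at hz
  obtain ⟨x₀, y₀, h0⟩ := hz
  have hneg : T x₀ y₀ x₀ y₀ < 0 := lt_of_le_of_ne (hsec x₀ y₀) h0
  have z1 : ∀ x z w, T x x z w = 0 := fun x z w => by
    have := hT.anti x x z w
    linarith
  set L := skL e T hT with hL
  have hLs : ∀ u v, L u v = L v u := fun u v => skb_comm hT e _ _
  have hLsp : ∀ x z y w, L (sp e x z) (sp e y w) = (T x y z w + T x w z y) / 2 := by
    intro x z y w
    show skb e T (sy (sp e x z)) (sy (sp e y w)) = _
    rw [sy_sp, sy_sp, skb_sp hT]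
  set u : ι → ι → ℝ := sp e x₀ x₀ + sp e y₀ y₀ with hu
  have hus : sy u = u := by
    rw [hu, sy_add, sy_sp, sy_sp]
    rfl
  have huu : L u u = 2 * T x₀ y₀ x₀ y₀ := by
    rw [hu]
    simp only [map_add, LinearMap.add_apply, hLsp]
    rw [z1, z1, hT.anti x₀ y₀ y₀ x₀, anti' hT x₀ y₀ x₀ y₀]
    ring
  set lam := -L u u with hlam
  have hlam0 : 0 < lam := by rw [hlam, huu]; linarith
  set s := Real.sqrt lam with hs
  have hs0 : 0 < s := Real.sqrt_pos.2 hlam0
  have hs2 : s * s = lam := Real.mul_self_sqrt hlam0.le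
  -- the form `b`
  set B : (ι → ι → ℝ) →ₗ[ℝ] ℝ := (-(1 / s)) • L u with hB
  have hBB : ∀ h k, B h * B k = L u h * L u k / lam := by
    intro h k
    simp only [hB, LinearMap.smul_apply, smul_eq_mul]
    rw [← hs2]
    field_simp
  set P : (ι → ι → ℝ) →ₗ[ℝ] (ι → ι → ℝ) →ₗ[ℝ] ℝ := L + LinearMap.mk₂ ℝ (fun h k => B h * B k)
    (fun h h' k => by rw [map_add]; ring) (fun t h k => by rw [map_smul, smul_eq_mul, smul_eq_mul]; ring)
    (fun h k k' => by rw [map_add]; ring) (fun t h k => by rw [map_smul, smul_eq_mul, smul_eq_mul]; ring)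
    with hP
  have hPa : ∀ h k, P h k = L h k + B h * B k := fun h k => rfl
  have hPs : ∀ h k, P h k = P k h := by
    intro h k
    rw [hPa, hPa, hLs, mul_comm]
  have hPp : ∀ h, 0 ≤ P h h := by
    intro h
    set t := L u h / lam with ht
    have e1 : L u (h + t • u) = 0 := by
      rw [map_add, map_smul, smul_eq_mul, ht]
      have : L u u = -lam := by rw [hlam]; ring
      rw [this]
      field_simp
      ring
    have h2 : 0 ≤ L (h + t • u) (h + t • u) := by
      refine no_two_neg hT hS (u := u) (fun a b => ?_) (sy_symm _) ?_ ?_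
      · rw [← hus]; exact sy_symm _ _ _
      · have h3 : L u (h + t • u) = skb e T (sy u) (sy (h + t • u)) := rfl
        rw [hus] at h3
        rw [← h3, e1]
      · have h3 : L u u = skb e T (sy u) (sy u) := rfl
        rw [hus] at h3
        rw [← h3, huu]
        linarith
    have h4 : L (h + t • u) (h + t • u) = L h h + L u h * L u h / lam := by
      have h5 : L u (h + t • u) = 0 := e1
      have h6 : L (h + t • u) (h + t • u) = L h (h + t • u) + t * L u (h + t • u) := by
        rw [map_add L, LinearMap.add_apply, map_smul L, LinearMap.smul_apply, smul_eq_mul]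
      rw [h6, h5, map_add, map_smul, smul_eq_mul, hLs h u, ht]
      ring
    rw [hPa, hBB, ← h4]
    exact h2
  obtain ⟨N, f, hf⟩ := psd_squares P hPs hPp
  set r := Real.sqrt (2 / 3) with hr
  have hr2 : r * r = 2 / 3 := Real.mul_self_sqrt (by norm_num)
  have hspadd : ∀ x x' z, sp e (x + x') z = sp e x z + sp e x' z := fun x x' z => by
    funext a b
    exact sp_add e x x' z a b
  have hspsmul : ∀ (t : ℝ) x z, sp e (t • x) z = t • sp e x z := fun t x z => by
    funext a b
    exact sp_smul e t x z a b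
  have hsb : ∀ g : (ι → ι → ℝ) →ₗ[ℝ] ℝ, SymBil (fun x z : V => r * g (sp e x z)) := by
    intro g
    refine ⟨fun x x' z => ?_, fun t x z => ?_, fun x z => ?_⟩
    · beta_reduce
      rw [hspadd, map_add]
      ring
    · beta_reduce
      rw [hspsmul, map_smul, smul_eq_mul]
      ring
    · beta_reduce
      rw [sp_comm]
  have hsum : ∀ x z y w, ∑ l, (r * f l (sp e x z)) * (r * f l (sp e y w)) =
      (r * B (sp e x z)) * (r * B (sp e y w)) + (T x y z w + T x w z y) / 3 := by
    intro x z y w
    have h1 := hf (sp e x z) (sp e y w)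
    rw [hPa, hLsp] at h1
    have h2 : ∑ l, (r * f l (sp e x z)) * (r * f l (sp e y w)) =
        r * r * ∑ l, f l (sp e x z) * f l (sp e y w) := by
      rw [Finset.mul_sum]
      exact Finset.sum_congr rfl fun l _ => by ring
    rw [h2, ← h1, hr2]
    linear_combination (-(B (sp e x z) * B (sp e y w))) * hr2
  refine ⟨N, fun x z => r * B (sp e x z), fun l x z => r * f l (sp e x z), hsb B,
    fun l => hsb (f l), fun x => ⟨?_, ?_⟩, fun x y z w => ?_⟩
  · have h1 : B (sp e x x) = -(1 / s) * (T x₀ x x₀ x + T y₀ x y₀ x) := by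
      rw [hB, LinearMap.smul_apply, smul_eq_mul, hu]
      simp only [map_add, LinearMap.add_apply, hLsp]
      ring
    have h2 := hsec x₀ x
    have h3 := hsec y₀ x
    have h4 : 0 ≤ 1 / s := by positivity
    have h5 : 0 ≤ r := Real.sqrt_nonneg _
    have h6 : 0 ≤ B (sp e x x) := by
      rw [h1]
      nlinarith
    positivity
  · have h1 := hsum x x x x
    rw [z1] at h1
    beta_reduce
    have h2 : ∑ k, (r * f k (sp e x x)) ^ 2 = ∑ l, (r * f l (sp e x x)) * (r * f l (sp e x x)) :=
      Finset.sum_congr rfl fun l _ => sq _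
    rw [h2, h1]
    nlinarith
  · beta_reduce
    rw [Finset.sum_sub_distrib, hsum, hsum]
    have i1 := hT.bianchi x y z w
    have i2 := hT.pair x w z y
    have i3 := hT.anti z y x w
    have i4 := anti' hT x z y w
    have i5 := hT.anti x z w y
    have i6 := hT.anti x z y w
    have i7 := anti' hT x y z w
    have i8 := anti' hT x y w z
    linarith

end second

end Pool.Agent.U908.LC
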