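import Pool.Agent.U908.LC.Flow

/-!
# Polynomials without zeros in the tube over the future light cone
-/

set_option autoImplicit false

namespace Pool.Agent.U908.LC

open MvPolynomial Filter Topology

section path

variable {σ : Type*} [Fintype σ]

/-- the restriction of a polynomial to the curve `z + t u + t² w` -/
noncomputable def pth (z u w : σ → ℂ) (f : MvPolynomial σ ℂ) : Polynomial ℂ :=
  aeval (fun s => Polynomial.C (z s) + Polynomial.C (u s) * Polynomial.X +
    Polynomial.C (w s) * Polynomial.X ^ 2) f

/-- the restriction of a polynomial to the line `z + t u` -/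
noncomputable def lin (z u : σ → ℂ) (f : MvPolynomial σ ℂ) : Polynomial ℂ :=
  aeval (fun s => Polynomial.C (z s) + Polynomial.C (u s) * Polynomial.X) f

omit [Fintype σ] in
theorem eval_aeval_poly (g : σ → Polynomial ℂ) (f : MvPolynomial σ ℂ) (t : ℂ) :
    (aeval g f : Polynomial ℂ).eval t = eval (fun s => (g s).eval t) f := by
  have h := comp_aeval_apply (R := ℂ) g (Polynomial.aeval (R := ℂ) t) f
  simp only [Polynomial.coe_aeval_eq_eval] at h
  rw [h, aeval_eq_eval]

omit [Fintype σ] in
theorem eval_pth (z u w : σ → ℂ) (f : MvPolynomial σ ℂ) (t : ℂ) :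
    (pth z u w f).eval t = eval (fun s => z s + u s * t + w s * t ^ 2) f := by
  rw [pth, eval_aeval_poly]
  simp

omit [Fintype σ] in
theorem eval_lin (z u : σ → ℂ) (f : MvPolynomial σ ℂ) (t : ℂ) :
    (lin z u f).eval t = eval (fun s => z s + u s * t) f := by
  rw [lin, eval_aeval_poly]
  simp

omit [Fintype σ] in
theorem natDegree_lin (z u : σ → ℂ) (f : MvPolynomial σ ℂ) (d : ℕ) (h : f.totalDegree ≤ d) :
    (lin z u f).natDegree ≤ d := by
  have := aeval_natDegree_le f h (fun s => Polynomial.C (z s) + Polynomial.C (u s) * Polynomial.X)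
    (n := 1) (fun s => by
      refine (Polynomial.natDegree_add_le _ _).trans ?_
      rw [Polynomial.natDegree_C]
      refine max_le (Nat.zero_le _) ?_
      exact (Polynomial.natDegree_C_mul_le _ _).trans Polynomial.natDegree_X_le)
  rwa [mul_one] at this

omit [Fintype σ] in
theorem coeff_zero_pth (z u w : σ → ℂ) (f : MvPolynomial σ ℂ) : (pth z u w f).coeff 0 = eval z f := by
  rw [Polynomial.coeff_zero_eq_eval_zero, eval_pth]
  simp

theorem derivative_pth (z u w : σ → ℂ) (f : MvPolynomial σ ℂ) :
    Polynomial.derivative (pth z u w f) = ∑ s, (Polynomial.C (u s) +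
      Polynomial.C (2 * w s) * Polynomial.X) * pth z u w (pderiv s f) := by
  have h := derivation_aeval (R := ℂ) (Polynomial.derivative' (R := ℂ))
    (fun s => Polynomial.C (z s) + Polynomial.C (u s) * Polynomial.X +
    Polynomial.C (w s) * Polynomial.X ^ 2) f
  simp only [Polynomial.derivative'_apply] at h
  unfold pth
  rw [h]
  refine Finset.sum_congr rfl fun s _ => ?_
  congr 1
  simp only [Polynomial.derivative_add, Polynomial.derivative_C, Polynomial.derivative_C_mul,
    Polynomial.derivative_X, Polynomial.derivative_X_pow, map_mul]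
  simp
  ring

theorem coeff_one_pth (z u w : σ → ℂ) (f : MvPolynomial σ ℂ) :
    (pth z u w f).coeff 1 = ∑ s, u s * eval z (pderiv s f) := by
  have h := congrArg (fun p : Polynomial ℂ => p.coeff 0) (derivative_pth z u w f)
  simp only [Polynomial.coeff_derivative, Polynomial.finsetSum_coeff, Polynomial.mul_coeff_zero,
    Polynomial.coeff_add, Polynomial.coeff_C_zero, Polynomial.coeff_X_zero, coeff_zero_pth] at h
  simpa using h

theorem coeff_two_pth (z u w : σ → ℂ) (f : MvPolynomial σ ℂ) :
    (pth z u w f).coeff 2 = (∑ s, u s * ∑ t, u t * eval z (pderiv t (pderiv s f))) / 2 +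
      ∑ s, w s * eval z (pderiv s f) := by
  have h := congrArg (fun p : Polynomial ℂ => p.coeff 1) (derivative_pth z u w f)
  simp only [Polynomial.coeff_derivative, Polynomial.finsetSum_coeff] at h
  have h1 : ∀ s, ((Polynomial.C (u s) + Polynomial.C (2 * w s) * Polynomial.X) *
      pth z u w (pderiv s f)).coeff 1 = u s * (∑ t, u t * eval z (pderiv t (pderiv s f))) +
        2 * (w s * eval z (pderiv s f)) := by
    intro s
    rw [add_mul, Polynomial.coeff_add, Polynomial.coeff_C_mul, coeff_one_pth, mul_assoc,
      Polynomial.coeff_C_mul, Polynomial.coeff_X_mul, coeff_zero_pth]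
    ring
  simp only [h1, Finset.sum_add_distrib, ← Finset.mul_sum] at h
  norm_num at h
  linear_combination h / 2

theorem derivative_lin (z u : σ → ℂ) (f : MvPolynomial σ ℂ) :
    Polynomial.derivative (lin z u f) = ∑ s, Polynomial.C (u s) * lin z u (pderiv s f) := by
  have h := derivation_aeval (R := ℂ) (Polynomial.derivative' (R := ℂ))
    (fun s => Polynomial.C (z s) + Polynomial.C (u s) * Polynomial.X) f
  simp only [Polynomial.derivative'_apply] at h
  unfold lin
  rw [h]
  refine Finset.sum_congr rfl fun s _ => ?_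
  congr 1
  simp

end path

section cone

variable {K : Type*} [Fintype K]

/-- the open future light cone -/
def Fut (y : Option K → ℝ) : Prop := 0 < y none ∧ ∑ k, y (some k) ^ 2 < y none ^ 2

/-- the Lorentzian form -/
def qf (y : Option K → ℝ) : ℝ := y none ^ 2 - ∑ k, y (some k) ^ 2

theorem Fut.qf_pos {y : Option K → ℝ} (h : Fut y) : 0 < qf y := by
  unfold qf
  linarith [h.2]

/-- no zeros in the tube over the future light cone -/
def Stab (f : MvPolynomial (Option K) ℂ) : Prop :=
  ∀ z : Option K → ℂ, Fut (fun o => (z o).im) → eval z f ≠ 0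

/-- the unit time vector -/
def te : Option K → ℂ := fun o => o.elim 1 (fun _ => 0)

/-- the base point of the tube -/
noncomputable def ze : Option K → ℂ := fun o => Complex.I * te o

omit [Fintype K] in
@[simp] theorem te_none : (te : Option K → ℂ) none = 1 := rfl
omit [Fintype K] in
@[simp] theorem te_some (k : K) : (te : Option K → ℂ) (some k) = 0 := rfl
omit [Fintype K] in
@[simp] theorem ze_none : (ze : Option K → ℂ) none = Complex.I := by simp [ze]
omit [Fintype K] in
@[simp] theorem ze_some (k : K) : (ze : Option K → ℂ) (some k) = 0 := by simp [ze]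

/-- the tube is open -/
theorem isOpen_fut : IsOpen {z : Option K → ℂ | Fut fun o => (z o).im} := by
  have h1 : IsOpen {z : Option K → ℂ | 0 < (z none).im} :=
    isOpen_lt continuous_const (by fun_prop)
  have h2 : IsOpen {z : Option K → ℂ | ∑ k, (z (some k)).im ^ 2 < (z none).im ^ 2} :=
    isOpen_lt (by fun_prop) (by fun_prop)
  exact h1.inter h2

theorem Fut.add_time {y : Option K → ℝ} (h : Fut y) {t : ℝ} (ht : 0 ≤ t) :
    Fut fun o => y o + t * (te o : ℂ).re := by
  obtain ⟨h1, h2⟩ := h
  refine ⟨by simp; linarith, ?_⟩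
  simp only [te_some, te_none, Complex.zero_re, Complex.one_re, mul_zero, add_zero, mul_one]
  nlinarith

/-- a limit of stable polynomials is stable or zero -/
theorem stab_of_tendsto {d : ℕ} {f : ℕ → MvPolynomial (Option K) ℂ} {g : MvPolynomial (Option K) ℂ}
    (hf : ∀ n, Stab (f n)) (hd : ∀ n, (f n).totalDegree ≤ d) (hg : g ≠ 0)
    (h : ∀ z, Tendsto (fun n => eval z (f n)) atTop (𝓝 (eval z g))) : Stab g := by
  intro z hz hcon
  obtain ⟨w, hw⟩ : ∃ w, eval w g ≠ 0 := by
    by_contra hall
    push Not at hall
    exact hg (MvPolynomial.funext fun x => by rw [hall x, map_zero])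
  set u : Option K → ℂ := fun s => w s - z s with hu
  have hP : lin z u g ≠ 0 := by
    intro h0
    have := congrArg (fun p : Polynomial ℂ => p.eval 1) h0
    simp only [eval_lin, Polynomial.eval_zero, mul_one, hu] at this
    apply hw
    rw [← this]
    simp only [add_sub_cancel]
  -- a small disc contained in the tube
  have hcont : Continuous fun t : ℂ => (fun s => z s + u s * t : Option K → ℂ) := by fun_prop
  have hopen := isOpen_fut.preimage hcont
  have h0mem : (0 : ℂ) ∈ (fun t : ℂ => (fun s => z s + u s * t : Option K → ℂ)) ⁻¹'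
      {z : Option K → ℂ | Fut fun o => (z o).im} := by
    simpa using hz
  obtain ⟨r, hr, hball⟩ := Metric.isOpen_iff.1 hopen 0 h0mem
  -- a point of the disc where the limit does not vanish
  obtain ⟨ρ, hρ0, hρr, hρ⟩ : ∃ ρ : ℝ, 0 < ρ ∧ ρ < r ∧ (lin z u g).eval (ρ : ℂ) ≠ 0 := by
    have hfin : ((lin z u g).roots.toFinset : Set ℂ).Finite := Finset.finite_toSet _
    have hinf : (Set.Ioo (0 : ℝ) r).Infinite := Set.Ioo_infinite hr
    have hfin2 : ((fun x : ℝ => (x : ℂ)) ⁻¹' ((lin z u g).roots.toFinset : Set ℂ)).Finite :=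
      hfin.preimage (Complex.ofReal_injective.injOn)
    obtain ⟨ρ, h1, h2⟩ := hinf.exists_notMem_finite hfin2
    refine ⟨ρ, h1.1, h1.2, fun h3 => h2 ?_⟩
    simp only [Set.mem_preimage, Finset.mem_coe, Multiset.mem_toFinset]
    exact (Polynomial.mem_roots hP).2 h3
  have e1 := exists_root_near (l := atTop) (p := fun n => lin z u (f n)) (a := 0) (b := (ρ : ℂ))
    (r := ρ) (fun n => natDegree_lin z u (f n) d (hd n))
    (by simp [abs_of_pos hρ0]) hρ
    (by
      simp only [eval_lin, mul_zero, add_zero]
      rw [← hcon]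
      exact h z)
    (by
      simp only [eval_lin]
      exact h _)
  obtain ⟨n, s, hs1, hs2⟩ := e1.exists
  rw [sub_zero] at hs2
  rw [eval_lin] at hs1
  refine hf n _ ?_ hs1
  exact hball (by simpa using hs2.trans hρr)

/-- `f + ∂₀ f` -/
theorem Stab.add_pderiv {f : MvPolynomial (Option K) ℂ} (h : Stab f) : Stab (f + pderiv none f) := by
  intro z hz
  have h1 := eval_add_derivative_ne_zero (q := lin z te f) (w := 0)
    (by
      rw [eval_lin]
      simpa using h z hz)
    (fun s hs => by
      by_contra hcon
      push Not at hcon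
      rw [Complex.zero_im] at hcon
      rw [eval_lin] at hs
      refine h _ ?_ hs
      have := hz.add_time hcon
      convert this using 2 with o
      cases o <;> simp)
  rw [eval_lin, derivative_lin, Fintype.sum_option] at h1
  simpa [eval_lin] using h1

end cone

end Pool.Agent.U908.LC
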