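import Pool.Agent.U908.LC.Extr

/-!
# The time derivative at an extremal zero, and the contradiction
-/

set_option autoImplicit false

namespace Pool.Agent.U908.LC

open MvPolynomial Filter Topology

section

variable {K : Type*} [Fintype K]

/-- `δ ↦ (flow (τ₀ - δ) f) (z₀ + δ λ e₀)` as a polynomial -/
noncomputable def tpol (J : ℕ) (τ₀ lam : ℂ) (f : MvPolynomial (Option K) ℂ) : Polynomial ℂ :=
  ∑ j ∈ Finset.range J, Polynomial.C (1 / (j.factorial : ℂ)) *
    (Polynomial.X - Polynomial.C τ₀) ^ j * lin ze (fun s => lam * te s)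
      (((lap eta : Module.End ℂ (MvPolynomial (Option K) ℂ)) ^ j) f)

theorem eval_tpol (J : ℕ) (τ₀ lam : ℂ) (f : MvPolynomial (Option K) ℂ) (δ : ℂ) :
    (tpol J τ₀ lam f).eval δ = eval (fun s => ze s + lam * te s * δ) (flow J eta (τ₀ - δ) f) := by
  rw [tpol, flow_apply, Polynomial.eval_finsetSum, map_sum]
  refine Finset.sum_congr rfl fun j _ => ?_
  simp only [Polynomial.eval_mul, Polynomial.eval_C, Polynomial.eval_pow, Polynomial.eval_sub,
    Polynomial.eval_X, eval_lin, smul_eval]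
  rw [neg_sub, one_div]
  ring

theorem deriv_tpol {J : ℕ} (τ₀ lam : ℂ) (f : MvPolynomial (Option K) ℂ)
    (hJ : ((lap eta : Module.End ℂ (MvPolynomial (Option K) ℂ)) ^ (J + 1)) f = 0) :
    (tpol (J + 1) τ₀ lam f).coeff 1 = eval ze (lap eta (flow (J + 1) eta τ₀ f)) +
      lam * eval ze (pderiv none (flow (J + 1) eta τ₀ f)) := by
  have h0 : (tpol (J + 1) τ₀ lam f).coeff 1 =
      (Polynomial.derivative (tpol (J + 1) τ₀ lam f)).eval 0 := by
    rw [← Polynomial.coeff_zero_eq_eval_zero, Polynomial.coeff_derivative]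
    simp
  rw [h0, tpol, Polynomial.derivative_sum, Polynomial.eval_finsetSum]
  have h1 : ∀ j ∈ Finset.range (J + 1), (Polynomial.derivative (Polynomial.C (1 / (j.factorial : ℂ)) *
      (Polynomial.X - Polynomial.C τ₀) ^ j * lin ze (fun s => lam * te s)
      (((lap eta : Module.End ℂ (MvPolynomial (Option K) ℂ)) ^ j) f))).eval 0 =
      ((j : ℂ) * (-τ₀) ^ (j - 1) / (j.factorial : ℂ)) *
        eval ze (((lap eta : Module.End ℂ (MvPolynomial (Option K) ℂ)) ^ j) f) +
      lam * (((-τ₀) ^ j / (j.factorial : ℂ)) *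
        eval ze (pderiv none (((lap eta : Module.End ℂ (MvPolynomial (Option K) ℂ)) ^ j) f))) := by
    intro j _
    rw [Polynomial.derivative_mul, Polynomial.derivative_C_mul, Polynomial.derivative_X_sub_C_pow,
      derivative_lin, Fintype.sum_option]
    simp only [Polynomial.eval_add, Polynomial.eval_mul, Polynomial.eval_C, Polynomial.eval_pow,
      Polynomial.eval_sub, Polynomial.eval_X, eval_lin, te_none, te_some, mul_zero, mul_one,
      map_zero, zero_mul, Finset.sum_const_zero, add_zero, zero_sub]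
    ring
  rw [Finset.sum_congr rfl h1, Finset.sum_add_distrib, ← Finset.mul_sum]
  congr 1
  · rw [lap_flow, map_sum, Finset.sum_range_succ', Finset.sum_range_succ (n := J)]
    rw [hJ]
    simp only [smul_eval, Nat.cast_zero, zero_mul, zero_div, add_zero, map_zero, mul_zero]
    refine Finset.sum_congr rfl fun j _ => ?_
    congr 1
    rw [Nat.add_sub_cancel, Nat.factorial_succ]
    have e1 : ((j.factorial : ℕ) : ℂ) ≠ 0 := by exact_mod_cast (Nat.factorial_pos _).ne'
    have e2 : (((j + 1 : ℕ)) : ℂ) ≠ 0 := by exact_mod_cast (Nat.succ_ne_zero j)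
    push_cast at e2 ⊢
    field_simp
  · congr 1
    rw [flow_apply, map_sum, map_sum]
    refine Finset.sum_congr rfl fun j _ => ?_
    rw [Derivation.map_smul, smul_eval]

/-- **There is no extremal zero.** -/
theorem no_extremal {d J : ℕ} (hJ : d ≤ J) {τ₀ : ℝ} (hτ : 0 < τ₀) (hE : Ext d (J + 1) τ₀ K)
    {f : MvPolynomial (Option K) ℂ} (hf : Stab f) (hd : f.totalDegree ≤ d) :
    eval ze (flow (J + 1) eta (τ₀ : ℂ) f) ≠ 0 := by
  intro hz0
  obtain ⟨k, hk1, hk2⟩ := exists_order hτ hE hf hd hz0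
  obtain ⟨g, hg, hgd, hz, ha⟩ := exists_simple k f hf hd hk1 hk2
  have hsp := second_order hτ hE hg hgd hz ha
  have htm := time_order hτ hE hg hgd hz ha
  set G := flow (J + 1) eta (τ₀ : ℂ) g with hG
  set a := eval ze (pderiv none G) with ha'
  -- the wave operator
  have hbox : (eval ze (lap eta G) / a).im ≤ 0 := by
    rw [lap_apply, map_sum, Fintype.sum_option]
    simp only [smul_eval, eta_none, eta_some, one_mul, neg_one_mul, Finset.sum_neg_distrib]
    rw [add_div, Complex.add_im, neg_div, Complex.neg_im, Finset.sum_div, Complex.im_sum]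
    have : 0 ≤ ∑ k : K, (eval ze (pderiv (some k) (pderiv (some k) G)) / a).im :=
      Finset.sum_nonneg fun k _ => hsp k
    linarith
  -- roots at earlier times
  set l0 : ℂ := -(eval ze (lap eta G) / a) with hl0
  have hl0im : 0 ≤ l0.im := by
    rw [hl0, Complex.neg_im]
    linarith
  have hvan : ((lap eta : Module.End ℂ (MvPolynomial (Option K) ℂ)) ^ (J + 1)) g = 0 :=
    lap_pow_eq_zero eta d g hgd _ (by omega)
  have hlim : ∀ lam : ℂ, Tendsto (fun δ : ℝ => (Polynomial.C (1 / (δ : ℂ)) *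
      lin ze (fun s => te s * δ) (flow (J + 1) eta ((τ₀ - δ : ℝ) : ℂ) g)).eval lam) (𝓝[>] 0)
      (𝓝 (eval ze (lap eta G) + lam * a)) := by
    intro lam
    have h1 := tendsto_div_self (R := tpol (J + 1) (τ₀ : ℂ) lam g) (by
      rw [Polynomial.coeff_zero_eq_eval_zero, eval_tpol]
      simp only [mul_zero, add_zero, sub_zero]
      exact hz)
    rw [deriv_tpol _ _ _ hvan] at h1
    refine h1.congr fun δ => ?_
    rw [eval_tpol, Polynomial.eval_mul, Polynomial.eval_C, eval_lin, one_div, div_eq_inv_mul]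
    push_cast
    congr 3
    funext s
    ring
  set r : ℝ := 1 / (4 * τ₀) with hr
  have hr0 : 0 < r := by positivity
  have hGd : ∀ δ : ℝ, (flow (J + 1) eta ((τ₀ - δ : ℝ) : ℂ) g).totalDegree ≤ d := fun δ =>
    totalDegree_flow_le _ _ _ _ _ hgd
  have hroot := exists_root_near (l := 𝓝[>] (0 : ℝ)) (n := d)
    (p := fun δ : ℝ => Polynomial.C (1 / (δ : ℂ)) *
      lin ze (fun s => te s * δ) (flow (J + 1) eta ((τ₀ - δ : ℝ) : ℂ) g)) (a := l0)
      (b := l0 + r) (r := r) (c := r * a)
    (fun δ => (Polynomial.natDegree_C_mul_le _ _).trans (natDegree_lin _ _ _ _ (hGd δ)))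
    (by simp [abs_of_pos hr0]) (mul_ne_zero (by exact_mod_cast hr0.ne') ha)
    (by
      have := hlim l0
      have e : eval ze (lap eta G) + l0 * a = 0 := by
        rw [hl0]
        field_simp
        ring
      rwa [e] at this)
    (by
      have := hlim (l0 + r)
      have e : eval ze (lap eta G) + (l0 + r) * a = r * a := by
        rw [hl0]
        field_simp
        ring
      rwa [e] at this)
  have hsm1 : ∀ᶠ δ : ℝ in 𝓝[>] (0 : ℝ), δ < τ₀ :=
    (tendsto_id.mono_left nhdsWithin_le_nhds : Tendsto id (𝓝[>] (0 : ℝ)) (𝓝 0)).eventually_lt_const hτ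
  have hsm2 : ∀ᶠ δ : ℝ in 𝓝[>] (0 : ℝ), δ * r < 1 := by
    have h2 : Tendsto (fun δ : ℝ => δ * r) (𝓝[>] 0) (𝓝 (0 * r)) :=
      ((continuous_id.mul continuous_const).tendsto 0).mono_left nhdsWithin_le_nhds
    rw [zero_mul] at h2
    exact h2.eventually_lt_const one_pos
  obtain ⟨δ, ⟨⟨⟨s, hs1, hs2⟩, hδ1⟩, hδ2⟩, hδ⟩ :=
    (((hroot.and hsm1).and hsm2).and self_mem_nhdsWithin).exists
  have hδ0 : (0 : ℝ) < δ := hδ
  have hδc : (δ : ℂ) ≠ 0 := by exact_mod_cast hδ0.ne'
  rw [Polynomial.eval_mul, Polynomial.eval_C, eval_lin] at hs1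
  have hs3 := (mul_eq_zero.1 hs1).resolve_left (one_div_ne_zero hδc)
  have him : |(s - l0).im| ≤ ‖s - l0‖ := Complex.abs_im_le_norm _
  have him2 := abs_le.1 him
  rw [Complex.sub_im] at him2
  have hsim : -r < s.im := by linarith [him2.1]
  have hy0 : ((fun o => (ze o + te o * (δ : ℂ) * s : ℂ).im) (none : Option K)) =
      1 + δ * s.im := by simp
  have hyk : ∀ k' : K, ((fun o => (ze o + te o * (δ : ℂ) * s : ℂ).im)
      (some k' : Option K)) = 0 := by
    intro k'
    simp
  have hpos : 0 < 1 + δ * s.im := by nlinarith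
  obtain ⟨hfut, hqf⟩ := fut_axis (y := fun o : Option K => (ze o + te o * (δ : ℂ) * s : ℂ).im)
    hy0 hyk hpos
  have hle := hE g hg hgd (τ₀ - δ) (by linarith) _ hfut hs3
  rw [hqf, sub_div, div_self hτ.ne'] at hle
  have h5 : δ / τ₀ = 4 * r * δ := by
    rw [hr]
    field_simp
  rw [h5] at hle
  nlinarith [sq_nonneg (δ * s.im)]

end

end Pool.Agent.U908.LC
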